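import Pool.Agent.H87.LTI.Defs
import Pool.Agent.H2.LTM.HFC

/-!
ROW IQ (100 lines).  The integrals `Iq q V = ∫ V^q` of truncated potentials.  Pointwise estimates, `lintegral_mono`, `lintegral_const_mul` (measurable functions: `Measurable.pow_const`, `ENNReal.measurable_ofReal`).
* `iq_lo`: if `0 < V x ≤ a` then `V^q = V^p V^(q-p) ≤ a^(q-p) V^p` (`Real.rpow_add`); if `V x = 0` or `V x > a` the left side is `0^q = 0`.
* `iq_hi`: if `V x > a > 0` then `V^q = V^p V^(q-p) ≤ a^(q-p) V^p` (`q - p ≤ 0`: `Real.rpow_le_rpow_of_nonpos`); else `0^q = 0`.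
* `iq_div`: `(V/c)^q = c^(-q) V^q` (`Real.div_rpow`, `Real.rpow_neg`).
* `iq_max`: if `V x > τ` then `(V - τ)^p ≤ V^p = V^q V^(p-q) ≤ τ^(p-q) V^q`; else `0^p = 0`.
* `iq_loc` is `locInt` (H2/LTM/HFC.lean).
-/

open MeasureTheory Complex Set Filter Topology
open scoped ENNReal NNReal ContDiff ComplexConjugate

noncomputable section

namespace Pool.Agent.H87.LTI

open Pool.Agent.H2.LTM

variable {d : ℕ} {V : Sp d → ℝ}

theorem measurable_lo (hV : Measurable V) (a : ℝ) : Measurable (lo a V) := by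
  unfold lo
  exact Measurable.ite (measurableSet_le hV measurable_const) hV measurable_const

theorem measurable_hi (hV : Measurable V) (a : ℝ) : Measurable (hi a V) := by
  unfold hi
  exact Measurable.ite (measurableSet_le hV measurable_const) measurable_const hV

theorem lo_nonneg (h0 : ∀ x, 0 ≤ V x) (a : ℝ) (x : Sp d) : 0 ≤ lo a V x := by
  unfold lo
  split_ifs
  · exact h0 x
  · exact le_rfl

theorem hi_nonneg (h0 : ∀ x, 0 ≤ V x) (a : ℝ) (x : Sp d) : 0 ≤ hi a V x := by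
  unfold hi
  split_ifs
  · exact le_rfl
  · exact h0 x

theorem lo_add_hi (a : ℝ) (x : Sp d) : V x = lo a V x + hi a V x := by
  unfold lo hi
  split_ifs <;> simp

/-- `lo a V` increases with `a` -/
theorem lo_mono (h0 : ∀ x, 0 ≤ V x) {a b : ℝ} (h : a ≤ b) (x : Sp d) : lo a V x ≤ lo b V x := by
  have hx := h0 x
  unfold lo
  split_ifs with h1 h2
  · exact le_rfl
  · exact absurd (h1.trans h) h2
  · exact hx
  · exact le_rfl

/-- `hi a V` decreases with `a` -/
theorem hi_anti (h0 : ∀ x, 0 ≤ V x) {a b : ℝ} (h : a ≤ b) (x : Sp d) : hi b V x ≤ hi a V x := by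
  have hx := h0 x
  unfold hi
  split_ifs with h1 h2 h2
  · exact le_rfl
  · exact hx
  · exact absurd (h2.trans h) h1
  · exact le_rfl

private theorem IQ_le (hV : Measurable V) {W : Sp d → ℝ} {p q c : ℝ} (hc : 0 ≤ c)
    (h : ∀ x, W x ^ q ≤ c * V x ^ p) : Iq q W ≤ ENNReal.ofReal c * Iq p V := by
  unfold Iq
  rw [← lintegral_const_mul _ (hV.pow_const p).ennreal_ofReal]
  refine lintegral_mono fun x => ?_
  rw [← ENNReal.ofReal_mul hc]
  exact ENNReal.ofReal_le_ofReal (h x)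

theorem iq_lo (hV : Measurable V) (h0 : ∀ x, 0 ≤ V x) {p q a : ℝ} (hp : 0 < p) (hpq : p ≤ q)
    (ha : 0 ≤ a) : Iq q (lo a V) ≤ ENNReal.ofReal (a ^ (q - p)) * Iq p V := by
  refine IQ_le hV (Real.rpow_nonneg ha _) fun x => ?_
  have hR : 0 ≤ a ^ (q - p) * V x ^ p := mul_nonneg (Real.rpow_nonneg ha _)
    (Real.rpow_nonneg (h0 x) _)
  have hq : q ≠ 0 := by linarith
  unfold lo
  split_ifs with h1
  · rcases (h0 x).eq_or_lt with h2 | h2
    · rw [← h2, Real.zero_rpow hq]
      rw [← h2] at hR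
      exact hR
    · have e : V x ^ q = V x ^ (q - p) * V x ^ p := by
        rw [← Real.rpow_add h2]
        congr 1
        ring
      rw [e]
      exact mul_le_mul_of_nonneg_right (Real.rpow_le_rpow h2.le h1 (by linarith))
        (Real.rpow_nonneg h2.le _)
  · rw [Real.zero_rpow hq]
    exact hR

theorem iq_hi (hV : Measurable V) (h0 : ∀ x, 0 ≤ V x) {p q a : ℝ} (hq : 0 < q) (hqp : q ≤ p)
    (ha : 0 < a) : Iq q (hi a V) ≤ ENNReal.ofReal (a ^ (q - p)) * Iq p V := by
  refine IQ_le hV (Real.rpow_nonneg ha.le _) fun x => ?_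
  have hR : 0 ≤ a ^ (q - p) * V x ^ p := mul_nonneg (Real.rpow_nonneg ha.le _)
    (Real.rpow_nonneg (h0 x) _)
  unfold hi
  split_ifs with h1
  · rw [Real.zero_rpow hq.ne']
    exact hR
  · have h2 : a < V x := not_le.1 h1
    have h3 : 0 < V x := ha.trans h2
    have e : V x ^ q = V x ^ (q - p) * V x ^ p := by
      rw [← Real.rpow_add h3]
      congr 1
      ring
    rw [e]
    exact mul_le_mul_of_nonneg_right (Real.rpow_le_rpow_of_nonpos ha h2.le (by linarith))
      (Real.rpow_nonneg h3.le _)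

theorem iq_div (hV : Measurable V) (h0 : ∀ x, 0 ≤ V x) (q : ℝ) {c : ℝ} (hc : 0 < c) :
    Iq q (fun x => V x / c) = ENNReal.ofReal (c ^ (-q)) * Iq q V := by
  unfold Iq
  rw [← lintegral_const_mul _ (hV.pow_const q).ennreal_ofReal]
  refine lintegral_congr fun x => ?_
  rw [← ENNReal.ofReal_mul (Real.rpow_nonneg hc.le _), Real.div_rpow (h0 x) hc.le,
    Real.rpow_neg hc.le, div_eq_inv_mul]

theorem iq_max (hV : Measurable V) (h0 : ∀ x, 0 ≤ V x) {p q τ : ℝ} (hp : 0 < p) (hpq : p ≤ q)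
    (hτ : 0 < τ) : Iq p (fun x => max (V x - τ) 0) ≤ ENNReal.ofReal (τ ^ (p - q)) * Iq q V := by
  refine IQ_le hV (Real.rpow_nonneg hτ.le _) fun x => ?_
  have hR : 0 ≤ τ ^ (p - q) * V x ^ q := mul_nonneg (Real.rpow_nonneg hτ.le _)
    (Real.rpow_nonneg (h0 x) _)
  rcases le_or_gt (V x) τ with h1 | h1
  · rw [max_eq_right (by linarith), Real.zero_rpow hp.ne']
    exact hR
  · rw [max_eq_left (by linarith)]
    have h3 : 0 < V x := hτ.trans h1
    have e : V x ^ p = V x ^ (p - q) * V x ^ q := by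
      rw [← Real.rpow_add h3]
      congr 1
      ring
    calc (V x - τ) ^ p ≤ V x ^ p :=
          Real.rpow_le_rpow (by linarith) (by linarith) hp.le
      _ = V x ^ (p - q) * V x ^ q := e
      _ ≤ τ ^ (p - q) * V x ^ q :=
          mul_le_mul_of_nonneg_right (Real.rpow_le_rpow_of_nonpos hτ h1.le (by linarith))
            (Real.rpow_nonneg h3.le _)

theorem iq_loc (hV : Measurable V) (h0 : ∀ x, 0 ≤ V x) {p : ℝ} (hp : 1 ≤ p) (h : Iq p V ≠ ⊤) :
    LocallyIntegrable V := by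
  exact locInt hV h0 hp h

end Pool.Agent.H87.LTI
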