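import Pool.Agent.H87.LTI.CA

/-!
ROW LV (120 lines).  Elementary facts on `lv A V E = cnt (kin A - pot V + E mass)`.
`V * ‖u‖²` is integrable for `u : TF d` and `V` locally integrable (`LocallyIntegrable.integrable_smul_right_of_hasCompactSupport`, see `HFC_int` in H2/LTM/HFC.lean), so `pot` is additive (`integral_add`) and monotone
(`integral_mono`) in `V`; `pot (fun x => c * V x) u = c * pot V u` is `KEY1_pot_mul`.
* `lv_mono`, `lv_anti`: `cnt_mono` (H2/LTM/CNT.lean), `mass ≥ 0`; `ENat.toENNReal_le`.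
* `lv_shift`: for `V` locally integrable, `V ≤ max (V - τ) 0 + τ` gives `pot V u ≤ pot (max (V - τ) 0) u + τ * mass u`, so `kin - pot V + (s + τ) mass < 0` implies `kin - pot (max (V - τ) 0) + s mass < 0`.
  (`max (V - τ) 0` is locally integrable: `0 ≤ max (V - τ) 0 ≤ |V|`, `LocallyIntegrable.mono`.)
* `lv_split`: `kin - pot V + E mass = (1-η) (kin - pot (W1/(1-η)) + E mass) + η (kin - pot (W2/η) + E mass)`; `cnt_add` (the two summands are Hermitian forms: `isHF_kin`, `isHF_pot`, `isHF_mass`, `IsHF.add/sub/const_mul`),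
  and `cnt` of a positive multiple is at most `cnt` (`cnt_mono`).
* `lv_zero`: if `V ≤ E` everywhere then `pot V u ≤ E * mass u`, so the form is `≥ 0` (`kin_nonneg`), `cnt_eq_zero`.
-/

open MeasureTheory Complex Set Filter Topology
open scoped ENNReal NNReal ContDiff ComplexConjugate

noncomputable section

namespace Pool.Agent.H87.LTI

open Pool.Agent.H2.LTM

variable {d : ℕ} {A : Sp d → Sp d} {V W : Sp d → ℝ}

theorem LV_int (hV : LocallyIntegrable V) (u : TF d) :
    Integrable (fun x => V x * ‖(u : Sp d → ℂ) x‖ ^ 2) := by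
  have hc : HasCompactSupport (fun x => ‖(u : Sp d → ℂ) x‖ ^ 2) :=
    u.2.2.comp_left (g := fun z : ℂ => ‖z‖ ^ 2) (by simp)
  exact hV.integrable_smul_right_of_hasCompactSupport (u.2.1.continuous.norm.pow 2) hc

theorem pot_add' (hV : LocallyIntegrable V) (hW : LocallyIntegrable W) (u : TF d) :
    pot (fun x => V x + W x) (u : Sp d → ℂ) = pot V (u : Sp d → ℂ) + pot W (u : Sp d → ℂ) := by
  unfold pot
  rw [← integral_add (LV_int hV u) (LV_int hW u)]
  refine integral_congr_ae (Filter.Eventually.of_forall fun x => ?_)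
  exact add_mul _ _ _

theorem pot_mono' (hV : LocallyIntegrable V) (hW : LocallyIntegrable W) (h : ∀ x, V x ≤ W x)
    (u : TF d) : pot V (u : Sp d → ℂ) ≤ pot W (u : Sp d → ℂ) :=
  integral_mono (LV_int hV u) (LV_int hW u) fun x =>
    mul_le_mul_of_nonneg_right (h x) (sq_nonneg _)

theorem LV_mass (u : Sp d → ℂ) : 0 ≤ mass u := integral_nonneg fun _ => sq_nonneg _

theorem LV_const (E : ℝ) (u : Sp d → ℂ) : pot (fun _ => E) u = E * mass u := by
  unfold pot mass
  exact integral_const_mul _ _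

theorem LV_le {V W : Sp d → ℝ} {E E' : ℝ}
    (h : ∀ u : TF d, kin A (u : Sp d → ℂ) - pot V (u : Sp d → ℂ) + E * mass (u : Sp d → ℂ) < 0 →
      kin A (u : Sp d → ℂ) - pot W (u : Sp d → ℂ) + E' * mass (u : Sp d → ℂ) < 0) :
    lv A V E ≤ lv A W E' := by
  unfold lv
  rw [ENat.toENNReal_le]
  exact cnt_mono _ _ h

theorem lv_mono (hV : LocallyIntegrable V) (hW : LocallyIntegrable W) (h : ∀ x, V x ≤ W x)
    (E : ℝ) : lv A V E ≤ lv A W E := by
  refine LV_le fun u hu => ?_
  have h1 := pot_mono' hV hW h u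
  linarith

theorem lv_anti {E E' : ℝ} (h : E ≤ E') : lv A V E' ≤ lv A V E := by
  refine LV_le fun u hu => ?_
  have h1 := mul_le_mul_of_nonneg_right h (LV_mass (u : Sp d → ℂ))
  linarith

theorem LV_trunc (hV : LocallyIntegrable V) {τ : ℝ} (hτ : 0 ≤ τ) :
    LocallyIntegrable (fun x => max (V x - τ) 0) := by
  refine hV.mono ?_ (Filter.Eventually.of_forall fun x => ?_)
  · exact (hV.aestronglyMeasurable.sub aestronglyMeasurable_const).sup aestronglyMeasurable_const
  · rw [Real.norm_of_nonneg (le_max_right _ _), Real.norm_eq_abs]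
    refine max_le ?_ (abs_nonneg _)
    have := le_abs_self (V x)
    linarith

theorem lv_shift (hV : LocallyIntegrable V) {s τ : ℝ} (hτ : 0 ≤ τ) :
    lv A V (s + τ) ≤ lv A (fun x => max (V x - τ) 0) s := by
  refine LV_le fun u hu => ?_
  have hT := LV_trunc hV hτ
  have h1 := pot_mono' hV (hT.add (locallyIntegrable_const τ))
    (W := fun x => max (V x - τ) 0 + τ) (fun x => by
      have := le_max_left (V x - τ) 0
      linarith) u
  have h2 := pot_add' hT (locallyIntegrable_const τ) u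
  rw [h2, LV_const] at h1
  linarith

theorem LV_hf (hA : Adm A) (hV : LocallyIntegrable V) (E : ℝ) :
    IsHF (fun u : TF d => kin A (u : Sp d → ℂ) - pot V (u : Sp d → ℂ) + E * mass (u : Sp d → ℂ)) :=
  ((isHF_kin hA.meas hA.loc).sub (isHF_pot hV)).add (isHF_mass.const_mul E)

theorem LV_div (hV : LocallyIntegrable V) (c : ℝ) : LocallyIntegrable (fun x => V x / c) := by
  have h := hV.smul c⁻¹
  have e : (fun x => V x / c) = c⁻¹ • V := by
    funext x
    rw [Pi.smul_apply, smul_eq_mul, div_eq_inv_mul]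
  rw [e]
  exact h

theorem LV_pdiv {c : ℝ} (hc : 0 < c) (V : Sp d → ℝ) (u : Sp d → ℂ) :
    c * pot (fun x => V x / c) u = pot V u := by
  rw [← KEY1_pot_mul]
  congr 1
  funext x
  field_simp

theorem lv_split (hA : Adm A) {W1 W2 : Sp d → ℝ} (h1 : LocallyIntegrable W1)
    (h2 : LocallyIntegrable W2) (hV : ∀ x, V x = W1 x + W2 x) {η : ℝ} (hη : 0 < η) (hη1 : η < 1)
    (E : ℝ) :
    lv A V E ≤ lv A (fun x => W1 x / (1 - η)) E + lv A (fun x => W2 x / η) E := by
  have hη' : 0 < 1 - η := by linarith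
  unfold lv
  rw [← ENat.toENNReal_add, ENat.toENNReal_le]
  have hVe : V = fun x => W1 x + W2 x := funext hV
  have hq1 := (LV_hf hA (LV_div h1 (1 - η)) E).const_mul (1 - η)
  have hq2 := (LV_hf hA (LV_div h2 η) E).const_mul η
  have h3 := cnt_add _ _ hq1 hq2
  have h4 : ∀ u : TF d, (1 - η) * (kin A (u : Sp d → ℂ) - pot (fun x => W1 x / (1 - η)) (u : Sp d → ℂ) +
      E * mass (u : Sp d → ℂ)) + η * (kin A (u : Sp d → ℂ) - pot (fun x => W2 x / η) (u : Sp d → ℂ) +
      E * mass (u : Sp d → ℂ)) = kin A (u : Sp d → ℂ) - pot V (u : Sp d → ℂ) +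
      E * mass (u : Sp d → ℂ) := by
    intro u
    have e1 := LV_pdiv hη' W1 (u : Sp d → ℂ)
    have e2 := LV_pdiv hη W2 (u : Sp d → ℂ)
    have e3 := pot_add' h1 h2 u
    rw [← hVe] at e3
    rw [e3, ← e1, ← e2]
    ring
  have hpos : ∀ {c t : ℝ}, 0 < c → c * t < 0 → t < 0 := by
    intro c t hc ht
    by_contra hcon
    push Not at hcon
    have := mul_nonneg hc.le hcon
    linarith
  have h5 : levels A V E ≤ _ := le_trans (cnt_mono _ _ fun u hu => by
    rw [h4 u]
    exact hu) h3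
  refine h5.trans (add_le_add ?_ ?_)
  · exact cnt_mono _ _ fun u hu => hpos hη' hu
  · exact cnt_mono _ _ fun u hu => hpos hη hu

theorem lv_zero (hV : LocallyIntegrable V) {E : ℝ} (h : ∀ x, V x ≤ E) : lv A V E = 0 := by
  unfold lv levels
  rw [cnt_eq_zero]
  · exact ENat.toENNReal_zero
  · intro u
    have h1 := pot_mono' hV (locallyIntegrable_const E) h u
    rw [LV_const] at h1
    have h2 := kin_nonneg A (u : Sp d → ℂ)
    linarith

end Pool.Agent.H87.LTI
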