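import Pool.Agent.H87.LTI.BE
import Pool.Agent.H87.LTI.LV
import Pool.Agent.H87.LTI.IQ

/-!
ROW AL (120 lines).  The Aizenman–Lieb argument for a fixed vector potential.
Let `β = γ0 - γ`, `p = γ + d/2`, `Iq (p + β) V ≠ ⊤` (note `γ0 + d/2 = p + β`; `V` is locally integrable by `iq_loc`).  For `τ > 0` put `V_τ = max (V - τ) 0`; `Iq p V_τ ≠ ⊤` by `iq_max`, so `riesz γ A V_τ ≤ K * Iq p V_τ`, and
`lv A V (s + τ) ≤ lv A V_τ s` (`lv_shift`), so `γ ∫_{s>0} s^(γ-1) lv A V (s+τ) ds ≤ riesz γ A V_τ` (`ofReal (γ * s^(γ-1)) = ofReal γ * ofReal (s^(γ-1))`).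
Multiply by `τ^(β-1)` and integrate over `τ > 0`.  `N E = lv A V E` is measurable (`measurable_lv`: it is antitone, `lv_anti`, `Antitone.measurable`).
Left side: `BE_tonelli`: `γ Bt β γ ∫_{E>0} E^(γ0-1) lv A V E dE = (γ Bt β γ/γ0) riesz γ0 A V`.
Right side: `K ∫_{τ>0} τ^(β-1) ∫_x max(V x - τ) 0^p dx dτ = K Bt β (p+1) ∫_x V^(p+β)` (Tonelli `lintegral_lintegral_swap`, `BE_pos`).
So `riesz γ0 A V ≤ γ0 Bt β (p+1)/(γ Bt β γ) K Iq (p+β) V` and `γ0 Bt β (p+1)/(γ Bt β γ) = Γ(γ0+1)Γ(p+1)/(Γ(γ+1)Γ(γ0+d/2+1))` (`Real.Gamma_add_one`; `Γ(β)` cancels).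
`AL_cst_tendsto`: continuity of `Real.Gamma` on `(0,∞)` (`Real.differentiableAt_Gamma`, or `Real.continuousAt_Gamma`...): the constant tends to `1` as its two arguments tend to the same point.
-/

open MeasureTheory Complex Set Filter Topology
open scoped ENNReal NNReal ContDiff ComplexConjugate

noncomputable section

namespace Pool.Agent.H87.LTI

open Pool.Agent.H2.LTM

/-- quotient of the semiclassical constants -/
def cal (d : ℕ) (γ γ0 : ℝ) : ℝ :=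
  Real.Gamma (γ0 + 1) * Real.Gamma (γ + d / 2 + 1) /
    (Real.Gamma (γ + 1) * Real.Gamma (γ0 + d / 2 + 1))

theorem measurable_lv {d : ℕ} (A : Sp d → Sp d) (V : Sp d → ℝ) : Measurable (lv A V) := by
  have h : Antitone (lv A V) := fun _ _ hE => lv_anti hE
  exact h.measurable

/-- the left side of the Aizenman–Lieb argument for fixed `τ` -/
private theorem AL_left {d : ℕ} {A : Sp d → Sp d} {γ : ℝ} (hγ : 0 < γ) {V : Sp d → ℝ}
    (hV : LocallyIntegrable V) {τ : ℝ} (hτ : 0 < τ) :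
    ENNReal.ofReal γ * ∫⁻ s in Ioi (0 : ℝ), ENNReal.ofReal (s ^ (γ - 1)) * lv A V (s + τ) ≤
      riesz γ A (fun x => max (V x - τ) 0) := by
  rw [riesz_eq, ← lintegral_const_mul' _ _ ENNReal.ofReal_ne_top]
  refine lintegral_mono fun s => ?_
  rw [ENNReal.ofReal_mul hγ.le, mul_assoc]
  gcongr
  exact lv_shift hV hτ.le

/-- the right side of the Aizenman–Lieb argument -/
private theorem AL_right {d : ℕ} {β p : ℝ} (hβ : 0 < β) (hp : 0 < p) {V : Sp d → ℝ}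
    (hV : Measurable V) (h0 : ∀ x, 0 ≤ V x) :
    ∫⁻ τ in Ioi (0 : ℝ), ENNReal.ofReal (τ ^ (β - 1)) * Iq p (fun x => max (V x - τ) 0) =
      ENNReal.ofReal (Bt β (p + 1)) * Iq (p + β) V := by
  have hm : Measurable (fun z : ℝ × Sp d => ENNReal.ofReal (z.1 ^ (β - 1)) *
      ENNReal.ofReal (max (V z.2 - z.1) 0 ^ p)) := by
    fun_prop
  calc ∫⁻ τ in Ioi (0 : ℝ), ENNReal.ofReal (τ ^ (β - 1)) * Iq p (fun x => max (V x - τ) 0)
      = ∫⁻ τ in Ioi (0 : ℝ), ∫⁻ x, ENNReal.ofReal (τ ^ (β - 1)) *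
          ENNReal.ofReal (max (V x - τ) 0 ^ p) := by
        refine lintegral_congr fun τ => ?_
        unfold Iq
        rw [lintegral_const_mul' _ _ ENNReal.ofReal_ne_top]
    _ = ∫⁻ x, ∫⁻ τ in Ioi (0 : ℝ), ENNReal.ofReal (τ ^ (β - 1)) *
          ENNReal.ofReal (max (V x - τ) 0 ^ p) := by
        exact lintegral_lintegral_swap hm.aemeasurable
    _ = ∫⁻ x, ENNReal.ofReal (Bt β (p + 1)) * ENNReal.ofReal (V x ^ (p + β)) := by
        refine lintegral_congr fun x => ?_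
        exact BE_pos hβ hp (h0 x)
    _ = ENNReal.ofReal (Bt β (p + 1)) * Iq (p + β) V := by
        unfold Iq
        rw [lintegral_const_mul' _ _ ENNReal.ofReal_ne_top]

private theorem AL_meas {d : ℕ} {β p : ℝ} {V : Sp d → ℝ} (hV : Measurable V) :
    Measurable (fun τ : ℝ => ENNReal.ofReal (τ ^ (β - 1)) * Iq p (fun x => max (V x - τ) 0)) := by
  have hm : Measurable (fun z : ℝ × Sp d => ENNReal.ofReal (max (V z.2 - z.1) 0 ^ p)) := by
    fun_prop
  have h1 : Measurable (fun τ : ℝ => Iq p (fun x => max (V x - τ) 0)) := by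
    unfold Iq
    exact hm.lintegral_prod_right'
  have h2 : Measurable (fun τ : ℝ => ENNReal.ofReal (τ ^ (β - 1))) := by fun_prop
  exact h2.mul h1

private theorem AL_const (d : ℕ) {γ γ0 : ℝ} (hγ : 0 < γ) (h : γ < γ0) :
    γ0 / (γ * Bt (γ0 - γ) γ) * Bt (γ0 - γ) (γ + d / 2 + 1) = cal d γ γ0 := by
  have hd : (0 : ℝ) ≤ (d : ℝ) / 2 := by positivity
  have hγ0 : 0 < γ0 := hγ.trans h
  have g1 := (Real.Gamma_pos_of_pos (sub_pos.2 h)).ne'
  have g2 := (Real.Gamma_pos_of_pos hγ).ne'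
  have g3 := (Real.Gamma_pos_of_pos hγ0).ne'
  have g4 : Real.Gamma (γ0 + d / 2 + 1) ≠ 0 := (Real.Gamma_pos_of_pos (by linarith)).ne'
  have e1 : γ0 - γ + γ = γ0 := by ring
  have e2 : γ0 - γ + (γ + d / 2 + 1) = γ0 + d / 2 + 1 := by ring
  unfold cal Bt
  rw [e1, e2, Real.Gamma_add_one hγ0.ne', Real.Gamma_add_one hγ.ne']
  field_simp

theorem aizenman_lieb {d : ℕ} {A : Sp d → Sp d} {γ γ0 : ℝ} (hγ : 0 < γ) (h : γ < γ0)
    (hp : 1 ≤ γ + d / 2) {K : ℝ≥0∞} (H : Holds γ A K) :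
    Holds γ0 A (ENNReal.ofReal (cal d γ γ0) * K) := by
  intro V hV h0 hI
  have hβ : 0 < γ0 - γ := sub_pos.2 h
  have hγ0 : 0 < γ0 := hγ.trans h
  have hp0 : 0 < γ + (d : ℝ) / 2 := by linarith
  have hloc : LocallyIntegrable V := iq_loc hV h0 (by linarith) hI
  have hB1 := Bt_pos hβ hγ
  have hB2 : 0 < Bt (γ0 - γ) (γ + d / 2 + 1) := Bt_pos hβ (by linarith)
  -- the inequality for fixed `τ`
  have step : ∀ τ ∈ Ioi (0 : ℝ), ENNReal.ofReal γ * (ENNReal.ofReal (τ ^ (γ0 - γ - 1)) *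
      ∫⁻ s in Ioi (0 : ℝ), ENNReal.ofReal (s ^ (γ - 1)) * lv A V (s + τ)) ≤
      K * (ENNReal.ofReal (τ ^ (γ0 - γ - 1)) * Iq (γ + d / 2) (fun x => max (V x - τ) 0)) := by
    intro τ hτ
    have hτ' : 0 < τ := hτ
    have hfin : Iq (γ + d / 2) (fun x => max (V x - τ) 0) ≠ ⊤ := by
      refine ne_top_of_le_ne_top ?_ (iq_max hV h0 hp0 (q := γ0 + d / 2) (by linarith) hτ')
      exact ENNReal.mul_ne_top ENNReal.ofReal_ne_top hI
    have h1 := H (fun x => max (V x - τ) 0) (by fun_prop) (fun x => le_max_right _ _) hfin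
    have h2 := (AL_left (A := A) hγ hloc hτ').trans h1
    calc ENNReal.ofReal γ * (ENNReal.ofReal (τ ^ (γ0 - γ - 1)) *
          ∫⁻ s in Ioi (0 : ℝ), ENNReal.ofReal (s ^ (γ - 1)) * lv A V (s + τ))
        = ENNReal.ofReal (τ ^ (γ0 - γ - 1)) * (ENNReal.ofReal γ *
          ∫⁻ s in Ioi (0 : ℝ), ENNReal.ofReal (s ^ (γ - 1)) * lv A V (s + τ)) := by ring
      _ ≤ ENNReal.ofReal (τ ^ (γ0 - γ - 1)) *
          (K * Iq (γ + d / 2) (fun x => max (V x - τ) 0)) := by gcongr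
      _ = _ := by ring
  have hint := setLIntegral_mono' (μ := volume) measurableSet_Ioi step
  rw [lintegral_const_mul' _ _ ENNReal.ofReal_ne_top, lintegral_const_mul K (AL_meas hV),
    AL_right hβ hp0 hV h0, BE_tonelli hβ hγ (lv A V) (measurable_lv A V)] at hint
  have e1 : γ0 - γ + γ - 1 = γ0 - 1 := by ring
  have e2 : γ + (d : ℝ) / 2 + (γ0 - γ) = γ0 + d / 2 := by ring
  rw [e1, e2] at hint
  have e3 : riesz γ0 A V = ENNReal.ofReal γ0 *
      ∫⁻ E in Ioi (0 : ℝ), ENNReal.ofReal (E ^ (γ0 - 1)) * lv A V E := by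
    rw [riesz_eq, ← lintegral_const_mul' _ _ ENNReal.ofReal_ne_top]
    refine lintegral_congr fun s => ?_
    rw [ENNReal.ofReal_mul hγ0.le, mul_assoc]
  rw [e3]
  set I := ∫⁻ E in Ioi (0 : ℝ), ENNReal.ofReal (E ^ (γ0 - 1)) * lv A V E with hIdef
  have hc : 0 < γ * Bt (γ0 - γ) γ := mul_pos hγ hB1
  have e4 : ENNReal.ofReal γ0 = ENNReal.ofReal (γ0 / (γ * Bt (γ0 - γ) γ)) *
      (ENNReal.ofReal γ * ENNReal.ofReal (Bt (γ0 - γ) γ)) := by
    rw [← ENNReal.ofReal_mul hγ.le, ← ENNReal.ofReal_mul (by positivity)]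
    congr 1
    field_simp
  have e5 : ENNReal.ofReal (cal d γ γ0) = ENNReal.ofReal (γ0 / (γ * Bt (γ0 - γ) γ)) *
      ENNReal.ofReal (Bt (γ0 - γ) (γ + d / 2 + 1)) := by
    rw [← ENNReal.ofReal_mul (by positivity), AL_const d hγ h]
  calc ENNReal.ofReal γ0 * I = ENNReal.ofReal (γ0 / (γ * Bt (γ0 - γ) γ)) *
        (ENNReal.ofReal γ * (ENNReal.ofReal (Bt (γ0 - γ) γ) * I)) := by
        rw [e4]
        ring
    _ ≤ ENNReal.ofReal (γ0 / (γ * Bt (γ0 - γ) γ)) *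
        (K * (ENNReal.ofReal (Bt (γ0 - γ) (γ + d / 2 + 1)) * Iq (γ0 + d / 2) V)) := by gcongr
    _ = ENNReal.ofReal (cal d γ γ0) * K * Iq (γ0 + d / 2) V := by
        rw [e5]
        ring

theorem cal_pos (d : ℕ) {γ γ0 : ℝ} (h : 0 < γ) (h0 : 0 < γ0) : 0 < cal d γ γ0 := by
  have hd : (0 : ℝ) ≤ (d : ℝ) / 2 := by positivity
  unfold cal
  exact div_pos (mul_pos (Real.Gamma_pos_of_pos (by linarith)) (Real.Gamma_pos_of_pos (by linarith)))
    (mul_pos (Real.Gamma_pos_of_pos (by linarith)) (Real.Gamma_pos_of_pos (by linarith)))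

private theorem AL_cont {s : ℝ} (hs : 0 < s) : ContinuousAt Real.Gamma s :=
  (Real.differentiableAt_Gamma fun m h => by
    have : (0 : ℝ) ≤ (m : ℝ) := m.cast_nonneg
    linarith).continuousAt

private theorem AL_one (d : ℕ) {γ : ℝ} (h : 0 < γ) : cal d γ γ = 1 := by
  have hd : (0 : ℝ) ≤ (d : ℝ) / 2 := by positivity
  unfold cal
  exact div_self (mul_pos (Real.Gamma_pos_of_pos (by linarith))
    (Real.Gamma_pos_of_pos (by linarith))).ne'

theorem cal_tendsto_right (d : ℕ) {γ : ℝ} (h : 0 < γ) :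
    Tendsto (fun γ0 => cal d γ γ0) (𝓝 γ) (𝓝 1) := by
  have hd : (0 : ℝ) ≤ (d : ℝ) / 2 := by positivity
  have h1 : ContinuousAt (fun x : ℝ => Real.Gamma (x + 1)) γ :=
    ContinuousAt.comp (g := Real.Gamma) (AL_cont (by linarith)) (by fun_prop)
  have h2 : ContinuousAt (fun x : ℝ => Real.Gamma (x + d / 2 + 1)) γ :=
    ContinuousAt.comp (g := Real.Gamma) (AL_cont (by linarith)) (by fun_prop)
  have h3 : ContinuousAt (fun γ0 => cal d γ γ0) γ := by
    unfold cal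
    exact (h1.mul continuousAt_const).div (continuousAt_const.mul h2)
      (mul_pos (Real.Gamma_pos_of_pos (by linarith)) (Real.Gamma_pos_of_pos (by linarith))).ne'
  have h4 := h3.tendsto
  rwa [AL_one d h] at h4

theorem cal_tendsto_left (d : ℕ) {γ : ℝ} (h : 0 < γ) :
    Tendsto (fun γ' => cal d γ' γ) (𝓝 γ) (𝓝 1) := by
  have hd : (0 : ℝ) ≤ (d : ℝ) / 2 := by positivity
  have h1 : ContinuousAt (fun x : ℝ => Real.Gamma (x + 1)) γ :=
    ContinuousAt.comp (g := Real.Gamma) (AL_cont (by linarith)) (by fun_prop)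
  have h2 : ContinuousAt (fun x : ℝ => Real.Gamma (x + d / 2 + 1)) γ :=
    ContinuousAt.comp (g := Real.Gamma) (AL_cont (by linarith)) (by fun_prop)
  have h3 : ContinuousAt (fun γ' => cal d γ' γ) γ := by
    unfold cal
    exact (continuousAt_const.mul h2).div (h1.mul continuousAt_const)
      (mul_pos (Real.Gamma_pos_of_pos (by linarith)) (Real.Gamma_pos_of_pos (by linarith))).ne'
  have h4 := h3.tendsto
  rwa [AL_one d h] at h4

end Pool.Agent.H87.LTI
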