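import Mathlib

/-!
ROW BE (90 lines).  Beta integrals over `ℝ≥0∞`.
`BE_beta`: from `Complex.Gamma_mul_Gamma_eq_betaIntegral` / `Complex.betaIntegral_scaled` (Mathlib/Analysis/SpecialFunctions/Gamma/Beta.lean) or `ProbabilityTheory.beta` (Mathlib/Probability/Distributions/Beta.lean, which has the real
version `beta_eq_...`): `∫_0^a t^(β-1) (a-t)^(γ-1) dt = a^(β+γ-1) Γ(β)Γ(γ)/Γ(β+γ)`; positive integrand, `ofReal_integral_eq_lintegral_ofReal`.
`BE_tonelli`: swap (`lintegral_lintegral_swap` after the substitution `E = s + τ`: `∫_{s>0} s^(γ-1) N(s+τ) ds = ∫_{E>τ} (E-τ)^(γ-1) N(E) dE`, `lintegral_add_right_eq_self`/`MeasurePreserving`):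
`∫_{τ>0} τ^(β-1) ∫_{E>τ} (E-τ)^(γ-1) N(E) dE dτ = ∫_{E>0} N(E) ∫_{0<τ<E} τ^(β-1) (E-τ)^(γ-1) dτ dE = B ∫_{E>0} E^(β+γ-1) N(E) dE`.
`BE_pos`: `∫_{τ>0} τ^(β-1) max(U-τ)0^p dτ = ∫_{0<τ<U} τ^(β-1) (U-τ)^p dτ` (`p > 0`, so `0^p = 0`), `BE_beta` with `γ = p+1`; for `U = 0` both sides are `0`.
-/

open MeasureTheory Set Filter Topology
open scoped ENNReal NNReal

noncomputable section

namespace Pool.Agent.H87.LTI

/-- Beta function -/
def Bt (β γ : ℝ) : ℝ := Real.Gamma β * Real.Gamma γ / Real.Gamma (β + γ)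

theorem Bt_pos {β γ : ℝ} (hβ : 0 < β) (hγ : 0 < γ) : 0 < Bt β γ :=
  ProbabilityTheory.beta_pos hβ hγ

private theorem BE_unit {β γ : ℝ} (hβ : 0 < β) (hγ : 0 < γ) :
    ∫⁻ x in Ioo (0 : ℝ) 1, ENNReal.ofReal (x ^ (β - 1) * (1 - x) ^ (γ - 1)) =
      ENNReal.ofReal (Bt β γ) := by
  have hB := Bt_pos hβ hγ
  have h1 := ProbabilityTheory.lintegral_betaPDF_eq_one hβ hγ
  rw [ProbabilityTheory.lintegral_betaPDF] at h1
  have h2 : ∀ x ∈ Ioo (0 : ℝ) 1,
      ENNReal.ofReal (1 / ProbabilityTheory.beta β γ * x ^ (β - 1) * (1 - x) ^ (γ - 1)) =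
        ENNReal.ofReal (1 / Bt β γ) * ENNReal.ofReal (x ^ (β - 1) * (1 - x) ^ (γ - 1)) := by
    intro x _
    rw [← ENNReal.ofReal_mul (by positivity), mul_assoc]
    rfl
  rw [setLIntegral_congr_fun measurableSet_Ioo h2, lintegral_const_mul _ (by fun_prop)] at h1
  have h3 : ENNReal.ofReal (Bt β γ) * ENNReal.ofReal (1 / Bt β γ) = 1 := by
    rw [← ENNReal.ofReal_mul hB.le, mul_one_div_cancel hB.ne', ENNReal.ofReal_one]
  calc _ = ENNReal.ofReal (Bt β γ) * (ENNReal.ofReal (1 / Bt β γ) *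
        ∫⁻ x in Ioo (0 : ℝ) 1, ENNReal.ofReal (x ^ (β - 1) * (1 - x) ^ (γ - 1))) := by
        rw [← mul_assoc, h3, one_mul]
    _ = _ := by rw [h1, mul_one]

theorem BE_beta {β γ a : ℝ} (hβ : 0 < β) (hγ : 0 < γ) (ha : 0 < a) :
    ∫⁻ t in Ioo 0 a, ENNReal.ofReal (t ^ (β - 1) * (a - t) ^ (γ - 1)) =
      ENNReal.ofReal (Bt β γ * a ^ (β + γ - 1)) := by
  have hB := Bt_pos hβ hγ
  have himg : (fun x : ℝ => a * x) '' Ioo (0 : ℝ) 1 = Ioo 0 a := by
    ext t
    constructor
    · rintro ⟨x, ⟨h0, h1⟩, rfl⟩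
      exact ⟨mul_pos ha h0, by nlinarith⟩
    · rintro ⟨h0, h1⟩
      refine ⟨t / a, ⟨div_pos h0 ha, (div_lt_one ha).2 h1⟩, ?_⟩
      field_simp
  rw [← himg, lintegral_image_eq_lintegral_abs_deriv_mul measurableSet_Ioo
    (f' := fun _ => a) (fun x _ => by
      simpa using ((hasDerivAt_id x).const_mul a).hasDerivWithinAt)
    (fun x _ y _ hxy => mul_left_cancel₀ ha.ne' hxy)]
  have h2 : ∀ x ∈ Ioo (0 : ℝ) 1,
      ENNReal.ofReal |a| * ENNReal.ofReal ((a * x) ^ (β - 1) * (a - a * x) ^ (γ - 1)) =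
        ENNReal.ofReal (a ^ (β + γ - 1)) *
          ENNReal.ofReal (x ^ (β - 1) * (1 - x) ^ (γ - 1)) := by
    intro x hx
    rw [abs_of_pos ha, ← ENNReal.ofReal_mul ha.le, ← ENNReal.ofReal_mul (by positivity)]
    congr 1
    have e1 : a - a * x = a * (1 - x) := by ring
    have e2 : (0 : ℝ) ≤ 1 - x := by linarith [hx.2]
    rw [e1, Real.mul_rpow ha.le hx.1.le, Real.mul_rpow ha.le e2]
    have e3 : a ^ (β + γ - 1) = a * a ^ (β - 1) * a ^ (γ - 1) := by
      have : β + γ - 1 = 1 + (β - 1) + (γ - 1) := by ring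
      rw [this, Real.rpow_add ha, Real.rpow_add ha, Real.rpow_one]
    rw [e3]
    ring
  rw [setLIntegral_congr_fun measurableSet_Ioo h2, lintegral_const_mul _ (by fun_prop),
    BE_unit hβ hγ, ← ENNReal.ofReal_mul (by positivity), mul_comm]

theorem BE_tonelli {β γ : ℝ} (hβ : 0 < β) (hγ : 0 < γ) (N : ℝ → ℝ≥0∞) (hN : Measurable N) :
    ∫⁻ τ in Ioi (0 : ℝ), ENNReal.ofReal (τ ^ (β - 1)) *
        ∫⁻ s in Ioi (0 : ℝ), ENNReal.ofReal (s ^ (γ - 1)) * N (s + τ) =
      ENNReal.ofReal (Bt β γ) * ∫⁻ E in Ioi (0 : ℝ), ENNReal.ofReal (E ^ (β + γ - 1)) * N E := by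
  have hB := Bt_pos hβ hγ
  have hm1 : Measurable (fun τ : ℝ => ENNReal.ofReal (τ ^ (β - 1))) := by fun_prop
  have hm2 : Measurable (fun τ : ℝ => ENNReal.ofReal (τ ^ (γ - 1))) := by fun_prop
  set F : ℝ → ℝ≥0∞ := (Ioi (0 : ℝ)).indicator (fun τ => ENNReal.ofReal (τ ^ (β - 1))) with hF
  set G : ℝ → ℝ≥0∞ := (Ioi (0 : ℝ)).indicator (fun τ => ENNReal.ofReal (τ ^ (γ - 1))) with hG
  have hFm : Measurable F := hm1.indicator measurableSet_Ioi
  have hGm : Measurable G := hm2.indicator measurableSet_Ioi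
  have hin : ∀ τ : ℝ, ∫⁻ s in Ioi (0 : ℝ), ENNReal.ofReal (s ^ (γ - 1)) * N (s + τ) =
      ∫⁻ E, G (E - τ) * N E := by
    intro τ
    rw [← lintegral_indicator measurableSet_Ioi,
      ← lintegral_sub_right_eq_self
        (fun s => (Ioi (0 : ℝ)).indicator (fun s => ENNReal.ofReal (s ^ (γ - 1)) * N (s + τ)) s) τ]
    refine lintegral_congr fun E => ?_
    by_cases hE : 0 < E - τ
    · simp only [hG, indicator, mem_Ioi, hE, if_true, sub_add_cancel]
    · simp only [hG, indicator, mem_Ioi, hE, if_false, zero_mul]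
  calc ∫⁻ τ in Ioi (0 : ℝ), ENNReal.ofReal (τ ^ (β - 1)) *
        ∫⁻ s in Ioi (0 : ℝ), ENNReal.ofReal (s ^ (γ - 1)) * N (s + τ)
      = ∫⁻ τ, ∫⁻ E, F τ * (G (E - τ) * N E) := by
        rw [← lintegral_indicator measurableSet_Ioi]
        refine lintegral_congr fun τ => ?_
        rw [lintegral_const_mul _ (by fun_prop)]
        by_cases hτ : 0 < τ
        · simp only [hF, indicator, mem_Ioi, hτ, if_true]
          rw [hin τ]
        · simp only [hF, indicator, mem_Ioi, hτ, if_false, zero_mul]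
    _ = ∫⁻ E, ∫⁻ τ, F τ * (G (E - τ) * N E) := by
        rw [lintegral_lintegral_swap]
        refine Measurable.aemeasurable ?_
        exact (hFm.comp measurable_fst).mul
          ((hGm.comp (measurable_snd.sub measurable_fst)).mul (hN.comp measurable_snd))
    _ = ∫⁻ E in Ioi (0 : ℝ), ENNReal.ofReal (Bt β γ) *
          (ENNReal.ofReal (E ^ (β + γ - 1)) * N E) := by
        rw [← lintegral_indicator measurableSet_Ioi]
        refine lintegral_congr fun E => ?_
        by_cases hE : 0 < E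
        · simp only [indicator, mem_Ioi, hE, if_true]
          rw [← mul_assoc, ← ENNReal.ofReal_mul hB.le, ← BE_beta hβ hγ hE,
            ← lintegral_mul_const _ (by fun_prop), ← lintegral_indicator measurableSet_Ioo]
          refine lintegral_congr fun τ => ?_
          by_cases h1 : 0 < τ
          · by_cases h2 : τ < E
            · have h3 : 0 < E - τ := sub_pos.2 h2
              simp only [hF, hG, indicator, mem_Ioi, mem_Ioo, h1, h2, h3, if_true, and_self]
              rw [← mul_assoc, ← ENNReal.ofReal_mul (by positivity)]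
            · have h3 : ¬ (0 < E - τ) := fun h => h2 (sub_pos.1 h)
              simp only [hG, indicator, mem_Ioi, mem_Ioo, h2, h3, if_false, and_false, zero_mul,
                mul_zero]
          · simp only [hF, indicator, mem_Ioi, mem_Ioo, h1, if_false, false_and, zero_mul]
        · simp only [indicator, mem_Ioi, hE, if_false]
          rw [lintegral_eq_zero_iff (by fun_prop)]
          refine Eventually.of_forall fun τ => ?_
          by_cases h1 : 0 < τ
          · have h3 : ¬ (0 < E - τ) := by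
              intro h; apply hE; linarith
            simp only [hG, indicator, mem_Ioi, h3, if_false, zero_mul, mul_zero, Pi.zero_apply]
          · simp only [hF, indicator, mem_Ioi, h1, if_false, zero_mul, Pi.zero_apply]
    _ = _ := by
        rw [lintegral_const_mul]
        exact (by fun_prop : Measurable (fun E : ℝ => ENNReal.ofReal (E ^ (β + γ - 1)) * N E))

theorem BE_pos {β p U : ℝ} (hβ : 0 < β) (hp : 0 < p) (hU : 0 ≤ U) :
    ∫⁻ τ in Ioi (0 : ℝ), ENNReal.ofReal (τ ^ (β - 1)) * ENNReal.ofReal (max (U - τ) 0 ^ p) =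
      ENNReal.ofReal (Bt β (p + 1)) * ENNReal.ofReal (U ^ (p + β)) := by
  have hp1 : 0 < p + 1 := by linarith
  have hB := Bt_pos hβ hp1
  rcases hU.eq_or_lt with hU0 | hU0
  · subst hU0
    rw [Real.zero_rpow (by linarith), ENNReal.ofReal_zero, mul_zero,
      setLIntegral_congr_fun (g := fun _ => 0) measurableSet_Ioi, lintegral_zero]
    intro τ hτ
    have h1 : max (0 - τ) 0 = 0 := max_eq_right (by linarith [mem_Ioi.1 hτ])
    simp only [h1, Real.zero_rpow hp.ne', ENNReal.ofReal_zero, mul_zero]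
  · have h := BE_beta hβ hp1 hU0
    have e1 : β + (p + 1) - 1 = p + β := by ring
    have e2 : p + 1 - 1 = p := by ring
    rw [e1, e2] at h
    rw [← ENNReal.ofReal_mul hB.le, ← h, ← lintegral_indicator measurableSet_Ioi,
      ← lintegral_indicator measurableSet_Ioo]
    refine lintegral_congr fun τ => ?_
    by_cases h1 : 0 < τ
    · by_cases h2 : τ < U
      · have h3 : max (U - τ) 0 = U - τ := max_eq_left (by linarith)
        simp only [indicator, mem_Ioi, mem_Ioo, h1, h2, if_true, and_self, h3]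
        rw [← ENNReal.ofReal_mul (by positivity)]
      · have h3 : max (U - τ) 0 = 0 := max_eq_right (by linarith)
        simp only [indicator, mem_Ioi, mem_Ioo, h1, h2, if_true, if_false, and_false, h3,
          Real.zero_rpow hp.ne', ENNReal.ofReal_zero, mul_zero]
    · simp only [indicator, mem_Ioi, mem_Ioo, h1, if_false, false_and]

end Pool.Agent.H87.LTI
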