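import Pool.Agent.H87.LTI.Defs

/-!
ROW CA (80 lines).  Subadditivity of the counting function: `cnt (Q1 + Q2) ≤ cnt Q1 + cnt Q2` for Hermitian forms.
`CA_card`: for a family `u : ι → W` and a finite set `S` of indices, if `Q (∑ C i • u i) < 0` for all `C ≠ 0` which vanish off `S`, then `card S ≤ cnt Q`: use `le_cnt_iff` (H2/LTM/CNT.lean) with the family
`fun i : Fin S.card => u (S.equivFin.symm i)`; the combination with coefficients `c` is the one with `C j = if h : j ∈ S then c (S.equivFin ⟨j, h⟩) else 0` (`Finset.sum_coe_sort`, `Equiv.sum_comp`).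
`cnt_add`: by `ENat.forall_natCast_le_iff_le` let `n ≤ cnt (Q1 + Q2)`; `CNT_fwd` gives `u : Fin n → W` with `(Q1 + Q2) (∑ c i • u i) < 0` for `c ≠ 0`.  Let `L : (Fin n → ℂ) →ₗ[ℂ] W`, `c ↦ ∑ c i • u i`
(`Fintype.linearCombination ℂ u`), `q1 = Q1 ∘ L`, `q2 = Q2 ∘ L` (`IsHF.comp`); `-(q1 + q2)` is Hermitian (`IsHF.sub`, `IsHF.const_mul`) and positive off `0`.  `exists_diag` (H2/LTM/DIA.lean) with `q = q1` and the positive form
`-(q1 + q2)` gives a family `v` of `n = finrank` vectors and reals `e` with `-(q1 + q2)(∑ c i • v i) = ∑ ‖c i‖^2`, `q1 (∑ c i • v i) = ∑ e i ‖c i‖^2`.  Let `S = {i | e i < 0}`.  For `C ≠ 0` supported in `S`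
`q1 < 0`; for `C ≠ 0` supported in the complement `q2 = -∑ ‖C i‖^2 - ∑ e i ‖C i‖^2 < 0`.  So `card S ≤ cnt q1 ≤ cnt Q1` and `n - card S ≤ cnt q2 ≤ cnt Q2` (`cnt_le_cnt` with `L`), and the cardinalities add up to `n`.
-/

open MeasureTheory Complex Set Filter Topology
open scoped ENNReal NNReal ContDiff ComplexConjugate

noncomputable section

namespace Pool.Agent.H87.LTI

open Pool.Agent.H2.LTM

variable {W : Type*} [AddCommGroup W] [Module ℂ W]

theorem CA_card {ι : Type*} [Fintype ι] (Q : W → ℝ) (h0 : 0 ≤ Q 0) (u : ι → W) (S : Finset ι)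
    (h : ∀ C : ι → ℂ, C ≠ 0 → (∀ i, i ∉ S → C i = 0) → Q (∑ i, C i • u i) < 0) :
    (S.card : ℕ∞) ≤ cnt Q := by
  classical
  refine (le_cnt_iff Q h0 S.card).2 ⟨fun i => u (S.equivFin.symm i), fun c hc => ?_⟩
  have h1 := h (fun j => if hj : j ∈ S then c (S.equivFin ⟨j, hj⟩) else 0) ?_ ?_
  · have h2 : (∑ i, (if hj : i ∈ S then c (S.equivFin ⟨i, hj⟩) else 0) • u i)
        = ∑ i, c i • u (S.equivFin.symm i) := by
      rw [← Finset.sum_subset (Finset.subset_univ S)
        (fun x _ hx => by rw [dif_neg hx, zero_smul])]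
      rw [← Finset.sum_coe_sort S]
      rw [← Equiv.sum_comp S.equivFin (fun i => c i • u (S.equivFin.symm i))]
      refine Finset.sum_congr rfl fun x _ => ?_
      rw [dif_pos x.2, Equiv.symm_apply_apply]
    rw [h2] at h1
    exact h1
  · intro h3
    apply hc
    funext k
    have h4 := congrFun h3 (S.equivFin.symm k)
    simp only [Pi.zero_apply] at h4
    rw [dif_pos (S.equivFin.symm k).2] at h4
    simpa using h4
  · intro i hi
    rw [dif_neg hi]

theorem cnt_add (Q1 Q2 : W → ℝ) (h1 : IsHF Q1) (h2 : IsHF Q2) :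
    cnt (fun u => Q1 u + Q2 u) ≤ cnt Q1 + cnt Q2 := by
  classical
  rw [← ENat.forall_natCast_le_iff_le]
  intro n hn
  obtain ⟨u, hu⟩ := CNT_fwd _ n hn
  let L : (Fin n → ℂ) →ₗ[ℂ] W := Fintype.linearCombination ℂ u
  have hL : ∀ c, L c = ∑ i, c i • u i := fun c => Fintype.linearCombination_apply ℂ u c
  have hz1 : Q1 0 = 0 := h1.map_zero
  have hz2 : Q2 0 = 0 := h2.map_zero
  obtain ⟨v, e, -, hv⟩ := exists_diag (fun c : Fin n → ℂ => Q1 (L c))
    (fun c : Fin n → ℂ => (-1) * (Q1 (L c) + Q2 (L c))) (h1.comp L)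
    (((h1.comp L).add (h2.comp L)).const_mul (-1)) (by
      intro c hc
      have h3 := hu c hc
      rw [hL]
      linarith)
  set S : Finset (Fin (Module.finrank ℂ (Fin n → ℂ))) := Finset.univ.filter (fun i => e i < 0)
    with hS
  have hA : (S.card : ℕ∞) ≤ cnt Q1 := by
    have h3 : (S.card : ℕ∞) ≤ cnt (fun c : Fin n → ℂ => Q1 (L c)) := by
      refine CA_card _ (by simp [hz1]) v S ?_
      intro C hC hCS
      rw [(hv C).2]
      obtain ⟨i, hi⟩ := Function.ne_iff.1 hC
      have hiS : i ∈ S := by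
        by_contra hcon
        exact hi (hCS i hcon)
      refine Finset.sum_neg' (fun j _ => ?_) ⟨i, Finset.mem_univ _, ?_⟩
      · by_cases hj : j ∈ S
        · have : e j < 0 := (Finset.mem_filter.1 hj).2
          exact mul_nonpos_of_nonpos_of_nonneg this.le (by positivity)
        · rw [hCS j hj]
          simp
      · have h4 : e i < 0 := (Finset.mem_filter.1 hiS).2
        have h5 : 0 < ‖C i‖ ^ 2 := by
          have : 0 < ‖C i‖ := norm_pos_iff.2 hi
          positivity
        exact mul_neg_of_neg_of_pos h4 h5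
    refine h3.trans (cnt_le_cnt _ _ (by simp [hz1]) hz1.ge L (fun c hc => hc))
  have hB : (Sᶜ.card : ℕ∞) ≤ cnt Q2 := by
    have h3 : (Sᶜ.card : ℕ∞) ≤ cnt (fun c : Fin n → ℂ => Q2 (L c)) := by
      refine CA_card _ (by simp [hz2]) v Sᶜ ?_
      intro C hC hCS
      obtain ⟨h6, h7⟩ := hv C
      obtain ⟨i, hi⟩ := Function.ne_iff.1 hC
      have h8 : 0 < ∑ i, ‖C i‖ ^ 2 := by
        refine Finset.sum_pos' (fun j _ => by positivity) ⟨i, Finset.mem_univ _, ?_⟩
        have : 0 < ‖C i‖ := norm_pos_iff.2 hi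
        positivity
      have h9 : 0 ≤ ∑ i, e i * ‖C i‖ ^ 2 := by
        refine Finset.sum_nonneg fun j _ => ?_
        by_cases hj : j ∈ S
        · rw [hCS j (by simpa using hj)]
          simp
        · have : 0 ≤ e j := by
            by_contra hcon
            exact hj (Finset.mem_filter.2 ⟨Finset.mem_univ _, not_le.1 hcon⟩)
          positivity
      linarith
    refine h3.trans (cnt_le_cnt _ _ (by simp [hz2]) hz2.ge L (fun c hc => hc))
  have hn2 : n = S.card + Sᶜ.card := by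
    rw [Finset.card_add_card_compl, Fintype.card_fin, Module.finrank_fin_fun]
  calc (n : ℕ∞) = (S.card : ℕ∞) + (Sᶜ.card : ℕ∞) := by exact_mod_cast hn2
    _ ≤ cnt Q1 + cnt Q2 := add_le_add hA hB

end Pool.Agent.H87.LTI
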