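import Pool.Agent.H87.LTI.Defs

/-!
ROW CO (150 lines).  Abstract continuity lemma (real analysis, `ℝ≥0∞`).
`U = {γ | 0 < γ ∧ 1 < γ + b}` (an open half line), `L : ℝ → ℝ≥0∞` finite on `U`.
Fix `γ ∈ U`, `γ1 ∈ U` with `γ1 < γ`.
`CO_seq`: put for `ε > 0`: `K(ε) = exp(1/√ε)`, `η(ε) = √ε` (for `ε < 1`).  As `ε → 0+`: `K^ε = exp(√ε) → 1`, `(1-η)^(-q) → 1` for `q` bounded, `K^(-δ) η^(-q) = exp(-δ/√ε) ε^(-q/2) → 0` for `δ ≥ δ0 > 0`, `q` bounded.
(1) right, upper: for `γ' > γ`: `L γ' ≤ ofReal (c γ γ') L γ`, `c γ γ' → 1`.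
(2) right, lower: for `γ' ∈ (γ, γ+1)`: `hI` with `(γ1, γ, γ')`, `ε = γ' - γ`, `K = K(ε)`, `η = η(ε)`: `L γ ≤ A(γ') L γ' + B(γ')` with `A → 1`, `B → 0`.  So `liminf L γ' ≥ L γ`.
(3) left, upper: for `γ' ∈ ((γ+γ1)/2, γ)`: `hI` with `(γ1, γ', γ)`, `ε = γ - γ'`: `L γ' ≤ A(γ') L γ + B(γ')`, `A → 1`, `B → 0` (`γ' - γ1 ≥ (γ-γ1)/2`).
(4) left, lower: `L γ ≤ ofReal (c γ' γ) L γ'`, `c γ' γ → 1`.
Conclude with real-valued squeeze arguments (`L` finite on `U`: work with `(L γ).toReal`, or with `tendsto_of_le_liminf_of_limsup_le` in `ℝ≥0∞`).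
-/

open Set Filter Topology
open scoped ENNReal NNReal

noncomputable section

namespace Pool.Agent.H87.LTI

/-- first constant of the interpolation inequality -/
def cA (b γ γ0 K η : ℝ) : ℝ := γ / γ0 * K ^ (γ0 - γ) * (1 - η) ^ (-(γ0 + b))

/-- second constant of the interpolation inequality -/
def cB (b γ1 γ K η : ℝ) : ℝ := γ / (γ - γ1) * K ^ (-(γ - γ1)) * η ^ (-(γ1 + b))

/-- the open range of `γ` -/
def rg (b : ℝ) : Set ℝ := {γ | 0 < γ ∧ 1 < γ + b}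

theorem CO_r0 (γ : ℝ) : Tendsto (fun x : ℝ => √|x - γ|) (𝓝 γ) (𝓝 0) := by
  have h : Continuous (fun x : ℝ => √|x - γ|) := by fun_prop
  have h2 := h.tendsto γ
  simpa using h2

theorem CO_rp {γ x : ℝ} (h : x ≠ γ) : 0 < √|x - γ| :=
  Real.sqrt_pos.2 (abs_pos.2 (sub_ne_zero.2 h))

theorem CO_T (γ : ℝ) : Tendsto (fun x : ℝ => (√|x - γ|)⁻¹) (𝓝[≠] γ) atTop := by
  refine tendsto_inv_nhdsGT_zero.comp ?_
  rw [tendsto_nhdsWithin_iff]
  refine ⟨(CO_r0 γ).mono_left nhdsWithin_le_nhds, ?_⟩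
  filter_upwards [self_mem_nhdsWithin] with x hx
  exact CO_rp hx

theorem CO_B (γ q : ℝ) {δ : ℝ} (hδ : 0 < δ) :
    Tendsto (fun x : ℝ => ((√|x - γ|)⁻¹) ^ q * Real.exp (-δ * (√|x - γ|)⁻¹)) (𝓝[≠] γ) (𝓝 0) :=
  (tendsto_rpow_mul_exp_neg_mul_atTop_nhds_zero q δ hδ).comp (CO_T γ)

theorem CO_sq (γ x : ℝ) : √|x - γ| * √|x - γ| = |x - γ| := Real.mul_self_sqrt (abs_nonneg _)

/-- value of the first constant, right side -/
theorem CO_Aval {b γ γ0 r : ℝ} (hr : 0 < r) (h : γ0 - γ = r * r) :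
    cA b γ γ0 (Real.exp r⁻¹) r = γ / γ0 * Real.exp r * (1 - r) ^ (-(γ0 + b)) := by
  unfold cA
  rw [h, ← Real.exp_mul]
  have e : r⁻¹ * (r * r) = r := by field_simp
  rw [e]

theorem CO_Bval {b γ1 γ r : ℝ} (hr : 0 < r) :
    cB b γ1 γ (Real.exp r⁻¹) r =
      γ / (γ - γ1) * ((r⁻¹) ^ (γ1 + b) * Real.exp (-(γ - γ1) * r⁻¹)) := by
  unfold cB
  rw [← Real.exp_mul, Real.rpow_neg hr.le, Real.inv_rpow hr.le]
  have e : r⁻¹ * -(γ - γ1) = -(γ - γ1) * r⁻¹ := by ring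
  rw [e]
  ring

theorem CO_Apos {b γ γ0 K η : ℝ} (hγ : 0 < γ) (hγ0 : 0 < γ0) (hK : 0 < K) (hη : η < 1) :
    0 < cA b γ γ0 K η := by
  unfold cA
  have h1 := Real.rpow_pos_of_pos hK (γ0 - γ)
  have h2 := Real.rpow_pos_of_pos (by linarith : 0 < 1 - η) (-(γ0 + b))
  positivity

theorem CO_Bnn {b γ1 γ K η : ℝ} (hγ : 0 < γ) (h1 : γ1 < γ) (hK : 0 < K) (hη : 0 < η) :
    0 ≤ cB b γ1 γ K η := by
  unfold cB
  have h2 := Real.rpow_pos_of_pos hK (-(γ - γ1))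
  have h3 := Real.rpow_pos_of_pos hη (-(γ1 + b))
  have h4 : 0 < γ - γ1 := by linarith
  positivity

theorem CO_up {b γ γ' : ℝ} (h : γ ∈ rg b) (h' : γ < γ') : γ' ∈ rg b :=
  ⟨lt_trans h.1 h', by have := h.2; linarith⟩

theorem CO_lo {b γ : ℝ} (h : γ ∈ rg b) : ∃ γ1 ∈ rg b, γ1 < γ := by
  obtain ⟨h1, h2⟩ := h
  refine ⟨(γ + max 0 (1 - b)) / 2, ⟨?_, ?_⟩, ?_⟩
  · have := le_max_left 0 (1 - b)
    linarith
  · have := le_max_right 0 (1 - b)
    linarith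
  · have : max 0 (1 - b) < γ := max_lt h1 (by linarith)
    linarith

/-- real form of the two inequalities -/
theorem CO_R2 {A B : ℝ} {x y z : ℝ≥0∞} (hA : 0 ≤ A) (hB : 0 ≤ B) (hy : y < ⊤) (hz : z < ⊤)
    (h : x ≤ ENNReal.ofReal A * y + ENNReal.ofReal B * z) :
    x.toReal ≤ A * y.toReal + B * z.toReal := by
  have h1 : ENNReal.ofReal A * y ≠ ⊤ := ENNReal.mul_ne_top ENNReal.ofReal_ne_top hy.ne
  have h2 : ENNReal.ofReal B * z ≠ ⊤ := ENNReal.mul_ne_top ENNReal.ofReal_ne_top hz.ne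
  have h3 := ENNReal.toReal_mono (ENNReal.add_ne_top.2 ⟨h1, h2⟩) h
  rw [ENNReal.toReal_add h1 h2, ENNReal.toReal_mul, ENNReal.toReal_mul,
    ENNReal.toReal_ofReal hA, ENNReal.toReal_ofReal hB] at h3
  exact h3

theorem CO_R1 {A : ℝ} {x y : ℝ≥0∞} (hy : y < ⊤) (h : x ≤ ENNReal.ofReal A * y) :
    x.toReal ≤ max A 0 * y.toReal := by
  have h1 : ENNReal.ofReal A * y ≠ ⊤ := ENNReal.mul_ne_top ENNReal.ofReal_ne_top hy.ne
  have h3 := ENNReal.toReal_mono h1 h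
  rw [ENNReal.toReal_mul, ENNReal.toReal_ofReal'] at h3
  exact h3

theorem CO_Alim (b γ : ℝ) (hγ : 0 < γ) :
    Tendsto (fun x : ℝ => γ / x * Real.exp (√|x - γ|) * (1 - √|x - γ|) ^ (-(x + b)))
      (𝓝 γ) (𝓝 1) := by
  have h0 := CO_r0 γ
  have h1 : Tendsto (fun x : ℝ => γ / x) (𝓝 γ) (𝓝 1) := by
    have h2 : Tendsto (fun x : ℝ => γ / x) (𝓝 γ) (𝓝 (γ / γ)) :=
      tendsto_const_nhds.div tendsto_id hγ.ne'
    rwa [div_self hγ.ne'] at h2
  have h2 : Tendsto (fun x : ℝ => Real.exp (√|x - γ|)) (𝓝 γ) (𝓝 1) := by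
    have := (Real.continuous_exp.tendsto 0).comp h0
    rwa [Real.exp_zero] at this
  have h3 : Tendsto (fun x : ℝ => (1 - √|x - γ|) ^ (-(x + b))) (𝓝 γ) (𝓝 1) := by
    have h4 : Tendsto (fun x : ℝ => 1 - √|x - γ|) (𝓝 γ) (𝓝 (1 - 0)) :=
      tendsto_const_nhds.sub h0
    have h5 : Tendsto (fun x : ℝ => -(x + b)) (𝓝 γ) (𝓝 (-(γ + b))) :=
      (tendsto_id.add tendsto_const_nhds).neg
    have h6 := h4.rpow h5 (Or.inl (by norm_num))
    rw [sub_zero, Real.one_rpow] at h6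
    exact h6
  have h7 := (h1.mul h2).mul h3
  rwa [mul_one, mul_one] at h7

theorem CO_Alim' (b γ : ℝ) (hγ : 0 < γ) :
    Tendsto (fun x : ℝ => x / γ * Real.exp (√|x - γ|) * (1 - √|x - γ|) ^ (-(γ + b)))
      (𝓝 γ) (𝓝 1) := by
  have h0 := CO_r0 γ
  have h1 : Tendsto (fun x : ℝ => x / γ) (𝓝 γ) (𝓝 1) := by
    have h2 : Tendsto (fun x : ℝ => x / γ) (𝓝 γ) (𝓝 (γ / γ)) := tendsto_id.div_const γ
    rwa [div_self hγ.ne'] at h2
  have h2 : Tendsto (fun x : ℝ => Real.exp (√|x - γ|)) (𝓝 γ) (𝓝 1) := by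
    have := (Real.continuous_exp.tendsto 0).comp h0
    rwa [Real.exp_zero] at this
  have h3 : Tendsto (fun x : ℝ => (1 - √|x - γ|) ^ (-(γ + b))) (𝓝 γ) (𝓝 1) := by
    have h4 : Tendsto (fun x : ℝ => 1 - √|x - γ|) (𝓝 γ) (𝓝 (1 - 0)) :=
      tendsto_const_nhds.sub h0
    have h6 := h4.rpow (tendsto_const_nhds (x := -(γ + b))) (Or.inl (by norm_num))
    rw [sub_zero, Real.one_rpow] at h6
    exact h6
  have h7 := (h1.mul h2).mul h3
  rwa [mul_one, mul_one] at h7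

theorem CO_main {b : ℝ} (hb : 0 ≤ b) (L : ℝ → ℝ≥0∞) (hfin : ∀ γ ∈ rg b, L γ < ⊤)
    (c : ℝ → ℝ → ℝ) (hA : ∀ γ ∈ rg b, ∀ γ', γ < γ' → L γ' ≤ ENNReal.ofReal (c γ γ') * L γ)
    (hc1 : ∀ γ ∈ rg b, Tendsto (fun γ' => c γ γ') (𝓝 γ) (𝓝 1))
    (hc2 : ∀ γ ∈ rg b, Tendsto (fun γ' => c γ' γ) (𝓝 γ) (𝓝 1))
    (hI : ∀ γ1 ∈ rg b, ∀ γ γ0, γ1 < γ → γ < γ0 → ∀ K η : ℝ, 0 < K → 0 < η → η < 1 →
      L γ ≤ ENNReal.ofReal (cA b γ γ0 K η) * L γ0 + ENNReal.ofReal (cB b γ1 γ K η) * L γ1) :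
    ContinuousOn L (rg b) := by
  have _ := hb
  intro γ hγ
  have hγ0 : 0 < γ := hγ.1
  obtain ⟨γ1, hγ1, hlt⟩ := CO_lo hγ
  have hγ10 : 0 < γ1 := hγ1.1
  obtain ⟨l, hl⟩ : ∃ l : ℝ → ℝ, l = fun x => (L x).toReal := ⟨_, rfl⟩
  have hlv : ∀ x, l x = (L x).toReal := fun x => by rw [hl]
  have hr1 : ∀ᶠ x in 𝓝 γ, √|x - γ| < 1 := (CO_r0 γ).eventually (gt_mem_nhds one_pos)
  have hg1 : ∀ᶠ x in 𝓝 γ, (γ + γ1) / 2 < x := lt_mem_nhds (by linarith)
  -- right limit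
  have hright : Tendsto l (𝓝[>] γ) (𝓝 (l γ)) := by
    have hne : (𝓝[>] γ) ≤ 𝓝[≠] γ := nhdsWithin_mono γ fun x hx => (ne_of_gt hx : x ≠ γ)
    have hu : Tendsto (fun x => max (c γ x) 0 * l γ) (𝓝[>] γ) (𝓝 (l γ)) := by
      have h1 := ((hc1 γ hγ).mono_left (nhdsWithin_le_nhds (s := Ioi γ))).max
        (tendsto_const_nhds (x := (0 : ℝ)))
      have h2 := h1.mul_const (l γ)
      rwa [max_eq_left (by norm_num : (0 : ℝ) ≤ 1), one_mul] at h2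
    have hA1 : Tendsto (fun x => cA b γ x (Real.exp (√|x - γ|)⁻¹) (√|x - γ|)) (𝓝[>] γ)
        (𝓝 1) := by
      refine ((CO_Alim b γ hγ0).mono_left nhdsWithin_le_nhds).congr' ?_
      filter_upwards [self_mem_nhdsWithin] with x hx
      have hx' : γ < x := hx
      refine (CO_Aval (CO_rp hx'.ne') ?_).symm
      rw [CO_sq, abs_of_pos (by linarith)]
    have hB1 : Tendsto (fun x => cB b γ1 γ (Real.exp (√|x - γ|)⁻¹) (√|x - γ|)) (𝓝[>] γ)
        (𝓝 0) := by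
      have h1 := ((CO_B γ (γ1 + b) (by linarith : 0 < γ - γ1)).mono_left hne).const_mul
        (γ / (γ - γ1))
      rw [mul_zero] at h1
      refine h1.congr' ?_
      filter_upwards [self_mem_nhdsWithin] with x hx
      have hx' : γ < x := hx
      exact (CO_Bval (CO_rp hx'.ne')).symm
    have hlow : Tendsto (fun x => (l γ - cB b γ1 γ (Real.exp (√|x - γ|)⁻¹) (√|x - γ|) * l γ1) /
        cA b γ x (Real.exp (√|x - γ|)⁻¹) (√|x - γ|)) (𝓝[>] γ) (𝓝 (l γ)) := by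
      have h1 := ((tendsto_const_nhds (x := l γ)).sub (hB1.mul_const (l γ1))).div hA1 one_ne_zero
      rwa [zero_mul, sub_zero, div_one] at h1
    refine tendsto_of_tendsto_of_tendsto_of_le_of_le' hlow hu ?_ ?_
    · filter_upwards [self_mem_nhdsWithin, nhdsWithin_le_nhds hr1] with x hx hx1
      have hx' : γ < x := hx
      have hrp := CO_rp hx'.ne'
      have hxU := CO_up hγ hx'
      have hAp : 0 < cA b γ x (Real.exp (√|x - γ|)⁻¹) (√|x - γ|) :=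
        CO_Apos hγ0 hxU.1 (Real.exp_pos _) hx1
      have hBp : 0 ≤ cB b γ1 γ (Real.exp (√|x - γ|)⁻¹) (√|x - γ|) :=
        CO_Bnn hγ0 hlt (Real.exp_pos _) hrp
      rw [div_le_iff₀ hAp, hlv, hlv, hlv]
      have h2 := CO_R2 hAp.le hBp (hfin x hxU) (hfin γ1 hγ1)
        (hI γ1 hγ1 γ x hlt hx' _ _ (Real.exp_pos _) hrp hx1)
      linarith
    · filter_upwards [self_mem_nhdsWithin] with x hx
      have hx' : γ < x := hx
      rw [hlv, hlv]
      exact CO_R1 (hfin γ hγ) (hA γ hγ x hx')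
  -- left limit
  have hleft : Tendsto l (𝓝[<] γ) (𝓝 (l γ)) := by
    have hne : (𝓝[<] γ) ≤ 𝓝[≠] γ := nhdsWithin_mono γ fun x hx => (ne_of_lt hx : x ≠ γ)
    have hcl : Tendsto (fun x => max (c x γ) 0) (𝓝[<] γ) (𝓝 1) := by
      have h1 := ((hc2 γ hγ).mono_left (nhdsWithin_le_nhds (s := Iio γ))).max
        (tendsto_const_nhds (x := (0 : ℝ)))
      rwa [max_eq_left (by norm_num : (0 : ℝ) ≤ 1)] at h1
    have hlow : Tendsto (fun x => l γ / max (c x γ) 0) (𝓝[<] γ) (𝓝 (l γ)) := by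
      have h1 := (tendsto_const_nhds (x := l γ)).div hcl one_ne_zero
      rwa [div_one] at h1
    have hA1 : Tendsto (fun x => cA b x γ (Real.exp (√|x - γ|)⁻¹) (√|x - γ|)) (𝓝[<] γ)
        (𝓝 1) := by
      refine ((CO_Alim' b γ hγ0).mono_left nhdsWithin_le_nhds).congr' ?_
      filter_upwards [self_mem_nhdsWithin] with x hx
      have hx' : x < γ := hx
      refine (CO_Aval (CO_rp hx'.ne) ?_).symm
      rw [CO_sq, abs_of_neg (by linarith)]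
      ring
    have hB1 : Tendsto (fun x => cB b γ1 x (Real.exp (√|x - γ|)⁻¹) (√|x - γ|)) (𝓝[<] γ)
        (𝓝 0) := by
      have h1 := ((CO_B γ (γ1 + b) (by linarith : 0 < (γ - γ1) / 2)).mono_left hne).const_mul
        (γ / ((γ - γ1) / 2))
      rw [mul_zero] at h1
      refine tendsto_of_tendsto_of_tendsto_of_le_of_le' tendsto_const_nhds h1 ?_ ?_
      · filter_upwards [self_mem_nhdsWithin, nhdsWithin_le_nhds hg1] with x hx hx2
        have hx' : x < γ := hx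
        exact CO_Bnn (by linarith) (by linarith) (Real.exp_pos _) (CO_rp hx'.ne)
      · filter_upwards [self_mem_nhdsWithin, nhdsWithin_le_nhds hg1] with x hx hx2
        have hx' : x < γ := hx
        have hrp := CO_rp hx'.ne
        rw [CO_Bval hrp]
        have h3 : 0 < (√|x - γ|)⁻¹ := inv_pos.2 hrp
        have h4 : (γ - γ1) / 2 ≤ x - γ1 := by linarith
        have h5 : Real.exp (-(x - γ1) * (√|x - γ|)⁻¹) ≤
            Real.exp (-((γ - γ1) / 2) * (√|x - γ|)⁻¹) := by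
          rw [Real.exp_le_exp]
          nlinarith
        have h6 : x / (x - γ1) ≤ γ / ((γ - γ1) / 2) :=
          div_le_div₀ hγ0.le hx'.le (by linarith) h4
        have h7 : 0 ≤ ((√|x - γ|)⁻¹) ^ (γ1 + b) := Real.rpow_nonneg h3.le _
        refine mul_le_mul h6 (mul_le_mul_of_nonneg_left h5 h7) (by positivity) ?_
        have : 0 < (γ - γ1) / 2 := by linarith
        positivity
    have hu : Tendsto (fun x => cA b x γ (Real.exp (√|x - γ|)⁻¹) (√|x - γ|) * l γ +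
        cB b γ1 x (Real.exp (√|x - γ|)⁻¹) (√|x - γ|) * l γ1) (𝓝[<] γ) (𝓝 (l γ)) := by
      have h1 := (hA1.mul_const (l γ)).add (hB1.mul_const (l γ1))
      rwa [one_mul, zero_mul, add_zero] at h1
    refine tendsto_of_tendsto_of_tendsto_of_le_of_le' hlow hu ?_ ?_
    · filter_upwards [self_mem_nhdsWithin, nhdsWithin_le_nhds hg1,
        hcl.eventually (lt_mem_nhds (by norm_num : (0 : ℝ) < 1))] with x hx hx2 hx3
      have hx' : x < γ := hx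
      have hxU : x ∈ rg b := CO_up hγ1 (by linarith)
      rw [div_le_iff₀ hx3, hlv, hlv]
      have h2 := CO_R1 (hfin x hxU) (hA x hxU γ hx')
      linarith
    · filter_upwards [self_mem_nhdsWithin, nhdsWithin_le_nhds hg1, nhdsWithin_le_nhds hr1]
        with x hx hx2 hx1
      have hx' : x < γ := hx
      have hrp := CO_rp hx'.ne
      have hxU : x ∈ rg b := CO_up hγ1 (by linarith)
      have hAp : 0 < cA b x γ (Real.exp (√|x - γ|)⁻¹) (√|x - γ|) :=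
        CO_Apos hxU.1 hγ0 (Real.exp_pos _) hx1
      have hBp : 0 ≤ cB b γ1 x (Real.exp (√|x - γ|)⁻¹) (√|x - γ|) :=
        CO_Bnn hxU.1 (by linarith) (Real.exp_pos _) hrp
      rw [hlv, hlv, hlv]
      exact CO_R2 hAp.le hBp (hfin γ hγ) (hfin γ1 hγ1)
        (hI γ1 hγ1 x γ (by linarith) hx' _ _ (Real.exp_pos _) hrp hx1)
  have hcont : ContinuousAt l γ :=
    continuousAt_iff_continuous_left'_right'.2 ⟨hleft, hright⟩
  have hcont2 : ContinuousAt (fun x => ENNReal.ofReal (l x)) γ :=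
    ENNReal.continuous_ofReal.continuousAt.comp hcont
  refine (hcont2.congr ?_).continuousWithinAt
  filter_upwards [hg1] with x hx
  have hxU : x ∈ rg b := CO_up hγ1 (by linarith)
  rw [hlv, ENNReal.ofReal_toReal (hfin x hxU).ne]

end Pool.Agent.H87.LTI
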