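import Pool.Agent.H2.LTM.FIN

/-!
# LTI: continuity and interpolation of Lieb–Thirring constants (helper87, MP_e22489_mp). Definitions

The definitions of the statements are those of `Pool/Agent/H2/LTM/SDefs.lean`.
-/

open MeasureTheory Complex Set Filter Topology
open scoped ENNReal NNReal ContDiff ComplexConjugate

noncomputable section

namespace Pool.Agent.H87.LTI

open Pool.Agent.H2.LTM

/-- admissible vector potentials: measurable and in `L²_loc`. -/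
structure Adm {d : ℕ} (A : Sp d → Sp d) : Prop where
  meas : Measurable A
  loc : ∀ i, LocallyIntegrable (fun x => A x i ^ 2)

/-- `∫ V^q` -/
def Iq {d : ℕ} (q : ℝ) (V : Sp d → ℝ) : ℝ≥0∞ := ∫⁻ x, ENNReal.ofReal (V x ^ q)

/-- number of eigenvalues below `-E`, in `ℝ≥0∞` -/
def lv {d : ℕ} (A : Sp d → Sp d) (V : Sp d → ℝ) (E : ℝ) : ℝ≥0∞ := ((levels A V E : ℕ∞) : ℝ≥0∞)

/-- `K` is a constant in the Lieb–Thirring inequality with exponent `γ` for the vector potential `A` -/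
def Holds {d : ℕ} (γ : ℝ) (A : Sp d → Sp d) (K : ℝ≥0∞) : Prop :=
  ∀ V : Sp d → ℝ, Measurable V → (∀ x, 0 ≤ V x) → Iq (γ + d / 2) V ≠ ⊤ →
    riesz γ A V ≤ K * Iq (γ + d / 2) V

/-- `V` where `V ≤ a`, and `0` elsewhere -/
def lo {d : ℕ} (a : ℝ) (V : Sp d → ℝ) : Sp d → ℝ := fun x => if V x ≤ a then V x else 0

/-- `V` where `V > a`, and `0` elsewhere -/
def hi {d : ℕ} (a : ℝ) (V : Sp d → ℝ) : Sp d → ℝ := fun x => if V x ≤ a then 0 else V x

theorem riesz_eq {d : ℕ} (γ : ℝ) (A : Sp d → Sp d) (V : Sp d → ℝ) :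
    riesz γ A V = ∫⁻ E in Ioi (0 : ℝ), ENNReal.ofReal (γ * E ^ (γ - 1)) * lv A V E := rfl

theorem adm_zero {d : ℕ} : Adm (0 : Sp d → Sp d) where
  meas := measurable_const
  loc := fun i => by simpa using locallyIntegrable_const (0 : ℝ)

theorem isLT_iff {γ : ℝ} {d : ℕ} {K : ℝ≥0∞} : IsLT γ d K ↔ Holds γ (0 : Sp d → Sp d) K := Iff.rfl

theorem isLTmag_iff {γ : ℝ} {d : ℕ} {K : ℝ≥0∞} :
    IsLTmag γ d K ↔ ∀ A : Sp d → Sp d, Adm A → Holds γ A K :=
  ⟨fun h A hA V hV h0 hI => h A V hA.1 hA.2 hV h0 hI,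
   fun h A V hA hA2 hV h0 hI => h A ⟨hA, hA2⟩ V hV h0 hI⟩

end Pool.Agent.H87.LTI
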