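import Pool.Agent.H87.LTI.FD0

/-!
ROW FA (120 lines).  Fourier transform of test functions.
* `FA_sch`: `lft u` is smooth with compact support (composition with the linear equivalence `WithLp.ofLp`, `PiLp.continuousLinearEquiv` / `EuclideanSpace.equiv`), so it is a Schwartz map (`HasCompactSupport.toSchwartzMap`); `SchwartzMap.fourier_coe`.
* `FA_add`, `FA_smul`, `FA_sum`: linearity of the integral (`Real.fourier_eq`, or use the Schwartz maps and `FourierAdd`, `FourierSMul`).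
* `FA_mp`: `PiLp.volume_preserving_ofLp` or `EuclideanSpace.volume_preserving_...`: integrals over `Sp d` and `Eu d` agree.
* `FA_mass`: `SchwartzMap.integral_norm_sq_fourier` and `FA_mp`.
* `FA_int`, `FA_int1`: Schwartz functions times polynomials are integrable (`SchwartzMap.integrable_pow_mul`), `‖ft u‖` is bounded.
-/

open MeasureTheory Complex Set Filter Topology
open scoped ENNReal NNReal ContDiff ComplexConjugate FourierTransform SchwartzMap

noncomputable section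

namespace Pool.Agent.H87.LTI

open Pool.Agent.H2.LTM

variable {d : ℕ}

/-- the linear equivalence -/
def FA_e (d : ℕ) : Eu d ≃L[ℝ] Sp d := PiLp.continuousLinearEquiv 2 ℝ (fun _ : Fin d => ℝ)

theorem FA_e_apply (y : Eu d) : FA_e d y = WithLp.ofLp y := rfl

theorem FA_lft_eq (u : Sp d → ℂ) : lft u = u ∘ FA_e d := rfl

theorem FA_cs (u : TF d) : HasCompactSupport (lft (u : Sp d → ℂ)) := by
  rw [FA_lft_eq]
  exact u.2.2.comp_homeomorph (FA_e d).toHomeomorph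

theorem FA_cd (u : TF d) : ContDiff ℝ ∞ (lft (u : Sp d → ℂ)) := by
  rw [FA_lft_eq]
  exact u.2.1.comp (FA_e d).contDiff

/-- the Schwartz map of a test function -/
def FA_s (u : TF d) : 𝓢(Eu d, ℂ) := (FA_cs u).toSchwartzMap (FA_cd u)

theorem FA_s_coe (u : TF d) : ⇑(FA_s u) = lft (u : Sp d → ℂ) := rfl

theorem FA_s_ft (u : TF d) : ⇑(𝓕 (FA_s u) : 𝓢(Eu d, ℂ)) = ft (u : Sp d → ℂ) := by
  rw [SchwartzMap.fourier_coe, FA_s_coe]
  rfl

theorem FA_sch (u : TF d) : ∃ f : 𝓢(Eu d, ℂ), (⇑f = lft (u : Sp d → ℂ)) ∧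
    ⇑(𝓕 f : 𝓢(Eu d, ℂ)) = ft (u : Sp d → ℂ) :=
  ⟨FA_s u, FA_s_coe u, FA_s_ft u⟩

theorem FA_add (u v : TF d) : ft ((u + v : TF d) : Sp d → ℂ) =
    fun ξ => ft (u : Sp d → ℂ) ξ + ft (v : Sp d → ℂ) ξ := by
  have h : FA_s (u + v) = FA_s u + FA_s v := by
    ext y
    rfl
  rw [← FA_s_ft, h, FourierTransform.fourier_add]
  funext ξ
  rw [← FA_s_ft u, ← FA_s_ft v]
  rfl

theorem FA_smul (c : ℂ) (u : TF d) : ft ((c • u : TF d) : Sp d → ℂ) =
    fun ξ => c * ft (u : Sp d → ℂ) ξ := by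
  have h : FA_s (c • u) = c • FA_s u := by
    ext y
    rfl
  rw [← FA_s_ft, h, FourierTransform.fourier_smul]
  funext ξ
  rw [← FA_s_ft u]
  rfl

theorem FA_zero : ft ((0 : TF d) : Sp d → ℂ) = fun _ => 0 := by
  have h := FA_smul (0 : ℂ) (0 : TF d)
  rw [zero_smul] at h
  rw [h]
  funext ξ
  rw [zero_mul]

theorem FA_sum {ι : Type*} (s : Finset ι) (c : ι → ℂ) (u : ι → TF d) :
    ft ((∑ i ∈ s, c i • u i : TF d) : Sp d → ℂ) =
      fun ξ => ∑ i ∈ s, c i * ft (u i : Sp d → ℂ) ξ := by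
  classical
  induction s using Finset.induction_on with
  | empty =>
    rw [Finset.sum_empty, FA_zero]
    funext ξ
    rw [Finset.sum_empty]
  | insert a s ha ih =>
    rw [Finset.sum_insert ha, FA_add, FA_smul]
    funext ξ
    rw [Finset.sum_insert ha, ih]

/-- integrals over `Sp d` and over `Eu d` -/
theorem FA_mp (f : Sp d → ℝ≥0∞) : ∫⁻ y : Eu d, f (WithLp.ofLp y) = ∫⁻ x : Sp d, f x :=
  (PiLp.volume_preserving_ofLp (Fin d)).lintegral_comp_emb
    (FA_e d).toHomeomorph.measurableEmbedding f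

theorem FA_mp' (f : Sp d → ℝ) : ∫ y : Eu d, f (WithLp.ofLp y) = ∫ x : Sp d, f x :=
  (PiLp.volume_preserving_ofLp (Fin d)).integral_comp
    (FA_e d).toHomeomorph.measurableEmbedding f

theorem FA_mass (u : TF d) : ∫ ξ, ‖ft (u : Sp d → ℂ) ξ‖ ^ 2 = mass (u : Sp d → ℂ) := by
  have h := SchwartzMap.integral_norm_sq_fourier (FA_s u)
  rw [FA_s_ft, FA_s_coe] at h
  rw [h]
  exact FA_mp' (fun x => ‖(u : Sp d → ℂ) x‖ ^ 2)

theorem FA_cont (u : TF d) : Continuous (ft (u : Sp d → ℂ)) := by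
  rw [← FA_s_ft]
  exact SchwartzMap.continuous _

theorem FA_int1 (u : TF d) : Integrable (ft (u : Sp d → ℂ)) := by
  rw [← FA_s_ft]
  exact SchwartzMap.integrable _

theorem FA_int (u : TF d) (n : ℕ) : Integrable (fun ξ : Eu d => ‖ξ‖ ^ n * ‖ft (u : Sp d → ℂ) ξ‖ ^ 2) := by
  rw [← FA_s_ft]
  set g : 𝓢(Eu d, ℂ) := 𝓕 (FA_s u) with hg
  have h1 : Integrable (fun ξ : Eu d => ‖ξ‖ ^ n * ‖g ξ‖) := g.integrable_pow_mul volume n
  obtain ⟨C, hC⟩ := g.decay 0 0
  have hb : ∀ ξ, ‖g ξ‖ ≤ C := by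
    intro ξ
    have := hC.2 ξ
    simpa using this
  refine (h1.mul_const C).mono' ?_ ?_
  · exact ((continuous_norm.pow n).mul (g.continuous.norm.pow 2)).aestronglyMeasurable
  · refine Eventually.of_forall fun ξ => ?_
    have h2 : 0 ≤ ‖ξ‖ ^ n * ‖g ξ‖ := by positivity
    rw [Real.norm_of_nonneg (by positivity)]
    calc ‖ξ‖ ^ n * ‖g ξ‖ ^ 2 = (‖ξ‖ ^ n * ‖g ξ‖) * ‖g ξ‖ := by ring
      _ ≤ (‖ξ‖ ^ n * ‖g ξ‖) * C := mul_le_mul_of_nonneg_left (hb ξ) h2

end Pool.Agent.H87.LTI
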