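import Pool.Agent.H87.LTI.FA

/-!
ROW FB (120 lines).  The low frequency part, `τ > 0`.
* `cut_*`: `ContDiffBump.one_of_mem_closedBall`, `ContDiffBump.zero_of_le_dist`, `ContDiffBump.le_one`, `nonneg`; `‖(√τ)⁻¹ • ξ‖ = ‖ξ‖/√τ`.
* `FB_meas`: `(τ, x) ↦ lowp τ u x` is measurable: `lowp τ u x = ∫ e^{2πi⟪ξ,x⟫} cut τ ξ û(ξ) dξ` (`Real.fourierInv_eq'`), the integrand is jointly measurable, `MeasureTheory.StronglyMeasurable.integral_prod_right`.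
  (`cut` is jointly measurable in `(τ, ξ)`: composition of the continuous function `bmp d` with a measurable map.)
* `FB_main`: `g ξ = cut τ ξ * û(ξ)` is smooth with compact support, hence a Schwartz map; with `f` from `FA_sch` the Schwartz map `F = f - 𝓕⁻ g` has `F y = u(ofLp y) - lowp τ u (ofLp y)` (`SchwartzMap.fourierInv_coe`) and
  `𝓕 F = û - g = (1 - cut τ) û`; Plancherel `SchwartzMap.integral_norm_sq_fourier`, both sides as `∫⁻ ofReal` (`ofReal_integral_eq_lintegral_ofReal`, integrable), `FA_mp`.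
* `FB_sum`: linearity (`FA_sum`; `integral_finsetSum`, integrable because `cut τ` is bounded and `û` integrable).
-/

open MeasureTheory Complex Set Filter Topology
open scoped ENNReal NNReal ContDiff ComplexConjugate FourierTransform SchwartzMap

noncomputable section

namespace Pool.Agent.H87.LTI

open Pool.Agent.H2.LTM

variable {d : ℕ}

theorem cut_nonneg (τ : ℝ) (ξ : Eu d) : 0 ≤ cut τ ξ := (bmp d).nonneg

theorem cut_le_one (τ : ℝ) (ξ : Eu d) : cut τ ξ ≤ 1 := (bmp d).le_one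

theorem FB_norm {τ : ℝ} (_ : 0 < τ) (ξ : Eu d) : ‖(√τ)⁻¹ • ξ‖ = ‖ξ‖ / √τ := by
  rw [norm_smul, norm_inv, Real.norm_of_nonneg (Real.sqrt_nonneg τ), inv_mul_eq_div]

theorem cut_one {τ : ℝ} (hτ : 0 < τ) {ξ : Eu d} (h : ‖ξ‖ ^ 2 ≤ τ) : cut τ ξ = 1 := by
  unfold cut
  apply (bmp d).one_of_mem_closedBall
  rw [mem_closedBall_zero_iff, FB_norm hτ]
  have hs : 0 < √τ := Real.sqrt_pos.2 hτ
  show ‖ξ‖ / √τ ≤ 1
  rw [div_le_one hs]
  exact Real.le_sqrt_of_sq_le h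

theorem cut_zero {τ : ℝ} (hτ : 0 < τ) {ξ : Eu d} (h : 4 * τ ≤ ‖ξ‖ ^ 2) : cut τ ξ = 0 := by
  unfold cut
  apply (bmp d).zero_of_le_dist
  rw [dist_zero_right, FB_norm hτ]
  have hs : 0 < √τ := Real.sqrt_pos.2 hτ
  show 2 ≤ ‖ξ‖ / √τ
  rw [le_div_iff₀ hs]
  apply le_of_sq_le_sq _ (norm_nonneg _)
  rw [mul_pow, Real.sq_sqrt hτ.le]
  linarith

theorem cut_meas : Measurable (fun z : ℝ × Eu d => cut z.1 z.2) := by
  have h1 : Measurable (fun z : ℝ × Eu d => (√z.1)⁻¹ • z.2) := by fun_prop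
  exact (bmp d).continuous.measurable.comp h1

theorem FB_eq (τ : ℝ) (u : TF d) (x : Sp d) : lowp τ (u : Sp d → ℂ) x =
    ∫ ξ : Eu d, Complex.exp ((2 * Real.pi * (inner ℝ ξ (WithLp.toLp 2 x)) : ℝ) * I) *
      ((cut τ ξ : ℂ) * ft (u : Sp d → ℂ) ξ) := by
  unfold lowp
  rw [Real.fourierInv_eq']
  rfl

theorem FB_meas (u : TF d) : Measurable (fun z : ℝ × Sp d => lowp z.1 (u : Sp d → ℂ) z.2) := by
  have h0 : (fun z : ℝ × Sp d => lowp z.1 (u : Sp d → ℂ) z.2) = fun z : ℝ × Sp d =>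
      ∫ ξ : Eu d, Complex.exp ((2 * Real.pi * (inner ℝ ξ (WithLp.toLp 2 z.2)) : ℝ) * I) *
      ((cut z.1 ξ : ℂ) * ft (u : Sp d → ℂ) ξ) := by
    funext z
    exact FB_eq z.1 u z.2
  rw [h0]
  have m1 : Measurable (fun q : (ℝ × Sp d) × Eu d =>
      Complex.exp ((2 * Real.pi * (inner ℝ q.2 (WithLp.toLp 2 q.1.2)) : ℝ) * I)) := by
    have c1 : Continuous (fun q : (ℝ × Sp d) × Eu d =>
      (WithLp.toLp 2 q.1.2 : Eu d)) := (PiLp.continuous_toLp 2 _).comp (by fun_prop)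
    have c2 : Continuous (fun q : (ℝ × Sp d) × Eu d =>
      (inner ℝ q.2 (WithLp.toLp 2 q.1.2) : ℝ)) := Continuous.inner continuous_snd c1
    have c3 : Continuous (fun q : (ℝ × Sp d) × Eu d =>
      Complex.exp ((2 * Real.pi * (inner ℝ q.2 (WithLp.toLp 2 q.1.2)) : ℝ) * I)) := by
      fun_prop
    exact c3.measurable
  have m2 : Measurable (fun q : (ℝ × Sp d) × Eu d => (cut q.1.1 q.2 : ℂ)) := by
    have h1 : Measurable (fun q : (ℝ × Sp d) × Eu d => q.1.1) :=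
      measurable_fst.comp measurable_fst
    have h2 : Measurable (fun q : (ℝ × Sp d) × Eu d => (√q.1.1)⁻¹ • q.2) :=
      (h1.sqrt.inv).smul measurable_snd
    have h3 : Measurable (fun q : (ℝ × Sp d) × Eu d => bmp d ((√q.1.1)⁻¹ • q.2)) :=
      (bmp d).continuous.measurable.comp h2
    exact h3.complex_ofReal
  have m3 : Measurable (fun q : (ℝ × Sp d) × Eu d => ft (u : Sp d → ℂ) q.2) :=
    (FA_cont u).measurable.comp measurable_snd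
  have m4 := (m1.mul (m2.mul m3)).stronglyMeasurable
  exact (MeasureTheory.StronglyMeasurable.integral_prod_right' (ν := volume) m4).measurable

theorem FB_cutc (τ : ℝ) : Continuous (fun ξ : Eu d => cut τ ξ) :=
  (bmp d).continuous.comp (continuous_const_smul _)

theorem FB_int (u : TF d) (τ : ℝ) (x : Sp d) : Integrable (fun ξ : Eu d =>
    Complex.exp ((2 * Real.pi * (inner ℝ ξ (WithLp.toLp 2 x)) : ℝ) * I) *
      ((cut τ ξ : ℂ) * ft (u : Sp d → ℂ) ξ)) := by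
  have c0 : Continuous (fun ξ : Eu d => (inner ℝ ξ (WithLp.toLp 2 x) : ℝ)) :=
    Continuous.inner continuous_id continuous_const
  have c1 : Continuous (fun ξ : Eu d =>
      Complex.exp ((2 * Real.pi * (inner ℝ ξ (WithLp.toLp 2 x)) : ℝ) * I)) := by
    fun_prop
  have c2 : Continuous (fun ξ : Eu d => (cut τ ξ : ℂ)) :=
    Complex.continuous_ofReal.comp (FB_cutc τ)
  have i1 : Integrable (fun ξ : Eu d => (cut τ ξ : ℂ) * ft (u : Sp d → ℂ) ξ) := by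
    refine (FA_int1 u).bdd_mul (c := 1) c2.aestronglyMeasurable (ae_of_all _ fun ξ => ?_)
    rw [Complex.norm_real, Real.norm_of_nonneg (cut_nonneg τ ξ)]
    exact cut_le_one τ ξ
  refine i1.bdd_mul (c := 1) c1.aestronglyMeasurable (ae_of_all _ fun ξ => ?_)
  rw [Complex.norm_exp_ofReal_mul_I]

theorem FB_sum {ι : Type*} (s : Finset ι) (c : ι → ℂ) (u : ι → TF d) (τ : ℝ) (x : Sp d) :
    lowp τ ((∑ i ∈ s, c i • u i : TF d) : Sp d → ℂ) x = ∑ i ∈ s, c i * lowp τ (u i : Sp d → ℂ) x := by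
  rw [FB_eq, FA_sum]
  have h1 : ∀ i, c i * lowp τ (u i : Sp d → ℂ) x = ∫ ξ : Eu d,
      c i * (Complex.exp ((2 * Real.pi * (inner ℝ ξ (WithLp.toLp 2 x)) : ℝ) * I) *
      ((cut τ ξ : ℂ) * ft (u i : Sp d → ℂ) ξ)) := by
    intro i
    rw [FB_eq, integral_const_mul]
  rw [Finset.sum_congr rfl fun i _ => h1 i, ← integral_finsetSum]
  · refine integral_congr_ae (ae_of_all _ fun ξ => ?_)
    show Complex.exp ((2 * Real.pi * (inner ℝ ξ (WithLp.toLp 2 x)) : ℝ) * I) *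
      ((cut τ ξ : ℂ) * ∑ i ∈ s, c i * ft (u i : Sp d → ℂ) ξ) = ∑ i ∈ s, c i * (Complex.exp ((2 * Real.pi * (inner ℝ ξ (WithLp.toLp 2 x)) : ℝ) * I) *
      ((cut τ ξ : ℂ) * ft (u i : Sp d → ℂ) ξ))
    rw [Finset.mul_sum, Finset.mul_sum]
    refine Finset.sum_congr rfl fun i _ => ?_
    ring
  · intro i _
    exact (FB_int (u i) τ x).const_mul _

theorem FB_main {τ : ℝ} (hτ : 0 < τ) (u : TF d) :
    ∫⁻ x, ENNReal.ofReal (‖(u : Sp d → ℂ) x - lowp τ (u : Sp d → ℂ) x‖ ^ 2) =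
      ∫⁻ ξ : Eu d, ENNReal.ofReal ((1 - cut τ ξ) ^ 2 * ‖ft (u : Sp d → ℂ) ξ‖ ^ 2) := by
  obtain ⟨f, hf1, hf2⟩ := FA_sch u
  have hs : ContDiff ℝ ∞ (fun ξ : Eu d => (cut τ ξ : ℂ) * ft (u : Sp d → ℂ) ξ) := by
    have a1 : ContDiff ℝ ∞ (fun ξ : Eu d => cut τ ξ) :=
      (bmp d).contDiff.comp (contDiff_const_smul _)
    have a2 : ContDiff ℝ ∞ (fun ξ : Eu d => (cut τ ξ : ℂ)) :=
      Complex.ofRealCLM.contDiff.comp a1
    have a3 : ContDiff ℝ ∞ (ft (u : Sp d → ℂ)) := by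
      rw [← hf2]
      exact (𝓕 f : 𝓢(Eu d, ℂ)).smooth ⊤
    exact a2.mul a3
  have hc : HasCompactSupport (fun ξ : Eu d => (cut τ ξ : ℂ) * ft (u : Sp d → ℂ) ξ) := by
    refine HasCompactSupport.intro (isCompact_closedBall (0 : Eu d) (2 * √τ)) fun ξ hξ => ?_
    have h1 : cut τ ξ = 0 := by
      apply cut_zero hτ
      rw [mem_closedBall_zero_iff, not_le] at hξ
      have h2 : (2 * √τ) ^ 2 ≤ ‖ξ‖ ^ 2 := pow_le_pow_left₀ (by positivity) hξ.le 2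
      rw [mul_pow, Real.sq_sqrt hτ.le] at h2
      linarith
    show (cut τ ξ : ℂ) * ft (u : Sp d → ℂ) ξ = 0
    rw [h1, Complex.ofReal_zero, zero_mul]
  let G : 𝓢(Eu d, ℂ) := hc.toSchwartzMap hs
  have hG : ⇑G = fun ξ : Eu d => (cut τ ξ : ℂ) * ft (u : Sp d → ℂ) ξ := rfl
  let F : 𝓢(Eu d, ℂ) := f - 𝓕⁻ G
  have hF1 : ∀ y, F y = (u : Sp d → ℂ) (WithLp.ofLp y) - lowp τ (u : Sp d → ℂ) (WithLp.ofLp y) := by
    intro y
    show f y - (𝓕⁻ G : 𝓢(Eu d, ℂ)) y = _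
    rw [hf1, SchwartzMap.fourierInv_coe, hG]
    rfl
  have hF2 : ∀ ξ, (𝓕 F : 𝓢(Eu d, ℂ)) ξ = ((1 - cut τ ξ : ℝ) : ℂ) * ft (u : Sp d → ℂ) ξ := by
    intro ξ
    have h1 : F + 𝓕⁻ G = f := sub_add_cancel _ _
    have h2 : (𝓕 F : 𝓢(Eu d, ℂ)) + G = 𝓕 f := by
      have h3 : (𝓕 (F + 𝓕⁻ G) : 𝓢(Eu d, ℂ)) = 𝓕 F + 𝓕 (𝓕⁻ G : 𝓢(Eu d, ℂ)) :=
        FourierTransform.fourier_add _ _
      rw [h1, FourierTransform.fourier_fourierInv_eq] at h3
      exact h3.symm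
    have h4 : (𝓕 F : 𝓢(Eu d, ℂ)) ξ + G ξ = ft (u : Sp d → ℂ) ξ := by
      rw [← hf2, ← h2]
      rfl
    rw [← h4, hG]
    have h5 : (𝓕 F : 𝓢(Eu d, ℂ)) ξ = ft (u : Sp d → ℂ) ξ - (cut τ ξ : ℂ) * ft (u : Sp d → ℂ) ξ := by
      rw [← h4, hG]
      simp only
      rw [show (𝓕 F : 𝓢(Eu d, ℂ)) ξ + (cut τ ξ : ℂ) * ft (u : Sp d → ℂ) ξ = ft (u : Sp d → ℂ) ξ
        from h4]
      exact eq_sub_of_add_eq h4
    show _ = _ * ((𝓕 F : 𝓢(Eu d, ℂ)) ξ + (cut τ ξ : ℂ) * ft (u : Sp d → ℂ) ξ)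
    rw [h5]
    push_cast
    ring
  have key := SchwartzMap.integral_norm_sq_fourier F
  have iF : Integrable (fun y => ‖F y‖ ^ 2) := by
    have := (F.memLp 2 volume)
    have h := this.integrable_norm_pow (by norm_num)
    simpa using h
  have iG : Integrable (fun y => ‖(𝓕 F : 𝓢(Eu d, ℂ)) y‖ ^ 2) := by
    have := ((𝓕 F : 𝓢(Eu d, ℂ)).memLp 2 volume)
    have h := this.integrable_norm_pow (by norm_num)
    simpa using h
  have e1 : ENNReal.ofReal (∫ y, ‖F y‖ ^ 2) = ∫⁻ y, ENNReal.ofReal (‖F y‖ ^ 2) :=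
    ofReal_integral_eq_lintegral_ofReal iF (ae_of_all _ fun y => sq_nonneg _)
  have e2 : ENNReal.ofReal (∫ y, ‖(𝓕 F : 𝓢(Eu d, ℂ)) y‖ ^ 2) =
      ∫⁻ y, ENNReal.ofReal (‖(𝓕 F : 𝓢(Eu d, ℂ)) y‖ ^ 2) :=
    ofReal_integral_eq_lintegral_ofReal iG (ae_of_all _ fun y => sq_nonneg _)
  have e3 : ∫⁻ y, ENNReal.ofReal (‖F y‖ ^ 2) =
      ∫⁻ x, ENNReal.ofReal (‖(u : Sp d → ℂ) x - lowp τ (u : Sp d → ℂ) x‖ ^ 2) := by
    rw [← FA_mp]
    refine lintegral_congr fun y => ?_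
    rw [hF1]
  rw [← e3, ← e1, ← key, e2]
  refine lintegral_congr fun ξ => ?_
  rw [hF2, norm_mul, mul_pow, Complex.norm_real, Real.norm_eq_abs, sq_abs]

end Pool.Agent.H87.LTI
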