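import Pool.Agent.H87.LTI.FA

/-!
ROW FK (100 lines).  `kin 0 u + E mass u = ∫ (4π²|ξ|² + E) |û|²`.
`cov 0 u i x = fderiv ℝ u x (Pi.single i 1)`.  Let `f` be the Schwartz map of `FA_sch`; its line derivative `∂_{e_i} f` (`EuclideanSpace.single i 1`) is the function `y ↦ fderiv ℝ u (ofLp y) (Pi.single i 1)` (chain rule with the linear
map `ofLp`); `SchwartzMap.fourier_lineDerivOp_eq`: `𝓕 (∂_m f) ξ = 2πi ⟪ξ,m⟫ 𝓕 f ξ` and Plancherel (`SchwartzMap.integral_norm_sq_fourier`) give `∫ ‖∂_i u‖² = ∫ 4π² ξ_i² ‖û‖²` (`FA_mp'`); sum over `i`: `∑ ξ_i² = ‖ξ‖²` (`EuclideanSpace.norm_sq_eq`).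
Add `E * FA_mass`.  (`FA_int` for integrability.)
-/

open MeasureTheory Complex Set Filter Topology
open scoped ENNReal NNReal ContDiff ComplexConjugate FourierTransform SchwartzMap

noncomputable section

namespace Pool.Agent.H87.LTI

open Pool.Agent.H2.LTM

variable {d : ℕ}

theorem FK_int (u : TF d) (E : ℝ) : Integrable (fun ξ : Eu d => hh E ξ * ‖ft (u : Sp d → ℂ) ξ‖ ^ 2) := by
  have h1 := (FA_int u 2).const_mul (4 * Real.pi ^ 2)
  have h2 := (FA_int u 0).const_mul E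
  refine (h1.add h2).congr (Eventually.of_forall fun ξ => ?_)
  simp only [Pi.add_apply, hh]
  ring

/-- one derivative -/
theorem FK_one (u : TF d) (i : Fin d) : ∫ x, ‖cov 0 (u : Sp d → ℂ) i x‖ ^ 2 =
    ∫ ξ : Eu d, 4 * Real.pi ^ 2 * ((ξ i) ^ 2 * ‖ft (u : Sp d → ℂ) ξ‖ ^ 2) := by
  obtain ⟨f, hf, hF⟩ := FA_sch u
  have e1 : ∀ y : Eu d, cov 0 (u : Sp d → ℂ) i (WithLp.ofLp y) =
      LineDeriv.lineDerivOp (EuclideanSpace.single i (1 : ℝ)) f y := by
    intro y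
    rw [SchwartzMap.lineDerivOp_apply_eq_fderiv, hf]
    have h2 : lft (u : Sp d → ℂ) = (u : Sp d → ℂ) ∘ (EuclideanSpace.equiv (Fin d) ℝ) := rfl
    rw [h2, ContinuousLinearEquiv.comp_right_fderiv]
    have h3 : (EuclideanSpace.equiv (Fin d) ℝ) (EuclideanSpace.single i (1 : ℝ)) = Pi.single i 1 := by
      ext j
      simp [EuclideanSpace.equiv, Pi.single_apply]
    simp only [cov, Pi.zero_apply, Complex.ofReal_zero, mul_zero, zero_mul, add_zero,
      ContinuousLinearMap.comp_apply, ContinuousLinearEquiv.coe_coe]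
    rw [h3]
    rfl
  rw [← FA_mp' (fun x => ‖cov 0 (u : Sp d → ℂ) i x‖ ^ 2)]
  simp only [e1]
  rw [← SchwartzMap.integral_norm_sq_fourier]
  refine integral_congr_ae (Eventually.of_forall fun ξ => ?_)
  simp only
  rw [SchwartzMap.fourier_lineDerivOp_eq]
  have htg : (fun x : Eu d => inner ℝ x (EuclideanSpace.single i (1 : ℝ))).HasTemperateGrowth := by
    fun_prop
  have h4 : (𝓕 f : 𝓢(Eu d, ℂ)) ξ = ft (u : Sp d → ℂ) ξ := by rw [hF]
  rw [smul_apply, SchwartzMap.smulLeftCLM_apply_apply htg, h4]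
  have h5 : inner ℝ ξ (EuclideanSpace.single i (1 : ℝ)) = ξ i := by
    simp [EuclideanSpace.inner_single_right]
  rw [h5, norm_smul, norm_smul, mul_pow, mul_pow]
  have h6 : ‖(2 * (Real.pi : ℂ) * I)‖ = 2 * Real.pi := by
    simp [abs_of_pos Real.pi_pos]
  rw [h6, Real.norm_eq_abs, sq_abs]
  ring

theorem FK_main (u : TF d) (E : ℝ) : ∫ ξ, hh E ξ * ‖ft (u : Sp d → ℂ) ξ‖ ^ 2 =
    kin 0 (u : Sp d → ℂ) + E * mass (u : Sp d → ℂ) := by
  have hI : ∀ i : Fin d, Integrable (fun ξ : Eu d =>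
      4 * Real.pi ^ 2 * ((ξ i) ^ 2 * ‖ft (u : Sp d → ℂ) ξ‖ ^ 2)) := by
    intro i
    refine Integrable.const_mul ?_ _
    refine (FA_int u 2).mono' ?_ (Eventually.of_forall fun ξ => ?_)
    · have hc := FA_cont u
      exact Continuous.aestronglyMeasurable (by fun_prop)
    · rw [Real.norm_eq_abs, abs_of_nonneg (by positivity)]
      have h1 : (ξ i) ^ 2 ≤ ‖ξ‖ ^ 2 := by
        have := EuclideanSpace.norm_sq_eq ξ
        rw [this]
        have h2 : (ξ i) ^ 2 = ‖ξ i‖ ^ 2 := by rw [Real.norm_eq_abs, sq_abs]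
        rw [h2]
        exact Finset.single_le_sum (f := fun j => ‖ξ j‖ ^ 2) (fun j _ => by positivity)
          (Finset.mem_univ i)
      exact mul_le_mul_of_nonneg_right h1 (by positivity)
  have h0 := FA_int u 0
  have e : (fun ξ : Eu d => hh E ξ * ‖ft (u : Sp d → ℂ) ξ‖ ^ 2) = fun ξ =>
      (∑ i : Fin d, 4 * Real.pi ^ 2 * ((ξ i) ^ 2 * ‖ft (u : Sp d → ℂ) ξ‖ ^ 2)) +
        E * ‖ft (u : Sp d → ℂ) ξ‖ ^ 2 := by
    funext ξ
    rw [← Finset.mul_sum, ← Finset.sum_mul, hh, EuclideanSpace.norm_sq_eq]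
    have h2 : ∀ j : Fin d, ‖ξ j‖ ^ 2 = (ξ j) ^ 2 := fun j => by rw [Real.norm_eq_abs, sq_abs]
    simp only [h2]
    ring
  have h0' : Integrable (fun ξ : Eu d => E * ‖ft (u : Sp d → ℂ) ξ‖ ^ 2) := by
    refine (h0.const_mul E).congr (Eventually.of_forall fun ξ => ?_)
    simp
  rw [e, integral_add (integrable_finsetSum _ fun i _ => hI i) h0',
    integral_finsetSum _ (fun i _ => hI i), integral_const_mul, FA_mass, kin]
  congr 1
  exact Finset.sum_congr rfl fun i _ => (FK_one u i).symm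

end Pool.Agent.H87.LTI
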