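import Pool.Agent.H87.LTI.FB
import Pool.Agent.H87.LTI.FK

/-!
ROW FC (100 lines).  Pointwise bound for the low frequency parts of a family which is orthonormal for the form `kin + E mass`.
`FC_one`: `‖lowp τ u x‖ ≤ ∫ cut ‖û‖ = ∫ (cut/√h) (√h ‖û‖)`, Cauchy–Schwarz (`integral_mul_le_Lp_mul_Lq_of_nonneg` or `MeasureTheory.integral_mul_norm_le_Lp_mul_Lq` with `p = q = 2`; or the discriminant), `h = hh E ξ ≥ E > 0`; `cut²/h` is bounded
with compact support, so integrable.  So `‖lowp τ u x‖² ≤ a (kin 0 u + E mass u)`, `a = ∫ cut²/h` (`FK_main`).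
`FC_main`: let `z j = lowp τ (u j) x` and `w = ∑ conj (z j) • u j`.  `FB_sum`: `lowp τ w x = ∑ ‖z j‖² = S`, `kin 0 w + E mass w = ∑ ‖z j‖² = S` (`hu`), so `S² ≤ a S`, hence `S ≤ a`.
-/

open MeasureTheory Complex Set Filter Topology
open scoped ENNReal NNReal ContDiff ComplexConjugate FourierTransform SchwartzMap

noncomputable section

namespace Pool.Agent.H87.LTI

open Pool.Agent.H2.LTM

variable {d : ℕ}

theorem FC_hh_pos {E : ℝ} (hE : 0 < E) (ξ : Eu d) : 0 < hh E ξ := by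
  unfold hh
  positivity

theorem FC_hh_cont (E : ℝ) : Continuous (fun ξ : Eu d => hh E ξ) := by
  unfold hh
  fun_prop

theorem FC_cut_cont (τ : ℝ) : Continuous (fun ξ : Eu d => cut τ ξ) := by
  unfold cut
  exact (bmp d).continuous.comp (continuous_const_smul _)

theorem FC_cs {X : Type*} [MeasurableSpace X] {μ : Measure X} {f g h : X → ℝ}
    (h0 : ∀ x, 0 < h x) (hf : Integrable (fun x => f x ^ 2 / h x) μ)
    (hg : Integrable (fun x => h x * g x ^ 2) μ) (hfg : Integrable (fun x => f x * g x) μ) :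
    (∫ x, f x * g x ∂μ) ^ 2 ≤ (∫ x, f x ^ 2 / h x ∂μ) * ∫ x, h x * g x ^ 2 ∂μ := by
  have key : ∀ t : ℝ, 0 ≤ (∫ x, h x * g x ^ 2 ∂μ) * (t * t) + (-2 * ∫ x, f x * g x ∂μ) * t +
      ∫ x, f x ^ 2 / h x ∂μ := by
    intro t
    have e1 : (∫ x, h x * g x ^ 2 ∂μ) * (t * t) + (-2 * ∫ x, f x * g x ∂μ) * t +
        ∫ x, f x ^ 2 / h x ∂μ = ∫ x, (t * t) * (h x * g x ^ 2) + (-2 * t) * (f x * g x) +
          f x ^ 2 / h x ∂μ := by
      have i1 : Integrable (fun x => (t * t) * (h x * g x ^ 2)) μ := hg.const_mul _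
      have i2 : Integrable (fun x => (-2 * t) * (f x * g x)) μ := hfg.const_mul _
      have i3 : Integrable (fun x => (t * t) * (h x * g x ^ 2) + (-2 * t) * (f x * g x)) μ :=
        i1.add i2
      rw [integral_add i3 hf, integral_add i1 i2, integral_const_mul, integral_const_mul]
      ring
    rw [e1]
    refine integral_nonneg fun x => ?_
    show 0 ≤ (t * t) * (h x * g x ^ 2) + (-2 * t) * (f x * g x) + f x ^ 2 / h x
    have h1 := h0 x
    have e2 : (t * t) * (h x * g x ^ 2) + (-2 * t) * (f x * g x) + f x ^ 2 / h x =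
        (t * h x * g x - f x) ^ 2 / h x := by
      field_simp
      ring
    rw [e2]
    positivity
  have hd := discrim_le_zero key
  unfold discrim at hd
  nlinarith

theorem FC_int2 (u : TF d) (τ : ℝ) :
    Integrable (fun ξ : Eu d => cut τ ξ * ‖ft (u : Sp d → ℂ) ξ‖) := by
  refine (FA_int1 u).norm.bdd_mul (FC_cut_cont τ).aestronglyMeasurable (c := 1) ?_
  refine Filter.Eventually.of_forall fun ξ => ?_
  rw [Real.norm_eq_abs, abs_of_nonneg (cut_nonneg τ ξ)]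
  exact cut_le_one τ ξ

theorem FC_le (u : TF d) (τ : ℝ) (x : Sp d) :
    ‖lowp τ (u : Sp d → ℂ) x‖ ≤ ∫ ξ : Eu d, cut τ ξ * ‖ft (u : Sp d → ℂ) ξ‖ := by
  rw [FB_eq]
  refine (norm_integral_le_integral_norm _).trans (le_of_eq ?_)
  congr 1
  funext ξ
  rw [norm_mul, norm_mul, Complex.norm_exp_ofReal_mul_I, one_mul, Complex.norm_real,
    Real.norm_eq_abs, abs_of_nonneg (cut_nonneg τ ξ)]

theorem FC_int {E τ : ℝ} (hE : 0 < E) (hτ : 0 < τ) :
    Integrable (fun ξ : Eu d => cut τ ξ ^ 2 / hh E ξ) := by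
  have hc : Continuous (fun ξ : Eu d => cut τ ξ ^ 2 / hh E ξ) :=
    ((FC_cut_cont τ).pow 2).div (FC_hh_cont E) fun ξ => (FC_hh_pos hE ξ).ne'
  refine hc.integrable_of_hasCompactSupport ?_
  refine HasCompactSupport.intro (isCompact_closedBall (0 : Eu d) (2 * √τ)) fun ξ hξ => ?_
  have h1 : 2 * √τ < ‖ξ‖ := by
    simpa [Metric.mem_closedBall, dist_zero_right] using hξ
  have h2 : 4 * τ ≤ ‖ξ‖ ^ 2 := by
    have h3 : (2 * √τ) ^ 2 ≤ ‖ξ‖ ^ 2 := pow_le_pow_left₀ (by positivity) h1.le 2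
    have h4 : (2 * √τ) ^ 2 = 4 * τ := by
      rw [mul_pow, Real.sq_sqrt hτ.le]
      norm_num
    rwa [h4] at h3
  rw [cut_zero hτ h2]
  simp

theorem FC_one {E τ : ℝ} (hE : 0 < E) (hτ : 0 < τ) (u : TF d) (x : Sp d) :
    ‖lowp τ (u : Sp d → ℂ) x‖ ^ 2 ≤ (∫ ξ : Eu d, cut τ ξ ^ 2 / hh E ξ) *
      (kin 0 (u : Sp d → ℂ) + E * mass (u : Sp d → ℂ)) := by
  have h1 := FC_le u τ x
  have h2 := FC_cs (μ := (volume : Measure (Eu d))) (f := fun ξ : Eu d => cut τ ξ)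
    (g := fun ξ => ‖ft (u : Sp d → ℂ) ξ‖) (h := fun ξ => hh E ξ) (fun ξ => FC_hh_pos hE ξ)
    (FC_int hE hτ) (FK_int u E) (FC_int2 u τ)
  rw [FK_main] at h2
  exact (pow_le_pow_left₀ (norm_nonneg _) h1 2).trans h2

theorem FC_main {E τ : ℝ} (hE : 0 < E) (hτ : 0 < τ) {n : ℕ} (u : Fin n → TF d)
    (hu : ∀ c : Fin n → ℂ, kin 0 ((∑ i, c i • u i : TF d) : Sp d → ℂ) +
      E * mass ((∑ i, c i • u i : TF d) : Sp d → ℂ) = ∑ i, ‖c i‖ ^ 2) (x : Sp d) :
    ∑ i, ‖lowp τ (u i : Sp d → ℂ) x‖ ^ 2 ≤ ∫ ξ : Eu d, cut τ ξ ^ 2 / hh E ξ := by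
  set a := ∫ ξ : Eu d, cut τ ξ ^ 2 / hh E ξ with ha
  have ha0 : 0 ≤ a := integral_nonneg fun ξ => div_nonneg (sq_nonneg _) (FC_hh_pos hE ξ).le
  set S := ∑ i, ‖lowp τ (u i : Sp d → ℂ) x‖ ^ 2 with hS
  have hS0 : 0 ≤ S := Finset.sum_nonneg fun i _ => by positivity
  have h1 := FC_one hE hτ (∑ i, (starRingEnd ℂ) (lowp τ (u i : Sp d → ℂ) x) • u i : TF d) x
  rw [hu, FB_sum] at h1
  have h2 : (∑ i, (starRingEnd ℂ) (lowp τ (u i : Sp d → ℂ) x) * lowp τ (u i : Sp d → ℂ) x) =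
      ((S : ℝ) : ℂ) := by
    rw [hS]
    push_cast
    refine Finset.sum_congr rfl fun i _ => ?_
    rw [mul_comm, Complex.mul_conj, Complex.normSq_eq_norm_sq]
    push_cast
    ring
  rw [h2, Complex.norm_real, Real.norm_eq_abs, abs_of_nonneg hS0] at h1
  have h3 : ∑ i, ‖(starRingEnd ℂ) (lowp τ (u i : Sp d → ℂ) x)‖ ^ 2 = S := by
    rw [hS]
    refine Finset.sum_congr rfl fun i _ => ?_
    rw [Complex.norm_conj]
  rw [h3, ← ha] at h1
  rcases hS0.eq_or_lt with h | h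
  · rw [← h]
    exact ha0
  · rw [sq] at h1
    exact le_of_mul_le_mul_right h1 h

end Pool.Agent.H87.LTI
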