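import Pool.Agent.H87.LTI.FB

/-!
ROW FD (130 lines).  The density bound `∫ cut²/h ≤ C E^(-γ) τ^(γ + d/2 - 1)`, `0 < γ < 1`, `γ + d/2 > 1`.
(1) `cut τ ξ ^ 2 ≤ exp (16π²) * exp (-4π²‖ξ‖²/τ)`: if `‖ξ‖² ≥ 4τ` the left side is `0` (`cut_zero`), else `4π²‖ξ‖²/τ ≤ 16π²`.
(2) `1/h = ∫_0^∞ exp(-s h) ds` (`h > 0`; as `∫⁻`: `ofReal (1/h) = ∫⁻ s in Ioi 0, ofReal (exp (-s h))`, `integral_exp_neg_mul_Ioi`-like lemmas).
(3) Tonelli: `∫⁻ ofReal(cut²/h) ≤ exp(16π²) ∫_0^∞ exp(-sE) ∫ exp(-4π²(s+1/τ)‖ξ‖²) dξ ds` and `∫ exp(-b‖ξ‖²) dξ = (π/b)^(d/2)` (`GaussianFourier.integral_rexp_neg_mul_sq_norm`, `finrank = d`), `b = 4π²(s+1/τ)`: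
  `(π/b)^(d/2) = (4π(s+1/τ))^(-d/2) ≤ (s+1/τ)^(-d/2)`.
(4) `exp(-sE) ≤ (sE)^(-γ)` (`y^γ ≤ exp y` for `y > 0`: `y^γ ≤ max 1 y`).
(5) `∫_0^∞ s^(-γ) (s+1/τ)^(-d/2) ds = τ^(γ+d/2-1) J` with `J = ∫_0^∞ σ^(-γ) (1+σ)^(-d/2) dσ` (substitution `s = σ/τ`, `SCL_subst` in H2/LTM/SCL.lean) and `J < ⊤`: on `(0,1]` the integrand is `≤ σ^(-γ)` (`γ < 1`), on `(1,∞)` it is
  `≤ σ^(-γ-d/2)` (`γ + d/2 > 1`).
So `C = exp(16π²) * J` (as a real number, `J ≠ ⊤`; add `1` to have `C > 0`).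
(The proof below is shorter: `E^γ ‖ξ‖^(2(1-γ)) ≤ h` and `‖η‖^(-2(1-γ))` is integrable on the ball of radius 2.)
-/

open MeasureTheory Complex Set Filter Topology
open scoped ENNReal NNReal ContDiff ComplexConjugate FourierTransform SchwartzMap

noncomputable section

namespace Pool.Agent.H87.LTI

open Pool.Agent.H2.LTM

theorem FD_int (d : ℕ) {γ : ℝ} (hγ1 : γ < 1) (hp : 1 < γ + d / 2) :
    Integrable ((Metric.ball (0 : Eu d) 2).indicator (fun η => ‖η‖ ^ (-(2 * (1 - γ))))) := by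
  rw [integrable_indicator_iff Metric.isOpen_ball.measurableSet]
  have hd : Module.finrank ℝ (Eu d) = d := finrank_euclideanSpace_fin
  refine integrableOn_ball_of_norm_le_rpow (C := 1) (α := 2 * (1 - γ)) ?_ ?_ ?_ ?_
  · rw [hd]
    by_contra h
    have h0 : d = 0 := by omega
    subst h0
    norm_num at hp
    linarith
  · rw [hd]
    linarith
  · filter_upwards with x
    rw [Real.norm_of_nonneg (by positivity), one_mul]
  · exact (measurable_norm.pow_const _).aestronglyMeasurable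

theorem FD_pt {γ a E : ℝ} (hγ : 0 < γ) (hγ1 : γ < 1) (ha : 0 < a) (hE : 0 < E) :
    1 / (a + E) ≤ E ^ (-γ) * a ^ (γ - 1) := by
  have h1 : E ^ γ * a ^ (1 - γ) ≤ a + E := by
    calc E ^ γ * a ^ (1 - γ) ≤ (a + E) ^ γ * (a + E) ^ (1 - γ) :=
          mul_le_mul (Real.rpow_le_rpow hE.le (by linarith) hγ.le)
            (Real.rpow_le_rpow ha.le (by linarith) (by linarith)) (by positivity) (by positivity)
      _ = a + E := by
          rw [← Real.rpow_add (by positivity)]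
          have : γ + (1 - γ) = 1 := by ring
          rw [this, Real.rpow_one]
  have h2 : E ^ (-γ) * a ^ (γ - 1) = 1 / (E ^ γ * a ^ (1 - γ)) := by
    rw [Real.rpow_neg hE.le, show γ - 1 = -(1 - γ) by ring, Real.rpow_neg ha.le]
    field_simp
  rw [h2]
  exact one_div_le_one_div_of_le (by positivity) h1

theorem FD_ptw (d : ℕ) {γ E τ : ℝ} (hγ : 0 < γ) (hγ1 : γ < 1) (hE : 0 < E) (hτ : 0 < τ)
    {ξ : Eu d} (hξ : ξ ≠ 0) : cut τ ξ ^ 2 / hh E ξ ≤ E ^ (-γ) * τ ^ (γ - 1) *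
      (Metric.ball (0 : Eu d) 2).indicator (fun η => ‖η‖ ^ (-(2 * (1 - γ)))) ((√τ)⁻¹ • ξ) := by
  have hs : 0 < √τ := Real.sqrt_pos.2 hτ
  have hn : 0 < ‖ξ‖ := norm_pos_iff.2 hξ
  rcases le_or_gt (4 * τ) (‖ξ‖ ^ 2) with h | h
  · rw [cut_zero hτ h]
    have h0 : 0 ≤ (Metric.ball (0 : Eu d) 2).indicator (fun η => ‖η‖ ^ (-(2 * (1 - γ))))
        ((√τ)⁻¹ • ξ) := indicator_nonneg (fun x _ => by positivity) _
    have h1 : (0 : ℝ) ^ 2 / hh E ξ = 0 := by simp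
    rw [h1]
    positivity
  · have hnorm : ‖(√τ)⁻¹ • ξ‖ = ‖ξ‖ / √τ := by
      rw [norm_smul, norm_inv, Real.norm_of_nonneg hs.le]
      field_simp
    have hmem : (√τ)⁻¹ • ξ ∈ Metric.ball (0 : Eu d) 2 := by
      rw [mem_ball_zero_iff, hnorm, div_lt_iff₀ hs]
      refine lt_of_pow_lt_pow_left₀ 2 (by positivity) ?_
      rw [mul_pow, Real.sq_sqrt hτ.le]
      linarith
    rw [indicator_of_mem hmem]
    have e1 : ‖(√τ)⁻¹ • ξ‖ ^ (-(2 * (1 - γ))) = (‖ξ‖ ^ 2) ^ (γ - 1) / τ ^ (γ - 1) := by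
      rw [hnorm, show -(2 * (1 - γ)) = 2 * (γ - 1) by ring, Real.rpow_mul (by positivity),
        Real.rpow_two, div_pow, Real.sq_sqrt hτ.le, Real.div_rpow (by positivity) hτ.le]
    have hτγ : 0 < τ ^ (γ - 1) := Real.rpow_pos_of_pos hτ _
    have e2 : E ^ (-γ) * τ ^ (γ - 1) * ‖(√τ)⁻¹ • ξ‖ ^ (-(2 * (1 - γ))) =
        E ^ (-γ) * (‖ξ‖ ^ 2) ^ (γ - 1) := by
      rw [e1]
      field_simp
    show _ ≤ E ^ (-γ) * τ ^ (γ - 1) * ‖(√τ)⁻¹ • ξ‖ ^ (-(2 * (1 - γ)))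
    rw [e2]
    refine le_trans ?_ (FD_pt hγ hγ1 (a := ‖ξ‖ ^ 2) (by positivity) hE)
    have hpi : 1 ≤ 4 * Real.pi ^ 2 := by
      nlinarith [Real.pi_gt_three]
    have hh1 : ‖ξ‖ ^ 2 + E ≤ hh E ξ := by
      unfold hh
      nlinarith [sq_nonneg ‖ξ‖]
    have hc1 : cut τ ξ ^ 2 ≤ 1 := by
      have h2 := cut_nonneg τ ξ
      have h3 := cut_le_one τ ξ
      nlinarith
    exact div_le_div₀ zero_le_one hc1 (by positivity) hh1

theorem FD_main (d : ℕ) {γ : ℝ} (hγ : 0 < γ) (hγ1 : γ < 1) (hp : 1 < γ + d / 2) :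
    ∃ C : ℝ, 0 < C ∧ ∀ E τ : ℝ, 0 < E → 0 < τ →
      ∫⁻ ξ : Eu d, ENNReal.ofReal (cut τ ξ ^ 2 / hh E ξ) ≤
        ENNReal.ofReal (C * E ^ (-γ) * τ ^ (γ + d / 2 - 1)) := by
  obtain ⟨G, hGdef⟩ : ∃ G : Eu d → ℝ, G =
      (Metric.ball (0 : Eu d) 2).indicator (fun η => ‖η‖ ^ (-(2 * (1 - γ)))) := ⟨_, rfl⟩
  have hG : Integrable G := by
    rw [hGdef]
    exact FD_int d hγ1 hp
  have hG0 : ∀ η, 0 ≤ G η := by
    intro η
    rw [hGdef]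
    exact indicator_nonneg (fun x _ => by positivity) _
  have hI : 0 ≤ ∫ η, G η := integral_nonneg hG0
  have hd1 : 1 ≤ d := by
    by_contra h
    have h0 : d = 0 := by omega
    subst h0
    norm_num at hp
    linarith
  have hnt : Nontrivial (Eu d) := by
    apply Module.nontrivial_of_finrank_pos (R := ℝ)
    rw [finrank_euclideanSpace_fin]
    omega
  refine ⟨(∫ η, G η) + 1, by linarith, fun E τ hE hτ => ?_⟩
  have hs : 0 < √τ := Real.sqrt_pos.2 hτ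
  have hpt : ∀ᵐ ξ : Eu d, ENNReal.ofReal (cut τ ξ ^ 2 / hh E ξ) ≤
      ENNReal.ofReal (E ^ (-γ) * τ ^ (γ - 1) * G ((√τ)⁻¹ • ξ)) := by
    have h0 : ∀ᵐ ξ : Eu d, ξ ≠ 0 := by
      rw [ae_iff]
      simp
    filter_upwards [h0] with ξ hξ
    rw [hGdef]
    exact ENNReal.ofReal_le_ofReal (FD_ptw d hγ hγ1 hE hτ hξ)
  refine le_trans (lintegral_mono_ae hpt) ?_
  have hi : Integrable (fun ξ : Eu d => E ^ (-γ) * τ ^ (γ - 1) * G ((√τ)⁻¹ • ξ)) :=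
    (hG.comp_smul (inv_ne_zero hs.ne')).const_mul _
  rw [← ofReal_integral_eq_lintegral_ofReal hi (Eventually.of_forall fun ξ => by
    have := hG0 ((√τ)⁻¹ • ξ)
    show 0 ≤ E ^ (-γ) * τ ^ (γ - 1) * G ((√τ)⁻¹ • ξ)
    positivity)]
  refine ENNReal.ofReal_le_ofReal ?_
  rw [integral_const_mul, Measure.integral_comp_inv_smul_of_nonneg volume G hs.le,
    finrank_euclideanSpace_fin, smul_eq_mul]
  have e1 : √τ ^ d = τ ^ ((d : ℝ) / 2) := by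
    rw [Real.sqrt_eq_rpow, ← Real.rpow_natCast, ← Real.rpow_mul hτ.le]
    congr 1
    ring
  have e2 : τ ^ (γ + d / 2 - 1) = τ ^ (γ - 1) * τ ^ ((d : ℝ) / 2) := by
    rw [← Real.rpow_add hτ]
    congr 1
    ring
  rw [e1, e2]
  have h1 : 0 ≤ E ^ (-γ) * (τ ^ (γ - 1) * τ ^ ((d : ℝ) / 2)) := by positivity
  nlinarith

end Pool.Agent.H87.LTI
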