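import Pool.Agent.H87.LTI.Defs

/-!
# FD0: definitions for the Fourier part
-/

open MeasureTheory Complex Set Filter Topology
open scoped ENNReal NNReal ContDiff ComplexConjugate FourierTransform SchwartzMap

noncomputable section

namespace Pool.Agent.H87.LTI

open Pool.Agent.H2.LTM

/-- Euclidean space with the Euclidean norm -/
abbrev Eu (d : ℕ) := EuclideanSpace ℝ (Fin d)

/-- a function on `Sp d` viewed on Euclidean space -/
def lft {d : ℕ} (u : Sp d → ℂ) : Eu d → ℂ := fun y => u (WithLp.ofLp y)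

/-- Fourier transform -/
def ft {d : ℕ} (u : Sp d → ℂ) : Eu d → ℂ := 𝓕 (lft u)

/-- the symbol `4π²|ξ|² + E` of `-Δ + E` -/
def hh {d : ℕ} (E : ℝ) (ξ : Eu d) : ℝ := 4 * Real.pi ^ 2 * ‖ξ‖ ^ 2 + E

/-- a smooth bump function: `1` on the unit ball, `0` off the ball of radius `2` -/
def bmp (d : ℕ) : ContDiffBump (0 : Eu d) := ⟨1, 2, one_pos, one_lt_two⟩

/-- low frequency cut-off -/
def cut {d : ℕ} (τ : ℝ) (ξ : Eu d) : ℝ := bmp d ((√τ)⁻¹ • ξ)

/-- low frequency part of `u` -/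
def lowp {d : ℕ} (τ : ℝ) (u : Sp d → ℂ) (x : Sp d) : ℂ :=
  𝓕⁻ (fun ξ : Eu d => (cut τ ξ : ℂ) * ft u ξ) (WithLp.toLp 2 x)

end Pool.Agent.H87.LTI
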