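import Pool.Agent.H87.LTI.Defs

/-!
ROW IN (70 lines).  The infima `LT γ d`, `LTmag γ d` are themselves constants.
Let `I = Iq (γ + d/2) V ≠ ⊤`.  If `I = 0` then `riesz γ A V = 0` (`FIN_zero`, H2/LTM/FIN.lean, with `lam = 1`).  Otherwise `riesz γ A V / I ≤ K` for every constant `K` (`ENNReal.div_le_iff`), so `riesz γ A V / I ≤ LT γ d`
(`le_sInf`), i.e. `riesz γ A V ≤ LT γ d * I`.  The same for `LTmag`.  `LT_le`, `LTmag_le`: `sInf_le`.  `LT_le_LTmag`: every magnetic constant is a constant for `A = 0` (`adm_zero`).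
-/

open MeasureTheory Complex Set Filter Topology
open scoped ENNReal NNReal ContDiff ComplexConjugate

noncomputable section

namespace Pool.Agent.H87.LTI

open Pool.Agent.H2.LTM

theorem IN_holds {γ : ℝ} {d : ℕ} {A : Sp d → Sp d} {S : Set ℝ≥0∞}
    (hS : ∀ K ∈ S, Holds γ A K) : Holds γ A (sInf S) := by
  intro V hV h0 hI
  by_cases hI0 : Iq (γ + d / 2) V = 0
  · have h1 := FIN_zero (γ := γ) (A := A) hV h0 hI0 1
    have h2 : (fun x => (1 : ℝ) * V x) = V := by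
      funext x
      rw [one_mul]
    rw [h2] at h1
    rw [h1]
    exact bot_le
  · refine (ENNReal.div_le_iff hI0 hI).1 ?_
    refine le_sInf fun K hK => ?_
    exact (ENNReal.div_le_iff hI0 hI).2 (hS K hK V hV h0 hI)

theorem holds_LT (γ : ℝ) (d : ℕ) : Holds γ (0 : Sp d → Sp d) (LT γ d) :=
  IN_holds fun _ hK => isLT_iff.1 hK

theorem holds_LTmag (γ : ℝ) {d : ℕ} {A : Sp d → Sp d} (hA : Adm A) : Holds γ A (LTmag γ d) :=
  IN_holds fun _ hK => isLTmag_iff.1 hK A hA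

theorem LT_le {γ : ℝ} {d : ℕ} {K : ℝ≥0∞} (h : Holds γ (0 : Sp d → Sp d) K) : LT γ d ≤ K :=
  sInf_le (isLT_iff.2 h)

theorem LTmag_le {γ : ℝ} {d : ℕ} {K : ℝ≥0∞} (h : ∀ A : Sp d → Sp d, Adm A → Holds γ A K) :
    LTmag γ d ≤ K :=
  sInf_le (isLTmag_iff.2 h)

theorem LT_le_LTmag (γ : ℝ) (d : ℕ) : LT γ d ≤ LTmag γ d :=
  LT_le (holds_LTmag γ adm_zero)

end Pool.Agent.H87.LTI
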