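import Pool.Agent.H87.LTI.LV
import Pool.Agent.H87.LTI.IQ

/-!
ROW TC (110 lines).  The unbounded part, from a weak type bound.
`Weak γ A K`: `E^γ * lv A V E ≤ K * ∫ V^(γ+d/2)` for all `E > 0`.
* `weak_of_holds`: `riesz γ A V ≥ ∫_{0<s<E} γ s^(γ-1) lv A V s ds ≥ lv A V E * ∫_0^E γ s^(γ-1) ds = E^γ lv A V E` (`lv_anti`; `integral_rpow` or `∫⁻` version).
* `TC_main`: for `E > 0` put `W = hi (KE) V / η`.  `Iq (γ1+d/2) W = η^(-(γ1+d/2)) Iq (γ1+d/2) (hi (KE) V)` (`iq_div`), finite by `iq_hi` (with `p = γ+d/2`).  So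
  `lv A W E ≤ E^(-γ1) K1 η^(-(γ1+d/2)) ∫_x (hi (KE) V x)^(γ1+d/2)`.  Multiply by `γ E^(γ-1)` and integrate over `E ∈ Ioi 0` (`lintegral_mono`; Tonelli for the right side, which is measurable in `(E, x)`):
  `∫_x V^(γ1+d/2) ∫_{0 < E < V(x)/K} γ E^(γ-1-γ1) dE dx = ∫_x V^(γ1+d/2) (γ/(γ-γ1)) (V/K)^(γ-γ1) dx = γ/(γ-γ1) K^(-(γ-γ1)) ∫ V^(γ+d/2)`.
  (`(hi (KE) V x)^q = if V x ≤ KE then 0 else V x^q`; for `V x = 0` everything is `0`.)
-/

open MeasureTheory Complex Set Filter Topology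
open scoped ENNReal NNReal ContDiff ComplexConjugate

noncomputable section

namespace Pool.Agent.H87.LTI

open Pool.Agent.H2.LTM

/-- weak type inequality -/
def Weak {d : ℕ} (γ : ℝ) (A : Sp d → Sp d) (K : ℝ≥0∞) : Prop :=
  ∀ V : Sp d → ℝ, Measurable V → (∀ x, 0 ≤ V x) → Iq (γ + d / 2) V ≠ ⊤ → ∀ E : ℝ, 0 < E →
    ENNReal.ofReal (E ^ γ) * lv A V E ≤ K * Iq (γ + d / 2) V

/-- integral of a power over an initial interval -/
theorem TC_int {a b : ℝ} (ha : 0 < a) (hb : 0 < b) :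
    ∫⁻ s in Ioc (0 : ℝ) b, ENNReal.ofReal (s ^ (a - 1)) = ENNReal.ofReal (b ^ a / a) := by
  have h1 : IntegrableOn (fun s : ℝ => s ^ (a - 1)) (Ioc 0 b) :=
    (intervalIntegrable_iff_integrableOn_Ioc_of_le hb.le).1
      (intervalIntegral.intervalIntegrable_rpow' (by linarith))
  rw [← ofReal_integral_eq_lintegral_ofReal h1
    ((ae_restrict_iff' measurableSet_Ioc).2 (Eventually.of_forall
      fun s hs => Real.rpow_nonneg hs.1.le _))]
  congr 1
  rw [← intervalIntegral.integral_of_le hb.le, integral_rpow (Or.inl (by linarith))]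
  rw [sub_add_cancel, Real.zero_rpow ha.ne', sub_zero]

/-- integral of a multiple of a power over an initial interval -/
theorem TC_int' {a b c : ℝ} (ha : 0 < a) (hb : 0 < b) (hc : 0 ≤ c) :
    ∫⁻ s in Ioc (0 : ℝ) b, ENNReal.ofReal (c * s ^ (a - 1)) = ENNReal.ofReal (c * (b ^ a / a)) := by
  have h : ∀ s : ℝ, ENNReal.ofReal (c * s ^ (a - 1)) =
      ENNReal.ofReal c * ENNReal.ofReal (s ^ (a - 1)) := fun s => ENNReal.ofReal_mul hc
  simp_rw [h]
  have hm : Measurable (fun s : ℝ => ENNReal.ofReal (s ^ (a - 1))) :=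
    ENNReal.measurable_ofReal.comp (measurable_id.pow_const (a - 1))
  rw [lintegral_const_mul _ hm, TC_int ha hb, ← ENNReal.ofReal_mul hc]

theorem TC_hi_meas {d : ℕ} {V : Sp d → ℝ} (hV : Measurable V) (K q : ℝ) :
    Measurable (fun z : ℝ × Sp d => ENNReal.ofReal (hi (K * z.1) V z.2 ^ q)) := by
  refine ENNReal.measurable_ofReal.comp (Measurable.pow_const ?_ q)
  unfold hi
  exact Measurable.ite (measurableSet_le (hV.comp measurable_snd)
    (measurable_const.mul measurable_fst)) measurable_const (hV.comp measurable_snd)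

/-- the inner integral -/
theorem TC_inner {d : ℕ} {γ1 γ q : ℝ} (h1 : 0 < γ1) (h : γ1 < γ) (hq : q = γ1 + d / 2)
    {V : Sp d → ℝ} (h0 : ∀ x, 0 ≤ V x) {K : ℝ} (hK : 0 < K) (x : Sp d) :
    ∫⁻ E in Ioi (0 : ℝ), ENNReal.ofReal (γ * E ^ (γ - 1) * E ^ (-γ1)) *
        ENNReal.ofReal (hi (K * E) V x ^ q) ≤
      ENNReal.ofReal (γ / (γ - γ1) * K ^ (-(γ - γ1))) * ENNReal.ofReal (V x ^ (γ + d / 2)) := by
  have hd : (0 : ℝ) ≤ d := Nat.cast_nonneg d
  rcases (h0 x).eq_or_lt with hx | hx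
  · have hz : ∀ E ∈ Ioi (0 : ℝ), ENNReal.ofReal (γ * E ^ (γ - 1) * E ^ (-γ1)) *
        ENNReal.ofReal (hi (K * E) V x ^ q) = 0 := by
      intro E hE
      have h2 : hi (K * E) V x = 0 := by
        unfold hi
        rw [if_pos]
        rw [← hx]
        exact mul_nonneg hK.le (le_of_lt hE)
      rw [h2, Real.zero_rpow (by linarith), ENNReal.ofReal_zero, mul_zero]
    rw [setLIntegral_congr_fun measurableSet_Ioi hz]
    simp
  · have hb : 0 < V x / K := div_pos hx hK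
    have hz : ∀ E ∈ Ioi (0 : ℝ), ENNReal.ofReal (γ * E ^ (γ - 1) * E ^ (-γ1)) *
        ENNReal.ofReal (hi (K * E) V x ^ q) ≤ (Ioc 0 (V x / K)).indicator
          (fun E => ENNReal.ofReal ((γ * V x ^ q) * E ^ ((γ - γ1) - 1))) E := by
      intro E hE
      have hE0 : 0 < E := hE
      by_cases h3 : V x ≤ K * E
      · have h2 : hi (K * E) V x = 0 := by
          unfold hi
          rw [if_pos h3]
        rw [h2, Real.zero_rpow (by linarith), ENNReal.ofReal_zero, mul_zero]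
        exact zero_le
      · have h2 : hi (K * E) V x = V x := by
          unfold hi
          rw [if_neg h3]
        have h4 : E ∈ Ioc 0 (V x / K) := by
          refine ⟨hE0, ?_⟩
          rw [le_div_iff₀ hK, mul_comm]
          exact (not_le.1 h3).le
        rw [indicator_of_mem h4, h2, ← ENNReal.ofReal_mul (by
          have := Real.rpow_nonneg hE0.le (γ - 1)
          have := Real.rpow_nonneg hE0.le (-γ1)
          have : 0 < γ := by linarith
          positivity)]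
        refine ENNReal.ofReal_le_ofReal (le_of_eq ?_)
        have h5 : E ^ ((γ - γ1) - 1) = E ^ (γ - 1) * E ^ (-γ1) := by
          rw [← Real.rpow_add hE0]
          congr 1
          ring
        rw [h5]
        ring
    calc _ ≤ ∫⁻ E in Ioi (0 : ℝ), (Ioc 0 (V x / K)).indicator
          (fun E => ENNReal.ofReal ((γ * V x ^ q) * E ^ ((γ - γ1) - 1))) E :=
        setLIntegral_mono' measurableSet_Ioi hz
      _ ≤ ∫⁻ E, (Ioc 0 (V x / K)).indicator
          (fun E => ENNReal.ofReal ((γ * V x ^ q) * E ^ ((γ - γ1) - 1))) E :=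
        setLIntegral_le_lintegral _ _
      _ = ∫⁻ E in Ioc 0 (V x / K), ENNReal.ofReal ((γ * V x ^ q) * E ^ ((γ - γ1) - 1)) :=
        lintegral_indicator measurableSet_Ioc _
      _ = ENNReal.ofReal ((γ * V x ^ q) * ((V x / K) ^ (γ - γ1) / (γ - γ1))) :=
        TC_int' (by linarith) hb (mul_nonneg (by linarith) (Real.rpow_nonneg hx.le _))
      _ = _ := by
        rw [← ENNReal.ofReal_mul (by
          have := Real.rpow_nonneg hK.le (-(γ - γ1))
          have h6 : 0 < γ - γ1 := by linarith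
          have h7 : 0 < γ := by linarith
          positivity)]
        congr 1
        have h8 : V x ^ (γ + d / 2) = V x ^ q * V x ^ (γ - γ1) := by
          rw [← Real.rpow_add hx]
          congr 1
          rw [hq]
          ring
        rw [h8, Real.div_rpow hx.le hK.le, Real.rpow_neg hK.le]
        have h9 : K ^ (γ - γ1) ≠ 0 := (Real.rpow_pos_of_pos hK _).ne'
        have h10 : γ - γ1 ≠ 0 := by linarith
        field_simp

theorem weak_of_holds {d : ℕ} {A : Sp d → Sp d} {γ : ℝ} (hγ : 0 < γ) {K : ℝ≥0∞}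
    (H : Holds γ A K) : Weak γ A K := by
  intro V hV h0 hI E hE
  refine le_trans ?_ (H V hV h0 hI)
  rw [riesz_eq]
  calc ENNReal.ofReal (E ^ γ) * lv A V E
      = (∫⁻ s in Ioc (0 : ℝ) E, ENNReal.ofReal (γ * s ^ (γ - 1))) * lv A V E := by
        rw [TC_int' hγ hE hγ.le]
        congr 2
        field_simp
    _ = ∫⁻ s in Ioc (0 : ℝ) E, ENNReal.ofReal (γ * s ^ (γ - 1)) * lv A V E := by
        rw [lintegral_mul_const]
        exact ENNReal.measurable_ofReal.comp (measurable_const.mul (measurable_id.pow_const _))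
    _ ≤ ∫⁻ s in Ioc (0 : ℝ) E, ENNReal.ofReal (γ * s ^ (γ - 1)) * lv A V s := by
        refine setLIntegral_mono' measurableSet_Ioc fun s hs => ?_
        gcongr
        exact lv_anti hs.2
    _ ≤ ∫⁻ s in Ioi (0 : ℝ), ENNReal.ofReal (γ * s ^ (γ - 1)) * lv A V s :=
        lintegral_mono_set Ioc_subset_Ioi_self

theorem TC_main {d : ℕ} {A : Sp d → Sp d} {γ1 γ : ℝ} (h1 : 0 < γ1) (h : γ1 < γ)
    (hp : 1 ≤ γ1 + d / 2) {K1 : ℝ≥0∞} (H : Weak γ1 A K1) {V : Sp d → ℝ} (hV : Measurable V)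
    (h0 : ∀ x, 0 ≤ V x) (hI : Iq (γ + d / 2) V ≠ ⊤) {K η : ℝ} (hK : 0 < K) (hη : 0 < η) :
    ∫⁻ E in Ioi (0 : ℝ), ENNReal.ofReal (γ * E ^ (γ - 1)) *
        lv A (fun x => hi (K * E) V x / η) E ≤
      ENNReal.ofReal (γ / (γ - γ1) * K ^ (-(γ - γ1)) * η ^ (-(γ1 + d / 2))) * K1 *
        Iq (γ + d / 2) V := by
  have hd : (0 : ℝ) ≤ d := Nat.cast_nonneg d
  obtain ⟨q, hq⟩ : ∃ q : ℝ, q = γ1 + d / 2 := ⟨_, rfl⟩
  have hq1 : 1 ≤ q := hq ▸ hp
  have hstep : ∀ E ∈ Ioi (0 : ℝ), ENNReal.ofReal (γ * E ^ (γ - 1)) *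
      lv A (fun x => hi (K * E) V x / η) E ≤
      K1 * ENNReal.ofReal (η ^ (-q)) * ∫⁻ x, ENNReal.ofReal (γ * E ^ (γ - 1) * E ^ (-γ1)) *
        ENNReal.ofReal (hi (K * E) V x ^ q) := by
    intro E hE
    have hE0 : 0 < E := hE
    have hW := H (fun x => hi (K * E) V x / η) ((measurable_hi hV _).div_const η)
      (fun x => div_nonneg (hi_nonneg h0 _ x) hη.le)
    have hdiv := iq_div (measurable_hi hV (K * E)) (hi_nonneg h0 (K * E)) (γ1 + d / 2) hη
    have hfin : Iq (γ1 + d / 2) (hi (K * E) V) ≠ ⊤ := by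
      refine ne_top_of_le_ne_top (ENNReal.mul_ne_top ENNReal.ofReal_ne_top hI)
        (iq_hi (p := γ + d / 2) hV h0 (by linarith) (by linarith) (mul_pos hK hE0))
    have hW2 := hW (by rw [hdiv]; exact ENNReal.mul_ne_top ENNReal.ofReal_ne_top hfin) E hE0
    rw [hdiv, ← hq] at hW2
    have hEp : 0 < E ^ γ1 := Real.rpow_pos_of_pos hE0 _
    have hlv : lv A (fun x => hi (K * E) V x / η) E ≤
        ENNReal.ofReal (E ^ (-γ1)) * (K1 * (ENNReal.ofReal (η ^ (-q)) * Iq q (hi (K * E) V))) := by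
      calc lv A (fun x => hi (K * E) V x / η) E
          = ENNReal.ofReal (E ^ (-γ1)) * (ENNReal.ofReal (E ^ γ1) *
              lv A (fun x => hi (K * E) V x / η) E) := by
            rw [← mul_assoc, ← ENNReal.ofReal_mul (Real.rpow_nonneg hE0.le _),
              ← Real.rpow_add hE0]
            simp
        _ ≤ _ := by gcongr
    have hm : Measurable (fun x => ENNReal.ofReal (hi (K * E) V x ^ q)) :=
      ENNReal.measurable_ofReal.comp ((measurable_hi hV _).pow_const q)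
    rw [lintegral_const_mul _ hm]
    calc ENNReal.ofReal (γ * E ^ (γ - 1)) * lv A (fun x => hi (K * E) V x / η) E
        ≤ ENNReal.ofReal (γ * E ^ (γ - 1)) * (ENNReal.ofReal (E ^ (-γ1)) *
          (K1 * (ENNReal.ofReal (η ^ (-q)) * Iq q (hi (K * E) V)))) := by gcongr
      _ = _ := by
        rw [ENNReal.ofReal_mul (p := γ * E ^ (γ - 1)) (mul_nonneg (by linarith)
          (Real.rpow_nonneg hE0.le _))]
        unfold Iq
        ring
  have hjm : Measurable (fun z : ℝ × Sp d => ENNReal.ofReal (γ * z.1 ^ (γ - 1) * z.1 ^ (-γ1)) *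
        ENNReal.ofReal (hi (K * z.1) V z.2 ^ q)) := by
    refine Measurable.mul (ENNReal.measurable_ofReal.comp ?_) (TC_hi_meas hV K q)
    exact (measurable_const.mul (measurable_fst.pow_const _)).mul (measurable_fst.pow_const _)
  calc ∫⁻ E in Ioi (0 : ℝ), ENNReal.ofReal (γ * E ^ (γ - 1)) *
        lv A (fun x => hi (K * E) V x / η) E
      ≤ ∫⁻ E in Ioi (0 : ℝ), K1 * ENNReal.ofReal (η ^ (-q)) *
          ∫⁻ x, ENNReal.ofReal (γ * E ^ (γ - 1) * E ^ (-γ1)) *
            ENNReal.ofReal (hi (K * E) V x ^ q) := setLIntegral_mono' measurableSet_Ioi hstep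
    _ = K1 * ENNReal.ofReal (η ^ (-q)) * ∫⁻ E in Ioi (0 : ℝ),
          ∫⁻ x, ENNReal.ofReal (γ * E ^ (γ - 1) * E ^ (-γ1)) *
            ENNReal.ofReal (hi (K * E) V x ^ q) := by
        rw [lintegral_const_mul _ (Measurable.lintegral_prod_right' hjm)]
    _ = K1 * ENNReal.ofReal (η ^ (-q)) * ∫⁻ x, ∫⁻ E in Ioi (0 : ℝ),
          ENNReal.ofReal (γ * E ^ (γ - 1) * E ^ (-γ1)) *
            ENNReal.ofReal (hi (K * E) V x ^ q) := by
        rw [lintegral_lintegral_swap hjm.aemeasurable]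
    _ ≤ K1 * ENNReal.ofReal (η ^ (-q)) * ∫⁻ x,
          ENNReal.ofReal (γ / (γ - γ1) * K ^ (-(γ - γ1))) *
            ENNReal.ofReal (V x ^ (γ + d / 2)) := by
        gcongr with x
        exact TC_inner h1 h hq h0 hK x
    _ = K1 * ENNReal.ofReal (η ^ (-q)) * (ENNReal.ofReal (γ / (γ - γ1) * K ^ (-(γ - γ1))) *
          Iq (γ + d / 2) V) := by
        have hm : Measurable (fun x : Sp d => ENNReal.ofReal (V x ^ (γ + d / 2))) :=
          ENNReal.measurable_ofReal.comp (hV.pow_const _)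
        rw [lintegral_const_mul _ hm]
        rfl
    _ = _ := by
        rw [← hq, ENNReal.ofReal_mul (p := γ / (γ - γ1) * K ^ (-(γ - γ1))) (by
          have := Real.rpow_nonneg hK.le (-(γ - γ1))
          have h6 : 0 < γ - γ1 := by linarith
          have h7 : 0 < γ := by linarith
          positivity)]
        ring

end Pool.Agent.H87.LTI
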