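import Pool.Agent.H87.LTI.TB
import Pool.Agent.H87.LTI.TC

/-!
ROW IP (100 lines).  THE INTERPOLATION INEQUALITY, and strong from weak.
Let `V` be given, `p = γ + d/2`, `Iq p V ≠ ⊤`.  `V = lo (KE) V + hi (KE) V` (`lo_add_hi`), both locally integrable (`iq_loc`; `lo, hi ≤ V`).  `lv_split` for every `E`:
`lv A V E ≤ lv A (lo (KE) V / (1-η)) E + lv A (hi (KE) V / η) E`.  With `U = V/(1-η)`, `κ = K/(1-η)`: `lo (KE) V / (1-η) = lo (κE) U` as functions (`V x ≤ KE` iff `V x/(1-η) ≤ κE`).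
`riesz γ A V ≤ ∫ γ E^(γ-1) lv A (lo (κE) U) E + ∫ γ E^(γ-1) lv A (hi (KE) V/η) E`: `lintegral_add_right` (the second integrand is measurable: `E ↦ lv A (hi (KE) V/η) E` is antitone on `Ioi 0`: for `E ≤ E'`
`hi (KE') V ≤ hi (KE) V` (`hi_anti`), `lv_mono`, `lv_anti`; use `AntitoneOn`, or replace the function by one which is constant/`0` for `E ≤ 0`; measurability on the restricted measure `AEMeasurable` is enough
(`aemeasurable_restrict_of_antitoneOn`)).
`interp`: `TB_main` (for `U`, `Iq p U = (1-η)^(-p) Iq p V` by `iq_div`) and `TC_main` (`weak_of_holds`); the constant of the first term: `(γ/γ0) (K/(1-η))^(γ0-γ) (1-η)^(-p) = (γ/γ0) K^(γ0-γ) (1-η)^(-(γ0+d/2))`.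
`strong_of_weak`: `K = η = 1/2`; the first term vanishes (`lv_zero`: `lo (E/2) V/(1/2) ≤ E`), only the second one remains: `K^(-(γ-γ1)) η^(-(γ1+d/2)) = 2^(γ+d/2)`.
-/

open MeasureTheory Complex Set Filter Topology
open scoped ENNReal NNReal ContDiff ComplexConjugate

noncomputable section

namespace Pool.Agent.H87.LTI

open Pool.Agent.H2.LTM

theorem IP_loc {d : ℕ} {V W : Sp d → ℝ} (hV : LocallyIntegrable V) (hW : Measurable W)
    (h0 : ∀ x, 0 ≤ W x) (h : ∀ x, W x ≤ V x) : LocallyIntegrable W := by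
  refine hV.mono hW.aestronglyMeasurable (Eventually.of_forall fun x => ?_)
  rw [Real.norm_of_nonneg (h0 x), Real.norm_of_nonneg ((h0 x).trans (h x))]
  exact h x

theorem IP_div {d : ℕ} {W : Sp d → ℝ} (hW : LocallyIntegrable W) (c : ℝ) :
    LocallyIntegrable (fun x => W x / c) := by
  have h := hW.smul c⁻¹
  have e : (c⁻¹ • W) = fun x => W x / c := by
    funext x
    simp [div_eq_inv_mul]
  rwa [e] at h

theorem IP_lo_le {d : ℕ} {V : Sp d → ℝ} (h0 : ∀ x, 0 ≤ V x) (a : ℝ) (x : Sp d) :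
    lo a V x ≤ V x := by
  unfold lo
  split_ifs
  · exact le_refl _
  · exact h0 x

theorem IP_hi_le {d : ℕ} {V : Sp d → ℝ} (h0 : ∀ x, 0 ≤ V x) (a : ℝ) (x : Sp d) :
    hi a V x ≤ V x := by
  unfold hi
  split_ifs
  · exact h0 x
  · exact le_refl _

theorem IP_split {d : ℕ} {A : Sp d → Sp d} (hA : Adm A) {V : Sp d → ℝ} (hV : Measurable V)
    (h0 : ∀ x, 0 ≤ V x) (hL : LocallyIntegrable V) (γ : ℝ) {K η : ℝ} (hK : 0 < K) (hη : 0 < η)
    (hη1 : η < 1) :
    riesz γ A V ≤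
      (∫⁻ E in Ioi (0 : ℝ), ENNReal.ofReal (γ * E ^ (γ - 1)) *
        lv A (fun x => lo (K * E) V x / (1 - η)) E) +
      ∫⁻ E in Ioi (0 : ℝ), ENNReal.ofReal (γ * E ^ (γ - 1)) *
        lv A (fun x => hi (K * E) V x / η) E := by
  have hlo : ∀ a, LocallyIntegrable (lo a V) := fun a =>
    IP_loc hL (measurable_lo hV a) (lo_nonneg h0 a) (IP_lo_le h0 a)
  have hhi : ∀ a, LocallyIntegrable (hi a V) := fun a =>
    IP_loc hL (measurable_hi hV a) (hi_nonneg h0 a) (IP_hi_le h0 a)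
  have hm : AEMeasurable (fun E : ℝ => lv A (fun x => hi (K * E) V x / η) E)
      (volume.restrict (Ioi (0 : ℝ))) := by
    refine aemeasurable_restrict_of_antitoneOn measurableSet_Ioi ?_
    intro E hE E' hE' hEE
    refine (lv_anti hEE).trans (lv_mono (IP_div (hhi _) η) (IP_div (hhi _) η) (fun x => ?_) E)
    exact div_le_div_of_nonneg_right (hi_anti h0 (mul_le_mul_of_nonneg_left hEE hK.le) x) hη.le
  have hm2 : AEMeasurable (fun E : ℝ => ENNReal.ofReal (γ * E ^ (γ - 1)) *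
      lv A (fun x => hi (K * E) V x / η) E) (volume.restrict (Ioi (0 : ℝ))) := by
    refine AEMeasurable.mul ?_ hm
    exact (Measurable.aemeasurable (by fun_prop))
  rw [← lintegral_add_right' _ hm2, riesz_eq]
  refine setLIntegral_mono' measurableSet_Ioi fun E hE => ?_
  rw [← mul_add]
  exact mul_le_mul_right (lv_split hA (hlo _) (hhi _) (lo_add_hi (K * E)) hη hη1 E) _

theorem interp {d : ℕ} {A : Sp d → Sp d} (hA : Adm A) {γ1 γ γ0 : ℝ} (h1 : 0 < γ1) (h : γ1 < γ)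
    (h0 : γ < γ0) (hp : 1 ≤ γ1 + d / 2) {K0 K1 : ℝ≥0∞} (H0 : Holds γ0 A K0) (H1 : Holds γ1 A K1)
    {K η : ℝ} (hK : 0 < K) (hη : 0 < η) (hη1 : η < 1) :
    Holds γ A (ENNReal.ofReal (γ / γ0 * K ^ (γ0 - γ) * (1 - η) ^ (-(γ0 + d / 2))) * K0 +
      ENNReal.ofReal (γ / (γ - γ1) * K ^ (-(γ - γ1)) * η ^ (-(γ1 + d / 2))) * K1) := by
  intro V hV hV0 hI
  have hγ : 0 < γ := h1.trans h
  have hp' : 1 ≤ γ + (d : ℝ) / 2 := by linarith
  have hL : LocallyIntegrable V := iq_loc hV hV0 hp' hI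
  have h1η : 0 < 1 - η := by linarith
  refine (IP_split hA hV hV0 hL γ hK hη hη1).trans ?_
  rw [add_mul]
  refine add_le_add ?_ (TC_main h1 h hp (weak_of_holds h1 H1) hV hV0 hI hK hη)
  set U : Sp d → ℝ := fun x => V x / (1 - η) with hU
  have hUm : Measurable U := hV.div_const _
  have hU0 : ∀ x, 0 ≤ U x := fun x => div_nonneg (hV0 x) h1η.le
  have hIU : Iq (γ + d / 2) U = ENNReal.ofReal ((1 - η) ^ (-(γ + d / 2))) * Iq (γ + d / 2) V :=
    iq_div hV hV0 _ h1η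
  have hIU' : Iq (γ + d / 2) U ≠ ⊤ := by
    rw [hIU]
    exact ENNReal.mul_ne_top ENNReal.ofReal_ne_top hI
  have hκ : 0 < K / (1 - η) := div_pos hK h1η
  have e : ∀ E : ℝ, (fun x => lo (K * E) V x / (1 - η)) = lo (K / (1 - η) * E) U := by
    intro E
    funext x
    have hiff : U x ≤ K / (1 - η) * E ↔ V x ≤ K * E := by
      rw [hU]
      simp only
      rw [div_mul_eq_mul_div, div_le_div_iff_of_pos_right h1η]
    unfold lo
    simp only [hiff]
    split_ifs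
    · rfl
    · simp
  simp only [e]
  refine (TB_main hγ h0 hp' H0 hUm hU0 hIU' hκ).trans (le_of_eq ?_)
  rw [hIU]
  have hr : γ / γ0 * (K / (1 - η)) ^ (γ0 - γ) * (1 - η) ^ (-(γ + (d : ℝ) / 2)) =
      γ / γ0 * K ^ (γ0 - γ) * (1 - η) ^ (-(γ0 + (d : ℝ) / 2)) := by
    rw [Real.div_rpow hK.le h1η.le, div_eq_mul_inv (K ^ (γ0 - γ)), ← Real.rpow_neg h1η.le]
    have : (1 - η) ^ (-(γ0 + (d : ℝ) / 2)) =
        (1 - η) ^ (-(γ0 - γ)) * (1 - η) ^ (-(γ + (d : ℝ) / 2)) := by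
      rw [← Real.rpow_add h1η]
      congr 1
      ring
    rw [this]
    ring
  rw [← hr, ENNReal.ofReal_mul (p := γ / γ0 * (K / (1 - η)) ^ (γ0 - γ))
    (mul_nonneg (div_nonneg hγ.le (hγ.trans h0).le) (Real.rpow_nonneg hκ.le _))]
  ring

theorem strong_of_weak {d : ℕ} {A : Sp d → Sp d} (hA : Adm A) {γ1 γ : ℝ} (h1 : 0 < γ1)
    (h : γ1 < γ) (hp : 1 ≤ γ1 + d / 2) {K1 : ℝ≥0∞} (H1 : Weak γ1 A K1) :
    Holds γ A (ENNReal.ofReal (γ / (γ - γ1) * 2 ^ (γ + d / 2)) * K1) := by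
  intro V hV hV0 hI
  have hγ : 0 < γ := h1.trans h
  have hp' : 1 ≤ γ + (d : ℝ) / 2 := by linarith
  have hL : LocallyIntegrable V := iq_loc hV hV0 hp' hI
  have h2 : (0 : ℝ) < 1 / 2 := by norm_num
  refine (IP_split hA hV hV0 hL γ h2 h2 (by norm_num)).trans ?_
  have hz : (∫⁻ E in Ioi (0 : ℝ), ENNReal.ofReal (γ * E ^ (γ - 1)) *
        lv A (fun x => lo (1 / 2 * E) V x / (1 - 1 / 2)) E) = 0 := by
    rw [← lintegral_zero (μ := volume.restrict (Ioi (0 : ℝ)))]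
    refine setLIntegral_congr_fun measurableSet_Ioi fun E hE => ?_
    have hE' : (0 : ℝ) < E := hE
    have hz1 : lv A (fun x => lo (1 / 2 * E) V x / (1 - 1 / 2)) E = 0 := by
      refine lv_zero (IP_div (IP_loc hL (measurable_lo hV _) (lo_nonneg hV0 _)
        (IP_lo_le hV0 _)) _) (fun x => ?_)
      have : lo (1 / 2 * E) V x ≤ 1 / 2 * E := by
        unfold lo
        split_ifs with hc
        · exact hc
        · positivity
      rw [div_le_iff₀ (by norm_num)]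
      linarith
    simp only [hz1, mul_zero]
  rw [hz, zero_add]
  refine (TC_main h1 h hp H1 hV hV0 hI h2 h2).trans (le_of_eq ?_)
  congr 3
  rw [mul_assoc, ← Real.rpow_add h2, one_div, Real.inv_rpow (by norm_num), ← Real.rpow_neg
    (by norm_num)]
  congr 2
  ring

end Pool.Agent.H87.LTI
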