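import Pool.Agent.H87.LTI.WK
import Pool.Agent.H87.LTI.IP
import Pool.Agent.H87.LTI.IN

/-!
ROW FN (60 lines).  The Lieb–Thirring constants are finite for `γ > 0`, `γ + d/2 > 1`.
Let `d ≥ 1`. Choose `γ1` with `max 0 (1 - d/2) < γ1 < min γ 1` (`exists_between`; `1 - d/2 ≤ 1/2 < 1`).  `WK_main` gives `Weak γ1 0 K`, `K ≠ ⊤`; `strong_of_weak` (with `adm_zero`) gives `Holds γ 0 (ofReal (...) * K)`, so `LT γ d ≤ ofReal (...) * K < ⊤` (`LT_le`).
`LTmag γ d < ⊤`: `comparison_small` (H2/LTM/FIN.lean) with `a = 1`: `LTmag γ d ≤ ofReal (...) * LT γ d`.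
-/

open MeasureTheory Complex Set Filter Topology
open scoped ENNReal NNReal ContDiff ComplexConjugate

noncomputable section

namespace Pool.Agent.H87.LTI

open Pool.Agent.H2.LTM

theorem LT_lt_top {d : ℕ} (hd : 1 ≤ d) {γ : ℝ} (hγ : 0 < γ) (hp : 1 < γ + d / 2) : LT γ d < ⊤ := by
  have hd' : (1 : ℝ) ≤ d := by exact_mod_cast hd
  have hlt : max 0 (1 - (d : ℝ) / 2) < min γ 1 := by
    refine max_lt (lt_min hγ one_pos) (lt_min (by linarith) (by linarith))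
  obtain ⟨γ1, h1, h2⟩ := exists_between hlt
  have h10 : 0 < γ1 := lt_of_le_of_lt (le_max_left _ _) h1
  have h11 : 1 < γ1 + d / 2 := by
    have := lt_of_le_of_lt (le_max_right _ _) h1
    linarith
  have h12 : γ1 < 1 := lt_of_lt_of_le h2 (min_le_right _ _)
  have h13 : γ1 < γ := lt_of_lt_of_le h2 (min_le_left _ _)
  obtain ⟨K, hK, hW⟩ := WK_main d h10 h12 h11
  exact lt_of_le_of_lt (LT_le (strong_of_weak adm_zero h10 h13 h11.le hW))
    (ENNReal.mul_lt_top ENNReal.ofReal_lt_top (lt_top_iff_ne_top.2 hK))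

theorem LTmag_lt_top {d : ℕ} (hd : 1 ≤ d) {γ : ℝ} (hγ : 0 < γ) (hp : 1 < γ + d / 2) : LTmag γ d < ⊤ :=
  lt_of_le_of_lt (comparison_small hγ hp.le one_pos)
    (ENNReal.mul_lt_top ENNReal.ofReal_lt_top (LT_lt_top hd hγ hp))

end Pool.Agent.H87.LTI
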