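import Pool.Agent.H87.LTI.IN
import Pool.Agent.H87.LTI.LV
import Pool.Agent.H87.LTI.IQ

/-!
ROW PO (100 lines).  `LT γ d > 0`.
Take a nonzero `u : TF d` (a smooth bump function: `ContDiffBump`, composed with `ofReal`; for `d = 0` it is a nonzero constant, also covered).  `K = tsupport u` is compact; let `V = c` on `K` and `0` elsewhere (measurable, `≥ 0`,
`Iq p V = ofReal (c^p) * volume K < ⊤` for `p > 0`, locally integrable).  `pot V u = c * mass u` and `mass u > 0` (`mass_pos`); choose `c > 0` with `kin 0 u - c mass u + mass u < 0`.  For `0 < E ≤ 1` the form is negative at `u`, hence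
on the line `ℂ u` minus `0` (`IsHF.smul_apply`), so `levels 0 V E ≥ 1` (`le_cnt_iff` with `n = 1`).  So `riesz γ 0 V ≥ ∫_0^1 γ E^(γ-1) dE = 1 > 0` (only positivity is needed).  If `LT γ d = 0` then `holds_LT` gives `riesz γ 0 V ≤ 0 * Iq = 0`.
-/

open MeasureTheory Complex Set Filter Topology
open scoped ENNReal NNReal ContDiff ComplexConjugate

noncomputable section

namespace Pool.Agent.H87.LTI

open Pool.Agent.H2.LTM

theorem exists_test (d : ℕ) : ∃ u : TF d, u ≠ 0 := by
  let b : ContDiffBump (0 : Sp d) := ⟨1, 2, one_pos, one_lt_two⟩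
  have h1 : ContDiff ℝ ∞ (fun x => ((b x : ℝ) : ℂ)) :=
    Complex.ofRealCLM.contDiff.comp b.contDiff
  have h2 : HasCompactSupport (fun x => ((b x : ℝ) : ℂ)) :=
    b.hasCompactSupport.comp_left (g := fun r : ℝ => (r : ℂ)) (by simp)
  refine ⟨⟨fun x => ((b x : ℝ) : ℂ), h1, h2⟩, fun h => ?_⟩
  have h3 : (fun x => ((b x : ℝ) : ℂ)) (0 : Sp d) = 0 := by
    have h4 := congrArg (fun w : TF d => (w : Sp d → ℂ) 0) h
    exact h4
  have h5 : b (0 : Sp d) = 1 :=
    b.one_of_mem_closedBall (Metric.mem_closedBall_self (by norm_num))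
  simp only [h5, Complex.ofReal_one] at h3
  exact one_ne_zero h3

theorem LT_pos {γ : ℝ} (d : ℕ) (hγ : 0 < γ) (hp : 1 ≤ γ + d / 2) : 0 < LT γ d := by
  classical
  obtain ⟨u, hu⟩ := exists_test d
  have hm := mass_pos u hu
  have hk := kin_nonneg (0 : Sp d → Sp d) (u : Sp d → ℂ)
  set m := mass (u : Sp d → ℂ) with hmdef
  set k := kin (0 : Sp d → Sp d) (u : Sp d → ℂ) with hkdef
  set c : ℝ := (k + m + 1) / m with hc
  have hc0 : 0 < c := div_pos (by linarith) hm
  have hcm : c * m = k + m + 1 := div_mul_cancel₀ _ hm.ne'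
  have hp0 : 0 < γ + d / 2 := by linarith
  set K : Set (Sp d) := tsupport (u : Sp d → ℂ) with hK
  have hKc : IsCompact K := u.2.2
  have hKm : MeasurableSet K := hKc.isClosed.measurableSet
  set V : Sp d → ℝ := K.indicator (fun _ => c) with hV
  have hVm : Measurable V := measurable_const.indicator hKm
  have hV0 : ∀ x, 0 ≤ V x := fun x => Set.indicator_nonneg (fun _ _ => hc0.le) x
  have hI : Iq (γ + d / 2) V ≠ ⊤ := by
    have e : (fun x => ENNReal.ofReal (V x ^ (γ + d / 2))) =
        K.indicator (fun _ => ENNReal.ofReal (c ^ (γ + d / 2))) := by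
      funext x
      by_cases hx : x ∈ K
      · rw [hV, Set.indicator_of_mem hx, Set.indicator_of_mem hx]
      · rw [hV, Set.indicator_of_notMem hx, Set.indicator_of_notMem hx,
          Real.zero_rpow hp0.ne', ENNReal.ofReal_zero]
    unfold Iq
    rw [e, lintegral_indicator hKm, setLIntegral_const]
    exact ENNReal.mul_ne_top ENNReal.ofReal_ne_top hKc.measure_lt_top.ne
  have hloc : LocallyIntegrable V := locInt hVm hV0 hp hI
  have hpot : pot V (u : Sp d → ℂ) = c * m := by
    rw [hmdef]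
    unfold pot mass
    rw [← integral_const_mul]
    refine integral_congr_ae (Filter.Eventually.of_forall fun x => ?_)
    simp only
    by_cases hx : x ∈ K
    · rw [hV, Set.indicator_of_mem hx]
    · rw [image_eq_zero_of_notMem_tsupport hx]
      simp
  have hlev : ∀ E ∈ Ioc (0 : ℝ) 1, 1 ≤ lv (0 : Sp d → Sp d) V E := by
    intro E hE
    have hf := LV_hf (adm_zero (d := d)) hloc E
    have hQ0 : (0 : ℝ) ≤ (fun w : TF d => kin (0 : Sp d → Sp d) (w : Sp d → ℂ) -
        pot V (w : Sp d → ℂ) + E * mass (w : Sp d → ℂ)) 0 := by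
      have h := hf.smul_apply 0 (0 : TF d)
      rw [zero_smul, norm_zero, zero_pow two_ne_zero, zero_mul] at h
      exact h.symm.le
    have h1 : ((1 : ℕ) : ℕ∞) ≤ levels (0 : Sp d → Sp d) V E := by
      refine (le_cnt_iff _ hQ0 1).2 ⟨fun _ => u, fun a ha => ?_⟩
      have ha0 : a 0 ≠ 0 := by
        intro h0
        refine ha (funext fun i => ?_)
        rw [Subsingleton.elim i 0]
        exact h0
      have e1 : ∑ i : Fin 1, a i • u = a 0 • u := by simp
      rw [e1, hf.smul_apply]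
      refine mul_neg_of_pos_of_neg (by positivity) ?_
      rw [hpot, ← hkdef, ← hmdef, hcm]
      have h2 : E * m ≤ 1 * m := mul_le_mul_of_nonneg_right hE.2 hm.le
      linarith
    unfold lv
    have h3 := ENat.toENNReal_le.2 h1
    simpa using h3
  have hr := holds_LT γ d V hVm hV0 hI
  rw [riesz_eq] at hr
  rw [pos_iff_ne_zero]
  intro h0
  rw [h0, zero_mul] at hr
  have hpos : 0 < ∫⁻ E in Ioc (0 : ℝ) 1, ENNReal.ofReal (γ * E ^ (γ - 1)) := by
    rw [setLIntegral_pos_iff (by fun_prop)]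
    have hsub : Ioc (0 : ℝ) 1 ⊆
        (Function.support fun E : ℝ => ENNReal.ofReal (γ * E ^ (γ - 1))) ∩ Ioc 0 1 := by
      intro E hE
      refine ⟨?_, hE⟩
      rw [Function.mem_support]
      have : 0 < γ * E ^ (γ - 1) := mul_pos hγ (Real.rpow_pos_of_pos hE.1 _)
      exact (ENNReal.ofReal_pos.2 this).ne'
    refine lt_of_lt_of_le ?_ (measure_mono hsub)
    rw [Real.volume_Ioc]
    simp
  have hle : ∫⁻ E in Ioc (0 : ℝ) 1, ENNReal.ofReal (γ * E ^ (γ - 1)) ≤
      ∫⁻ E in Ioi (0 : ℝ), ENNReal.ofReal (γ * E ^ (γ - 1)) * lv 0 V E := by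
    calc ∫⁻ E in Ioc (0 : ℝ) 1, ENNReal.ofReal (γ * E ^ (γ - 1))
        ≤ ∫⁻ E in Ioc (0 : ℝ) 1, ENNReal.ofReal (γ * E ^ (γ - 1)) * lv 0 V E := by
          refine setLIntegral_mono' measurableSet_Ioc fun E hE => ?_
          calc ENNReal.ofReal (γ * E ^ (γ - 1)) = ENNReal.ofReal (γ * E ^ (γ - 1)) * 1 :=
                (mul_one _).symm
            _ ≤ _ := mul_le_mul_right (hlev E hE) _
      _ ≤ _ := lintegral_mono_set Ioc_subset_Ioi_self
  exact absurd (hpos.trans_le (hle.trans hr)) (lt_irrefl _)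

end Pool.Agent.H87.LTI
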