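import Pool.Agent.H87.LTI.AL
import Pool.Agent.H87.LTI.PO
import Pool.Agent.H87.LTI.FN
import Pool.Agent.H87.LTI.CO

/-!
# Main: assembly
-/

open MeasureTheory Complex Set Filter Topology
open scoped ENNReal NNReal ContDiff ComplexConjugate

noncomputable section

namespace Pool.Agent.H87.LTI

open Pool.Agent.H2.LTM

theorem LT_interp {d : ℕ} {γ1 γ γ0 : ℝ} (h1 : 0 < γ1) (h : γ1 < γ) (h0 : γ < γ0)
    (hp : 1 ≤ γ1 + d / 2) {K η : ℝ} (hK : 0 < K) (hη : 0 < η) (hη1 : η < 1) :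
    LT γ d ≤ ENNReal.ofReal (cA (d / 2) γ γ0 K η) * LT γ0 d +
      ENNReal.ofReal (cB (d / 2) γ1 γ K η) * LT γ1 d :=
  LT_le (interp adm_zero h1 h h0 hp (holds_LT γ0 d) (holds_LT γ1 d) hK hη hη1)

theorem LTmag_interp {d : ℕ} {γ1 γ γ0 : ℝ} (h1 : 0 < γ1) (h : γ1 < γ) (h0 : γ < γ0)
    (hp : 1 ≤ γ1 + d / 2) {K η : ℝ} (hK : 0 < K) (hη : 0 < η) (hη1 : η < 1) :
    LTmag γ d ≤ ENNReal.ofReal (cA (d / 2) γ γ0 K η) * LTmag γ0 d +
      ENNReal.ofReal (cB (d / 2) γ1 γ K η) * LTmag γ1 d :=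
  LTmag_le fun _ hA => interp hA h1 h h0 hp (holds_LTmag γ0 hA) (holds_LTmag γ1 hA) hK hη hη1

theorem LT_cont (d : ℕ) (hd : 1 ≤ d) : ContinuousOn (fun γ => LT γ d) (rg (d / 2)) := by
  refine CO_main (by positivity) _ (fun γ hγ => LT_lt_top hd hγ.1 hγ.2) (cal d) ?_ ?_ ?_ ?_
  · intro γ hγ γ' h
    exact LT_le (aizenman_lieb hγ.1 h hγ.2.le (holds_LT γ d))
  · intro γ hγ
    exact cal_tendsto_right d hγ.1
  · intro γ hγ
    exact cal_tendsto_left d hγ.1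
  · intro γ1 h1 γ γ0 h h0 K η hK hη hη1
    exact LT_interp h1.1 h h0 h1.2.le hK hη hη1

theorem LTmag_cont (d : ℕ) (hd : 1 ≤ d) : ContinuousOn (fun γ => LTmag γ d) (rg (d / 2)) := by
  refine CO_main (by positivity) _ (fun γ hγ => LTmag_lt_top hd hγ.1 hγ.2) (cal d) ?_ ?_ ?_ ?_
  · intro γ hγ γ' h
    exact LTmag_le fun A hA => aizenman_lieb hγ.1 h hγ.2.le (holds_LTmag γ hA)
  · intro γ hγ
    exact cal_tendsto_right d hγ.1
  · intro γ hγ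
    exact cal_tendsto_left d hγ.1
  · intro γ1 h1 γ γ0 h h0 K η hK hη hη1
    exact LTmag_interp h1.1 h h0 h1.2.le hK hη hη1

end Pool.Agent.H87.LTI
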