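import Pool.Agent.H87.LTI.CO

/-!
# OP: optimisation of the interpolation inequality
-/

open Set Filter Topology
open scoped ENNReal NNReal

noncomputable section

namespace Pool.Agent.H87.LTI

/-- the constant of the interpolation inequality in product form, `γ = (1-t) γ0 + t γ1`. -/
def cC (b γ1 γ0 t : ℝ) : ℝ :=
  (((1 - t) * γ0 + t * γ1) / γ0) ^ (1 - t) *
  (((1 - t) * γ0 + t * γ1) / ((1 - t) * (γ0 - γ1))) ^ t *
  ((1 - t) ^ (-(1 - t)) * t ^ (-t)) *
  ((((1 - t) * γ0 + t * γ1) + b) ^ (((1 - t) * γ0 + t * γ1) + b) /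
    (((1 - t) * (γ0 + b)) ^ ((1 - t) * (γ0 + b)) * (t * (γ1 + b)) ^ (t * (γ1 + b))))

/-- minimum over `K` of `a K^(t D) + c K^(-(1-t) D)`. -/
theorem OP_K {a c t D : ℝ} (ha : 0 < a) (hc : 0 < c) (ht : 0 < t) (ht1 : t < 1) (hD : 0 < D) :
    ∃ K : ℝ, 0 < K ∧ a * K ^ (t * D) + c * K ^ (-((1 - t) * D)) =
      a ^ (1 - t) * c ^ t * ((1 - t) ^ (-(1 - t)) * t ^ (-t)) := by
  have h1t : 0 < 1 - t := by linarith
  set κ : ℝ := c * (1 - t) / (a * t) with hκ
  have hκ0 : 0 < κ := by positivity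
  refine ⟨κ ^ (1 / D), Real.rpow_pos_of_pos hκ0 _, ?_⟩
  have e1 : (κ ^ (1 / D)) ^ (t * D) = κ ^ t := by
    rw [← Real.rpow_mul hκ0.le]
    congr 1
    field_simp
  have e2 : (κ ^ (1 / D)) ^ (-((1 - t) * D)) = κ ^ t / κ := by
    rw [← Real.rpow_mul hκ0.le]
    have : 1 / D * -((1 - t) * D) = t - 1 := by
      field_simp
      ring
    rw [this, Real.rpow_sub_one hκ0.ne']
  rw [e1, e2]
  have e3 : a * κ ^ t + c * (κ ^ t / κ) = κ ^ t * (a / (1 - t)) := by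
    rw [hκ]
    field_simp
    ring
  rw [e3, hκ, Real.div_rpow (by positivity) (by positivity), Real.mul_rpow hc.le h1t.le,
    Real.mul_rpow ha.le ht.le, Real.rpow_neg h1t.le, Real.rpow_neg ht.le,
    Real.rpow_sub ha, Real.rpow_sub h1t, Real.rpow_one, Real.rpow_one]
  have p1 : 0 < a ^ t := Real.rpow_pos_of_pos ha _
  have p2 : 0 < t ^ t := Real.rpow_pos_of_pos ht _
  have p3 : 0 < (1 - t) ^ t := Real.rpow_pos_of_pos h1t _
  field_simp

theorem OP_main {b γ1 γ0 t : ℝ} (hb : 0 ≤ b) (h1 : 0 < γ1) (h : γ1 < γ0) (ht : 0 < t)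
    (ht1 : t < 1) {L L0 L1 : ℝ≥0∞} (hL0 : L0 ≠ 0) (hL0' : L0 ≠ ⊤) (hL1 : L1 ≠ 0) (hL1' : L1 ≠ ⊤)
    (H : ∀ K η : ℝ, 0 < K → 0 < η → η < 1 →
      L ≤ ENNReal.ofReal (cA b ((1 - t) * γ0 + t * γ1) γ0 K η) * L0 +
        ENNReal.ofReal (cB b γ1 ((1 - t) * γ0 + t * γ1) K η) * L1) :
    L ≤ ENNReal.ofReal (cC b γ1 γ0 t) * (L0 ^ (1 - t) * L1 ^ t) := by
  have h1t : 0 < 1 - t := by linarith
  have h0 : 0 < γ0 := by linarith
  have hDD : 0 < γ0 - γ1 := by linarith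
  set γ : ℝ := (1 - t) * γ0 + t * γ1 with hγ
  have hγ0 : 0 < γ := by positivity
  set x0 : ℝ := L0.toReal with hx0
  set x1 : ℝ := L1.toReal with hx1
  have hx0p : 0 < x0 := ENNReal.toReal_pos hL0 hL0'
  have hx1p : 0 < x1 := ENNReal.toReal_pos hL1 hL1'
  have eL0 : L0 = ENNReal.ofReal x0 := (ENNReal.ofReal_toReal hL0').symm
  have eL1 : L1 = ENNReal.ofReal x1 := (ENNReal.ofReal_toReal hL1').symm
  set p0 : ℝ := γ0 + b with hp0
  set p1 : ℝ := γ1 + b with hp1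
  set p : ℝ := γ + b with hp
  have hp0p : 0 < p0 := by positivity
  have hp1p : 0 < p1 := by positivity
  have hpp : 0 < p := by positivity
  have hpe : p = (1 - t) * p0 + t * p1 := by
    rw [hp, hp0, hp1, hγ]; ring
  set η : ℝ := t * p1 / p with hη
  have hη0 : 0 < η := by positivity
  have hη1' : 1 - η = (1 - t) * p0 / p := by
    rw [hη, eq_div_iff hpp.ne', sub_mul, div_mul_cancel₀ _ hpp.ne', hpe]
    ring
  have h1η : 0 < 1 - η := by rw [hη1']; positivity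
  have hη1 : η < 1 := by linarith
  have hγγ1 : γ - γ1 = (1 - t) * (γ0 - γ1) := by rw [hγ]; ring
  have hγ0γ : γ0 - γ = t * (γ0 - γ1) := by rw [hγ]; ring
  have hγγ1p : 0 < γ - γ1 := by rw [hγγ1]; positivity
  set a : ℝ := γ / γ0 * (1 - η) ^ (-p0) * x0 with ha
  set c : ℝ := γ / (γ - γ1) * η ^ (-p1) * x1 with hc
  have ha0 : 0 < a := by
    have := Real.rpow_pos_of_pos h1η (-p0)
    positivity
  have hc0 : 0 < c := by
    have := Real.rpow_pos_of_pos hη0 (-p1)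
    positivity
  obtain ⟨K, hK, hKe⟩ := OP_K ha0 hc0 ht ht1 hDD
  have hH := H K η hK hη0 hη1
  have hcA : ENNReal.ofReal (cA b γ γ0 K η) * L0 = ENNReal.ofReal (a * K ^ (t * (γ0 - γ1))) := by
    have hnn : 0 ≤ cA b γ γ0 K η := by
      unfold cA
      have := Real.rpow_pos_of_pos h1η (-(γ0 + b))
      have := Real.rpow_pos_of_pos hK (γ0 - γ)
      positivity
    rw [eL0, ← ENNReal.ofReal_mul hnn]
    congr 1
    rw [cA, ha, hγ0γ, ← hp0]
    ring
  have hcB : ENNReal.ofReal (cB b γ1 γ K η) * L1 =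
      ENNReal.ofReal (c * K ^ (-((1 - t) * (γ0 - γ1)))) := by
    have hnn : 0 ≤ cB b γ1 γ K η := by
      unfold cB
      have := Real.rpow_pos_of_pos hη0 (-(γ1 + b))
      have := Real.rpow_pos_of_pos hK (-(γ - γ1))
      positivity
    rw [eL1, ← ENNReal.ofReal_mul hnn]
    congr 1
    rw [cB, hc, hγγ1, ← hp1]
    ring
  rw [hcA, hcB, ← ENNReal.ofReal_add (by have := Real.rpow_pos_of_pos hK (t * (γ0 - γ1)); positivity)
    (by have := Real.rpow_pos_of_pos hK (-((1 - t) * (γ0 - γ1))); positivity), hKe] at hH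
  refine hH.trans (le_of_eq ?_)
  have hCnn : 0 ≤ cC b γ1 γ0 t := by
    unfold cC
    positivity
  rw [eL0, eL1, ENNReal.ofReal_rpow_of_pos hx0p, ENNReal.ofReal_rpow_of_pos hx1p,
    ← ENNReal.ofReal_mul (by positivity), ← ENNReal.ofReal_mul hCnn]
  congr 1
  -- the real identity
  have q0 : 0 < γ / γ0 := by positivity
  have q1 : 0 < γ / (γ - γ1) := by positivity
  have r0 : 0 < (1 - η) ^ (-p0) := Real.rpow_pos_of_pos h1η _
  have r1 : 0 < η ^ (-p1) := Real.rpow_pos_of_pos hη0 _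
  rw [ha, hc, Real.mul_rpow (by positivity) hx0p.le, Real.mul_rpow q0.le r0.le,
    Real.mul_rpow (by positivity) hx1p.le, Real.mul_rpow q1.le r1.le,
    ← Real.rpow_mul h1η.le, ← Real.rpow_mul hη0.le]
  have hkey : (1 - η) ^ (-p0 * (1 - t)) * η ^ (-p1 * t) =
      p ^ p / (((1 - t) * p0) ^ ((1 - t) * p0) * (t * p1) ^ (t * p1)) := by
    rw [hη1', hη, Real.div_rpow (by positivity) hpp.le, Real.div_rpow (by positivity) hpp.le]
    have e1 : -p0 * (1 - t) = -((1 - t) * p0) := by ring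
    have e2 : -p1 * t = -(t * p1) := by ring
    rw [e1, e2, Real.rpow_neg (by positivity), Real.rpow_neg hpp.le, Real.rpow_neg (by positivity),
      Real.rpow_neg hpp.le]
    have e3 : p ^ p = p ^ ((1 - t) * p0) * p ^ (t * p1) := by
      rw [← Real.rpow_add hpp, ← hpe]
    rw [e3]
    have s1 : 0 < ((1 - t) * p0) ^ ((1 - t) * p0) := Real.rpow_pos_of_pos (by positivity) _
    have s2 : 0 < (t * p1) ^ (t * p1) := Real.rpow_pos_of_pos (by positivity) _
    have s3 : 0 < p ^ ((1 - t) * p0) := Real.rpow_pos_of_pos hpp _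
    have s4 : 0 < p ^ (t * p1) := Real.rpow_pos_of_pos hpp _
    field_simp
  unfold cC
  rw [← hγ, ← hγγ1, ← hp0, ← hp1, ← hp, ← hkey]
  ring

end Pool.Agent.H87.LTI
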