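import Pool.Agent.H87.LTI.FC
import Pool.Agent.H87.LTI.FD

/-!
ROW RU (90 lines).  Rumin's inequality, first half (the rest is in RV.lean).  `u : Fin n → TF d` orthonormal for `kin + E mass`, `ρ(x) = ∑ ‖u_i(x)‖²`, `p = γ + d/2 > 1`.
(1) `RU_time`: `∫⁻_{τ>0} ∫⁻_x ‖u - lowp τ u‖² ≤ kin 0 u + E mass u`: `FB_main`, Tonelli, and `∫⁻_{τ>0} ofReal ((1 - cut τ ξ)²) ≤ ofReal (‖ξ‖²) ≤ ofReal (hh E ξ)` (the integrand is `≤ 1` and `0` for `τ ≥ ‖ξ‖²`), `FK_main`.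
(2) `RU_point`: Minkowski: for `τ` with `a = ∫ cut²/h ≤ ρ(x)/4`: `∑ ‖u_i(x) - lowp τ u_i (x)‖² ≥ ρ(x)/4`: otherwise `√ρ ≤ (∑‖u_i - l_i‖²)^(1/2) + (∑‖l_i‖²)^(1/2) < √ρ/2 + √ρ/2` (triangle inequality in `EuclideanSpace ℂ (Fin n)`; or
  `‖u‖² ≤ 2‖u-l‖² + 2‖l‖²` summed: `ρ ≤ 2 ∑‖u_i-l_i‖² + 2 ∑‖l_i‖² ≤ 2 ∑‖u_i-l_i‖² + ρ/2`, which is enough and simpler), `FC_main`.
-/

open MeasureTheory Complex Set Filter Topology
open scoped ENNReal NNReal ContDiff ComplexConjugate FourierTransform SchwartzMap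

noncomputable section

namespace Pool.Agent.H87.LTI

open Pool.Agent.H2.LTM

theorem RU_time {d : ℕ} {E : ℝ} (hE : 0 < E) (u : TF d) :
    ∫⁻ τ in Ioi (0 : ℝ), ∫⁻ x, ENNReal.ofReal (‖(u : Sp d → ℂ) x - lowp τ (u : Sp d → ℂ) x‖ ^ 2) ≤
      ENNReal.ofReal (kin 0 (u : Sp d → ℂ) + E * mass (u : Sp d → ℂ)) := by
  have hcm : Measurable (fun z : ℝ × Eu d =>
      ENNReal.ofReal ((1 - cut z.1 z.2) ^ 2 * ‖ft (u : Sp d → ℂ) z.2‖ ^ 2)) := by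
    refine ENNReal.measurable_ofReal.comp ?_
    exact ((measurable_const.sub cut_meas).pow_const 2).mul
      (((FA_cont u).measurable.comp measurable_snd).norm.pow_const 2)
  calc ∫⁻ τ in Ioi (0 : ℝ),
        ∫⁻ x, ENNReal.ofReal (‖(u : Sp d → ℂ) x - lowp τ (u : Sp d → ℂ) x‖ ^ 2)
      = ∫⁻ τ in Ioi (0 : ℝ), ∫⁻ ξ : Eu d,
          ENNReal.ofReal ((1 - cut τ ξ) ^ 2 * ‖ft (u : Sp d → ℂ) ξ‖ ^ 2) :=
        setLIntegral_congr_fun measurableSet_Ioi fun τ hτ => FB_main hτ u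
    _ = ∫⁻ ξ : Eu d, ∫⁻ τ in Ioi (0 : ℝ),
          ENNReal.ofReal ((1 - cut τ ξ) ^ 2 * ‖ft (u : Sp d → ℂ) ξ‖ ^ 2) :=
        lintegral_lintegral_swap hcm.aemeasurable
    _ ≤ ∫⁻ ξ : Eu d, ENNReal.ofReal (hh E ξ * ‖ft (u : Sp d → ℂ) ξ‖ ^ 2) := by
        refine lintegral_mono fun ξ => ?_
        calc ∫⁻ τ in Ioi (0 : ℝ),
              ENNReal.ofReal ((1 - cut τ ξ) ^ 2 * ‖ft (u : Sp d → ℂ) ξ‖ ^ 2)
            ≤ ∫⁻ τ in Ioi (0 : ℝ), (Iio (‖ξ‖ ^ 2)).indicator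
                (fun _ => ENNReal.ofReal (‖ft (u : Sp d → ℂ) ξ‖ ^ 2)) τ := by
              refine setLIntegral_mono' measurableSet_Ioi fun τ hτ => ?_
              by_cases h : τ < ‖ξ‖ ^ 2
              · rw [indicator_of_mem (show τ ∈ Iio (‖ξ‖ ^ 2) from h)]
                refine ENNReal.ofReal_le_ofReal ?_
                have h1 := cut_nonneg τ ξ
                have h2 := cut_le_one τ ξ
                have h3 : (1 - cut τ ξ) ^ 2 ≤ 1 := by nlinarith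
                have h4 : 0 ≤ ‖ft (u : Sp d → ℂ) ξ‖ ^ 2 := by positivity
                nlinarith
              · rw [cut_one hτ (not_lt.1 h)]
                simp
          _ = ENNReal.ofReal (‖ft (u : Sp d → ℂ) ξ‖ ^ 2) * volume (Ioo 0 (‖ξ‖ ^ 2)) := by
              rw [lintegral_indicator measurableSet_Iio, Measure.restrict_restrict measurableSet_Iio,
                lintegral_const, Measure.restrict_apply MeasurableSet.univ, univ_inter,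
                inter_comm, Ioi_inter_Iio]
          _ = ENNReal.ofReal (‖ξ‖ ^ 2 * ‖ft (u : Sp d → ℂ) ξ‖ ^ 2) := by
              rw [Real.volume_Ioo, sub_zero, mul_comm, ← ENNReal.ofReal_mul (by positivity)]
          _ ≤ ENNReal.ofReal (hh E ξ * ‖ft (u : Sp d → ℂ) ξ‖ ^ 2) := by
              refine ENNReal.ofReal_le_ofReal ?_
              refine mul_le_mul_of_nonneg_right ?_ (by positivity)
              unfold hh
              have h5 : (1 : ℝ) ≤ 4 * Real.pi ^ 2 := by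
                have := Real.pi_gt_three
                nlinarith
              have h6 : 0 ≤ ‖ξ‖ ^ 2 := by positivity
              nlinarith
    _ = ENNReal.ofReal (∫ ξ : Eu d, hh E ξ * ‖ft (u : Sp d → ℂ) ξ‖ ^ 2) := by
        rw [ofReal_integral_eq_lintegral_ofReal (FK_int u E)]
        refine Eventually.of_forall fun ξ => ?_
        show 0 ≤ hh E ξ * ‖ft (u : Sp d → ℂ) ξ‖ ^ 2
        unfold hh
        positivity
    _ = ENNReal.ofReal (kin 0 (u : Sp d → ℂ) + E * mass (u : Sp d → ℂ)) := by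
        rw [FK_main]

theorem RU_point {d : ℕ} {E τ : ℝ} (hE : 0 < E) (hτ : 0 < τ) {n : ℕ} (u : Fin n → TF d)
    (hu : ∀ c : Fin n → ℂ, kin 0 ((∑ i, c i • u i : TF d) : Sp d → ℂ) +
      E * mass ((∑ i, c i • u i : TF d) : Sp d → ℂ) = ∑ i, ‖c i‖ ^ 2) (x : Sp d)
    (h : ∫ ξ : Eu d, cut τ ξ ^ 2 / hh E ξ ≤ (∑ i, ‖(u i : Sp d → ℂ) x‖ ^ 2) / 4) :
    (∑ i, ‖(u i : Sp d → ℂ) x‖ ^ 2) / 4 ≤
      ∑ i, ‖(u i : Sp d → ℂ) x - lowp τ (u i : Sp d → ℂ) x‖ ^ 2 := by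
  have h1 := FC_main hE hτ u hu x
  have h2 : ∑ i, ‖(u i : Sp d → ℂ) x‖ ^ 2 ≤
      ∑ i, (2 * ‖(u i : Sp d → ℂ) x - lowp τ (u i : Sp d → ℂ) x‖ ^ 2 +
        2 * ‖lowp τ (u i : Sp d → ℂ) x‖ ^ 2) := by
    refine Finset.sum_le_sum fun i _ => ?_
    have h3 : ‖(u i : Sp d → ℂ) x‖ ≤ ‖(u i : Sp d → ℂ) x - lowp τ (u i : Sp d → ℂ) x‖ +
        ‖lowp τ (u i : Sp d → ℂ) x‖ := by
      have := norm_add_le ((u i : Sp d → ℂ) x - lowp τ (u i : Sp d → ℂ) x)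
        (lowp τ (u i : Sp d → ℂ) x)
      rwa [sub_add_cancel] at this
    have h4 := norm_nonneg ((u i : Sp d → ℂ) x)
    nlinarith [sq_nonneg (‖(u i : Sp d → ℂ) x - lowp τ (u i : Sp d → ℂ) x‖ -
      ‖lowp τ (u i : Sp d → ℂ) x‖), norm_nonneg ((u i : Sp d → ℂ) x - lowp τ (u i : Sp d → ℂ) x),
      norm_nonneg (lowp τ (u i : Sp d → ℂ) x)]
  rw [Finset.sum_add_distrib, ← Finset.mul_sum, ← Finset.mul_sum] at h2
  linarith

end Pool.Agent.H87.LTI
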