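import Pool.Agent.H87.LTI.RU

/-!
ROW RV (110 lines).  Rumin's inequality, second half.  `u : Fin n → TF d` orthonormal for `kin + E mass`, `ρ(x) = ∑ ‖u_i(x)‖²`, `p = γ + d/2 > 1`.
(`RU_time`, `RU_point` are in RU.lean.)
`RV_main`: let `C` be the constant of `FD_main`, `T(x) = (ρ(x) E^γ/(4C))^(1/(p-1))`.  For `0 < τ ≤ T(x)`: `C E^(-γ) τ^(p-1) ≤ ρ(x)/4` (`FC_int`, `ofReal_integral_eq_lintegral_ofReal` to pass from `∫⁻` to `∫`).  So
  `∫⁻_{τ>0} ∑ ‖u_i(x) - lowp τ u_i(x)‖² dτ ≥ (ρ(x)/4) T(x) = c E^(γ/(p-1)) ρ(x)^(p/(p-1))`, `c = (1/4) (4C)^(-1/(p-1))`.  Integrate over `x`, swap (`FB_meas` for measurability, `lintegral_lintegral_swap`), `RU_time` for each `i`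
  (`kin 0 (u_i) + E mass (u_i) = 1`, take `c = Pi.single i 1`): the total is `≤ n`.
-/

open MeasureTheory Complex Set Filter Topology
open scoped ENNReal NNReal ContDiff ComplexConjugate FourierTransform SchwartzMap

noncomputable section

namespace Pool.Agent.H87.LTI

open Pool.Agent.H2.LTM

theorem RV_meas {d : ℕ} (u : TF d) : Measurable (fun z : Sp d × ℝ =>
      lowp z.2 (u : Sp d → ℂ) z.1) := by
  have key : ∀ F : ℝ → Sp d → ℂ, Measurable (fun z : ℝ × Sp d => F z.1 z.2) →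
      Measurable (fun z : Sp d × ℝ => F z.2 z.1) := by
    intro F hF
    exact hF.comp (measurable_snd.prodMk measurable_fst)
  exact key (fun τ x => lowp τ (u : Sp d → ℂ) x) (FB_meas u)

theorem RV_swap {d n : ℕ} (g : Fin n → Sp d × ℝ → ℝ≥0∞) (hg : ∀ i, Measurable (g i)) :
    ∫⁻ x, ∫⁻ τ in Ioi (0 : ℝ), ∑ i, g i (x, τ) = ∑ i, ∫⁻ τ in Ioi (0 : ℝ), ∫⁻ x, g i (x, τ) := by
  have h1 : ∫⁻ x, ∫⁻ τ in Ioi (0 : ℝ), ∑ i, g i (x, τ) =
      ∫⁻ τ in Ioi (0 : ℝ), ∫⁻ x, ∑ i, g i (x, τ) := by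
    refine lintegral_lintegral_swap ?_
    exact (Finset.measurable_sum _ fun i _ => hg i).aemeasurable
  rw [h1]
  have h2 : ∀ τ : ℝ, ∫⁻ x, ∑ i, g i (x, τ) = ∑ i, ∫⁻ x, g i (x, τ) := fun τ =>
    lintegral_finsetSum _ fun i _ => (hg i).comp (measurable_id.prodMk measurable_const)
  rw [lintegral_congr h2]
  refine lintegral_finsetSum _ fun i _ => ?_
  exact Measurable.lintegral_prod_left' (hg i)

theorem RV_main (d : ℕ) {γ : ℝ} (hγ : 0 < γ) (hγ1 : γ < 1) (hp : 1 < γ + d / 2) :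
    ∃ c : ℝ, 0 < c ∧ ∀ E : ℝ, 0 < E → ∀ (n : ℕ) (u : Fin n → TF d),
      (∀ c : Fin n → ℂ, kin 0 ((∑ i, c i • u i : TF d) : Sp d → ℂ) +
        E * mass ((∑ i, c i • u i : TF d) : Sp d → ℂ) = ∑ i, ‖c i‖ ^ 2) →
      ENNReal.ofReal (c * E ^ (γ / (γ + d / 2 - 1))) *
        ∫⁻ x, ENNReal.ofReal ((∑ i, ‖(u i : Sp d → ℂ) x‖ ^ 2) ^
          ((γ + d / 2) / (γ + d / 2 - 1))) ≤ (n : ℝ≥0∞) := by
  obtain ⟨C, hC, hCb⟩ := FD_main d hγ hγ1 hp
  set a : ℝ := γ + d / 2 - 1 with ha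
  have ha0 : 0 < a := by rw [ha]; linarith
  refine ⟨1 / 4 * (1 / (4 * C)) ^ (1 / a), by positivity, ?_⟩
  intro E hE n u hu
  have hgm : ∀ i, Measurable (fun z : Sp d × ℝ =>
      ENNReal.ofReal (‖(u i : Sp d → ℂ) z.1 - lowp z.2 (u i : Sp d → ℂ) z.1‖ ^ 2)) := by
    intro i
    have h1 : Measurable (fun z : Sp d × ℝ => lowp z.2 (u i : Sp d → ℂ) z.1) := RV_meas (u i)
    have h2 : Measurable (fun z : Sp d × ℝ => (u i : Sp d → ℂ) z.1) :=
      (u i).2.1.continuous.measurable.comp measurable_fst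
    exact ((h2.sub h1).norm.pow_const 2).ennreal_ofReal
  -- pointwise lower bound
  have hpt : ∀ x : Sp d, ENNReal.ofReal (1 / 4 * (1 / (4 * C)) ^ (1 / a) * E ^ (γ / a)) *
      ENNReal.ofReal ((∑ i, ‖(u i : Sp d → ℂ) x‖ ^ 2) ^ ((γ + d / 2) / a)) ≤
      ∫⁻ τ in Ioi (0 : ℝ), ∑ i,
        ENNReal.ofReal (‖(u i : Sp d → ℂ) x - lowp τ (u i : Sp d → ℂ) x‖ ^ 2) := by
    intro x
    set ρ : ℝ := ∑ i, ‖(u i : Sp d → ℂ) x‖ ^ 2 with hρ
    have hρ0 : 0 ≤ ρ := Finset.sum_nonneg fun i _ => by positivity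
    set T : ℝ := (ρ * E ^ γ / (4 * C)) ^ (1 / a) with hT
    have hb0 : 0 ≤ ρ * E ^ γ / (4 * C) := by positivity
    have hT0 : 0 ≤ T := Real.rpow_nonneg hb0 _
    have hTa : T ^ a = ρ * E ^ γ / (4 * C) := by
      rw [hT, ← Real.rpow_mul hb0, one_div, inv_mul_cancel₀ ha0.ne', Real.rpow_one]
    have hEγ : E ^ (-γ) * E ^ γ = 1 := by
      rw [← Real.rpow_add hE, neg_add_cancel, Real.rpow_zero]
    have hlow : ∀ τ ∈ Ioc (0 : ℝ) T, ρ / 4 ≤
        ∑ i, ‖(u i : Sp d → ℂ) x - lowp τ (u i : Sp d → ℂ) x‖ ^ 2 := by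
      intro τ hτ
      have hint := FC_int (d := d) hE hτ.1
      have hnn : ∀ ξ : Eu d, 0 ≤ cut τ ξ ^ 2 / hh E ξ := by
        intro ξ
        have : 0 ≤ hh E ξ := by
          unfold hh
          positivity
        positivity
      have h1 : ∫ ξ : Eu d, cut τ ξ ^ 2 / hh E ξ ≤ C * E ^ (-γ) * τ ^ a := by
        have h2 := hCb E τ hE hτ.1
        rw [← ofReal_integral_eq_lintegral_ofReal hint (Eventually.of_forall hnn)] at h2
        have h3 : 0 ≤ C * E ^ (-γ) * τ ^ a := by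
          have := hτ.1
          positivity
        exact (ENNReal.ofReal_le_ofReal_iff h3).mp h2
      have h4 : τ ^ a ≤ T ^ a := Real.rpow_le_rpow hτ.1.le hτ.2 ha0.le
      have h5 : C * E ^ (-γ) * τ ^ a ≤ ρ / 4 := by
        calc C * E ^ (-γ) * τ ^ a ≤ C * E ^ (-γ) * (ρ * E ^ γ / (4 * C)) := by
              rw [← hTa]
              exact mul_le_mul_of_nonneg_left h4 (by positivity)
          _ = (E ^ (-γ) * E ^ γ) * ρ / 4 := by
              field_simp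
          _ = ρ / 4 := by rw [hEγ, one_mul]
      exact RU_point hE hτ.1 u hu x (h1.trans h5)
    have hval : 1 / 4 * (1 / (4 * C)) ^ (1 / a) * E ^ (γ / a) * ρ ^ ((γ + d / 2) / a) =
        ρ / 4 * T := by
      have h1 : (γ + d / 2) / a = 1 + 1 / a := by
        have h0 : γ + (d : ℝ) / 2 = a + 1 := by rw [ha]; ring
        rw [h0, add_div, div_self ha0.ne']
      have h2 : ρ ^ (1 + 1 / a) = ρ * ρ ^ (1 / a) := by
        rcases eq_or_lt_of_le hρ0 with h | h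
        · rw [← h, zero_mul, Real.zero_rpow]
          positivity
        · rw [Real.rpow_add h, Real.rpow_one]
      have h3 : E ^ (γ / a) = (E ^ γ) ^ (1 / a) := by
        rw [← Real.rpow_mul hE.le, mul_one_div]
      rw [h1, h2, h3, hT, div_eq_mul_one_div (ρ * E ^ γ) (4 * C),
        Real.mul_rpow (by positivity) (by positivity), Real.mul_rpow hρ0 (by positivity)]
      ring
    calc ENNReal.ofReal (1 / 4 * (1 / (4 * C)) ^ (1 / a) * E ^ (γ / a)) *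
          ENNReal.ofReal (ρ ^ ((γ + d / 2) / a))
        = ENNReal.ofReal (ρ / 4 * T) := by
          rw [← ENNReal.ofReal_mul (by positivity), hval]
      _ = ENNReal.ofReal (ρ / 4) * ENNReal.ofReal T := ENNReal.ofReal_mul (by positivity)
      _ = ∫⁻ _τ in Ioc (0 : ℝ) T, ENNReal.ofReal (ρ / 4) := by
          rw [setLIntegral_const, Real.volume_Ioc, sub_zero]
      _ ≤ ∫⁻ τ in Ioc (0 : ℝ) T, ∑ i,
            ENNReal.ofReal (‖(u i : Sp d → ℂ) x - lowp τ (u i : Sp d → ℂ) x‖ ^ 2) := by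
          refine setLIntegral_mono' measurableSet_Ioc fun τ hτ => ?_
          rw [← ENNReal.ofReal_sum_of_nonneg fun i _ => by positivity]
          exact ENNReal.ofReal_le_ofReal (hlow τ hτ)
      _ ≤ _ := lintegral_mono_set Ioc_subset_Ioi_self
  calc ENNReal.ofReal (1 / 4 * (1 / (4 * C)) ^ (1 / a) * E ^ (γ / a)) *
        ∫⁻ x, ENNReal.ofReal ((∑ i, ‖(u i : Sp d → ℂ) x‖ ^ 2) ^ ((γ + d / 2) / a))
      = ∫⁻ x, ENNReal.ofReal (1 / 4 * (1 / (4 * C)) ^ (1 / a) * E ^ (γ / a)) *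
          ENNReal.ofReal ((∑ i, ‖(u i : Sp d → ℂ) x‖ ^ 2) ^ ((γ + d / 2) / a)) :=
        (lintegral_const_mul' _ _ ENNReal.ofReal_ne_top).symm
    _ ≤ ∫⁻ x, ∫⁻ τ in Ioi (0 : ℝ), ∑ i,
          ENNReal.ofReal (‖(u i : Sp d → ℂ) x - lowp τ (u i : Sp d → ℂ) x‖ ^ 2) :=
        lintegral_mono hpt
    _ = ∑ i, ∫⁻ τ in Ioi (0 : ℝ), ∫⁻ x,
          ENNReal.ofReal (‖(u i : Sp d → ℂ) x - lowp τ (u i : Sp d → ℂ) x‖ ^ 2) :=
        RV_swap (fun i z =>
          ENNReal.ofReal (‖(u i : Sp d → ℂ) z.1 - lowp z.2 (u i : Sp d → ℂ) z.1‖ ^ 2)) hgm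
    _ ≤ ∑ _i : Fin n, (1 : ℝ≥0∞) := by
        refine Finset.sum_le_sum fun i _ => ?_
        refine (RU_time hE (u i)).trans ?_
        have h1 := hu (Pi.single i 1)
        have h2 : (∑ j, (Pi.single i (1 : ℂ) : Fin n → ℂ) j • u j : TF d) = u i := by
          rw [Finset.sum_eq_single i]
          · rw [Pi.single_eq_same, one_smul]
          · intro j _ hj
            rw [Pi.single_eq_of_ne hj, zero_smul]
          · intro h
            exact absurd (Finset.mem_univ i) h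
        have h3 : ∑ j, ‖(Pi.single i (1 : ℂ) : Fin n → ℂ) j‖ ^ 2 = 1 := by
          rw [Finset.sum_eq_single i]
          · rw [Pi.single_eq_same, norm_one, one_pow]
          · intro j _ hj
            rw [Pi.single_eq_of_ne hj, norm_zero, zero_pow two_ne_zero]
          · intro h
            exact absurd (Finset.mem_univ i) h
        rw [h2, h3] at h1
        rw [h1, ENNReal.ofReal_one]
    _ = (n : ℝ≥0∞) := by
        rw [Finset.sum_const, Finset.card_univ, Fintype.card_fin, nsmul_eq_mul, mul_one]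

end Pool.Agent.H87.LTI
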