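import Pool.Agent.H87.LTI.Defs

/-!
ROW TA (90 lines).  A Tonelli lemma (measure theory only).
Multiply `h` (for `a`) by `a^(-ε-1)` and integrate over `a ∈ Ioi 0`.
LEFT: `∫_{a>0} a^(-ε-1) ∫_{0 < E ≤ a/κ} g(E) dE da = ∫_{E>0} g(E) ∫_{a ≥ κE} a^(-ε-1) da dE = ∫_{E>0} g(E) (κE)^(-ε)/ε dE` (`lintegral_lintegral_swap`; `0 < E ≤ a/κ` iff `κE ≤ a` for `E > 0`;
`∫_{a > s} a^(-ε-1) da = s^(-ε)/ε` for `s > 0`: `integral_Ioi_rpow_of_lt`, `integrableOn_Ioi_rpow_of_lt`, `ofReal_integral_eq_lintegral_ofReal`; a point has measure zero).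
RIGHT: `∫_{a>0} a^(-ε-1) ∫_x (lo a U)^(q+ε) dx da = ∫_x ∫_{a>0, a ≥ U(x)} a^(-ε-1) U(x)^(q+ε) da dx = ∫_x U^q/ε` (for `U x = 0` both sides are `0`, as `0^(q+ε) = 0` and `0^q = 0`; `q > 0`); here
`(lo a U x)^(q+ε) = if U x ≤ a then U x^(q+ε) else 0`.
Comparing (multiply by `ε κ^ε`): `∫_{E>0} E^(-ε) g(E) dE ≤ κ^ε c ∫ U^q`.
-/

open MeasureTheory Complex Set Filter Topology
open scoped ENNReal NNReal ContDiff ComplexConjugate

noncomputable section

namespace Pool.Agent.H87.LTI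

open Pool.Agent.H2.LTM

theorem TA_tail {ε s : ℝ} (hε : 0 < ε) (hs : 0 < s) :
    ∫⁻ a in Ioi s, ENNReal.ofReal (a ^ (-ε - 1)) = ENNReal.ofReal (s ^ (-ε) / ε) := by
  have h1 : (-ε - 1 : ℝ) < -1 := by linarith
  have h2 := integral_Ioi_rpow_of_lt h1 hs
  have h3 := integrableOn_Ioi_rpow_of_lt h1 hs
  have h4 : 0 ≤ᵐ[volume.restrict (Ioi s)] fun a : ℝ => a ^ (-ε - 1) := by
    filter_upwards [ae_restrict_mem measurableSet_Ioi] with a ha
    exact Real.rpow_nonneg (hs.le.trans (le_of_lt ha)) _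
  rw [← ofReal_integral_eq_lintegral_ofReal h3 h4, h2]
  congr 1
  have h5 : (-ε - 1 + 1 : ℝ) = -ε := by ring
  rw [h5, neg_div_neg_eq]

theorem TA_step {ε s : ℝ} (hε : 0 < ε) (hs : 0 < s) (G : ℝ≥0∞) :
    ∫⁻ a in Ioi (0 : ℝ), ENNReal.ofReal (a ^ (-ε - 1)) * (if s ≤ a then G else 0) =
      G * ENNReal.ofReal (s ^ (-ε) / ε) := by
  have hm : Measurable (fun a : ℝ => ENNReal.ofReal (a ^ (-ε - 1))) := by fun_prop
  have h1 : ∀ a : ℝ, ENNReal.ofReal (a ^ (-ε - 1)) * (if s ≤ a then G else 0) =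
      (Ici s).indicator (fun a => G * ENNReal.ofReal (a ^ (-ε - 1))) a := by
    intro a
    by_cases h : s ≤ a
    · rw [if_pos h, Set.indicator_of_mem (show a ∈ Ici s from h), mul_comm]
    · rw [if_neg h, Set.indicator_of_notMem (show a ∉ Ici s from h), mul_zero]
  simp_rw [h1]
  rw [lintegral_indicator measurableSet_Ici, Measure.restrict_restrict measurableSet_Ici]
  have h2 : Ici s ∩ Ioi (0 : ℝ) = Ici s := by
    ext a
    simp only [mem_inter_iff, mem_Ici, mem_Ioi]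
    exact ⟨fun h => h.1, fun h => ⟨h, hs.trans_le h⟩⟩
  rw [h2, lintegral_const_mul _ hm, setLIntegral_congr Ioi_ae_eq_Ici.symm, TA_tail hε hs]

theorem TA_main {d : ℕ} {U : Sp d → ℝ} (hU : Measurable U) (h0 : ∀ x, 0 ≤ U x) {q ε κ : ℝ}
    (hq : 0 < q) (hε : 0 < ε) (hκ : 0 < κ) (g : ℝ → ℝ≥0∞) (hg : Measurable g) (c : ℝ≥0∞)
    (h : ∀ a : ℝ, 0 < a → ∫⁻ E in Ioc 0 (a / κ), g E ≤ c * Iq (q + ε) (lo a U)) :
    ∫⁻ E in Ioi (0 : ℝ), ENNReal.ofReal (E ^ (-ε)) * g E ≤
      ENNReal.ofReal (κ ^ ε) * c * Iq q U := by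
  have hw : Measurable (fun a : ℝ => ENNReal.ofReal (a ^ (-ε - 1))) := by fun_prop
  -- the inequality, integrated
  have h1 : ∫⁻ a in Ioi (0 : ℝ), ENNReal.ofReal (a ^ (-ε - 1)) * ∫⁻ E in Ioc 0 (a / κ), g E ≤
      ∫⁻ a in Ioi (0 : ℝ), ENNReal.ofReal (a ^ (-ε - 1)) * (c * Iq (q + ε) (lo a U)) := by
    refine setLIntegral_mono' measurableSet_Ioi fun a ha => ?_
    exact mul_le_mul_right (h a ha) _
  -- left hand side
  have hL : ∫⁻ a in Ioi (0 : ℝ), ENNReal.ofReal (a ^ (-ε - 1)) * ∫⁻ E in Ioc 0 (a / κ), g E =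
      ENNReal.ofReal (κ ^ (-ε) / ε) * ∫⁻ E in Ioi (0 : ℝ), ENNReal.ofReal (E ^ (-ε)) * g E := by
    have e1 : ∀ a ∈ Ioi (0 : ℝ), ENNReal.ofReal (a ^ (-ε - 1)) * ∫⁻ E in Ioc 0 (a / κ), g E =
        ∫⁻ E in Ioi (0 : ℝ), ENNReal.ofReal (a ^ (-ε - 1)) * (if κ * E ≤ a then g E else 0) := by
      intro a _
      have hm : Measurable (fun E : ℝ => if κ * E ≤ a then g E else 0) :=
        Measurable.ite (measurableSet_le (measurable_id.const_mul κ) measurable_const) hg
          measurable_const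
      rw [lintegral_const_mul _ hm]
      congr 1
      have e2 : (fun E : ℝ => if κ * E ≤ a then g E else 0) = (Iic (a / κ)).indicator g := by
        funext E
        have e3 : κ * E ≤ a ↔ E ∈ Iic (a / κ) := by
          rw [mem_Iic, le_div_iff₀ hκ, mul_comm]
        by_cases hE : κ * E ≤ a
        · rw [if_pos hE, Set.indicator_of_mem (e3.1 hE)]
        · rw [if_neg hE, Set.indicator_of_notMem (fun h => hE (e3.2 h))]
      rw [e2, lintegral_indicator measurableSet_Iic, Measure.restrict_restrict measurableSet_Iic,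
        Set.inter_comm, Ioi_inter_Iic]
    rw [setLIntegral_congr_fun measurableSet_Ioi e1]
    have hjm : Measurable (Function.uncurry fun (a E : ℝ) =>
        ENNReal.ofReal (a ^ (-ε - 1)) * (if κ * E ≤ a then g E else 0)) := by
      refine (hw.comp measurable_fst).mul (Measurable.ite ?_ (hg.comp measurable_snd)
        measurable_const)
      exact measurableSet_le (measurable_snd.const_mul κ) measurable_fst
    rw [lintegral_lintegral_swap hjm.aemeasurable]
    have hm2 : Measurable (fun E : ℝ => ENNReal.ofReal (E ^ (-ε)) * g E) := by fun_prop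
    rw [← lintegral_const_mul _ hm2]
    refine setLIntegral_congr_fun measurableSet_Ioi fun E hE => ?_
    have hE' : (0 : ℝ) < E := hE
    rw [TA_step hε (mul_pos hκ hE') (g E)]
    rw [Real.mul_rpow hκ.le hE'.le]
    have e4 : κ ^ (-ε) * E ^ (-ε) / ε = κ ^ (-ε) / ε * E ^ (-ε) := by ring
    rw [e4, ENNReal.ofReal_mul (by positivity)]
    ring
  -- right hand side
  have hR : ∫⁻ a in Ioi (0 : ℝ), ENNReal.ofReal (a ^ (-ε - 1)) * (c * Iq (q + ε) (lo a U)) =
      c * (ENNReal.ofReal (1 / ε) * Iq q U) := by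
    have hlo : ∀ a : ℝ, Measurable (lo a U) := fun a =>
      Measurable.ite (measurableSet_le hU measurable_const) hU measurable_const
    have e1 : ∀ a : ℝ, ENNReal.ofReal (a ^ (-ε - 1)) * (c * Iq (q + ε) (lo a U)) =
        ∫⁻ x, ENNReal.ofReal (a ^ (-ε - 1)) * (c * ENNReal.ofReal ((lo a U x) ^ (q + ε))) := by
      intro a
      have hm : Measurable (fun x => ENNReal.ofReal ((lo a U x) ^ (q + ε))) :=
        ((hlo a).pow_const _).ennreal_ofReal
      rw [lintegral_const_mul _ (hm.const_mul c), lintegral_const_mul _ hm]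
      rfl
    simp_rw [e1]
    have hjm : Measurable (Function.uncurry fun (a : ℝ) (x : Sp d) =>
        ENNReal.ofReal (a ^ (-ε - 1)) * (c * ENNReal.ofReal ((lo a U x) ^ (q + ε)))) := by
      refine (hw.comp measurable_fst).mul (Measurable.const_mul ?_ c)
      refine Measurable.ennreal_ofReal (Measurable.pow_const ?_ _)
      exact Measurable.ite (measurableSet_le (hU.comp measurable_snd) measurable_fst)
        (hU.comp measurable_snd) measurable_const
    rw [lintegral_lintegral_swap hjm.aemeasurable]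
    have hmq : Measurable (fun x => ENNReal.ofReal (U x ^ q)) := (hU.pow_const q).ennreal_ofReal
    have e2 : ∀ x, ∫⁻ a in Ioi (0 : ℝ), ENNReal.ofReal (a ^ (-ε - 1)) *
        (c * ENNReal.ofReal ((lo a U x) ^ (q + ε))) =
        c * (ENNReal.ofReal (1 / ε) * ENNReal.ofReal (U x ^ q)) := by
      intro x
      rcases (h0 x).lt_or_eq with hx | hx
      · have e3 : ∀ a : ℝ, ENNReal.ofReal (a ^ (-ε - 1)) *
            (c * ENNReal.ofReal ((lo a U x) ^ (q + ε))) = ENNReal.ofReal (a ^ (-ε - 1)) *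
            (if U x ≤ a then c * ENNReal.ofReal (U x ^ (q + ε)) else 0) := by
          intro a
          unfold lo
          by_cases ha : U x ≤ a
          · rw [if_pos ha, if_pos ha]
          · rw [if_neg ha, if_neg ha, Real.zero_rpow (by positivity)]
            simp
        simp_rw [e3]
        rw [TA_step hε hx, mul_assoc, ← ENNReal.ofReal_mul (by positivity),
          ← ENNReal.ofReal_mul (by positivity)]
        congr 2
        rw [Real.rpow_add hx, Real.rpow_neg hx.le]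
        have : U x ^ ε ≠ 0 := (Real.rpow_pos_of_pos hx _).ne'
        field_simp
      · have e4 : ∀ a : ℝ, lo a U x = 0 := by
          intro a
          unfold lo
          rw [← hx]
          simp
        simp_rw [e4]
        rw [← hx, Real.zero_rpow (by positivity), Real.zero_rpow hq.ne']
        simp
    simp_rw [e2]
    rw [lintegral_const_mul _ (hmq.const_mul _), lintegral_const_mul _ hmq]
    rfl
  rw [hL, hR] at h1
  have hpos : (0 : ℝ) ≤ ε * κ ^ ε := by positivity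
  have h2 := mul_le_mul_right h1 (ENNReal.ofReal (ε * κ ^ ε))
  rw [← mul_assoc, ← ENNReal.ofReal_mul hpos] at h2
  have h3 : ε * κ ^ ε * (κ ^ (-ε) / ε) = 1 := by
    rw [Real.rpow_neg hκ.le]
    have : κ ^ ε ≠ 0 := (Real.rpow_pos_of_pos hκ _).ne'
    field_simp
  rw [h3, ENNReal.ofReal_one, one_mul] at h2
  refine h2.trans (le_of_eq ?_)
  have h4 : ENNReal.ofReal (ε * κ ^ ε) * ENNReal.ofReal (1 / ε) = ENNReal.ofReal (κ ^ ε) := by
    rw [← ENNReal.ofReal_mul hpos]
    congr 1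
    field_simp
  calc ENNReal.ofReal (ε * κ ^ ε) * (c * (ENNReal.ofReal (1 / ε) * Iq q U)) =
      (ENNReal.ofReal (ε * κ ^ ε) * ENNReal.ofReal (1 / ε)) * c * Iq q U := by ring
    _ = _ := by rw [h4]

end Pool.Agent.H87.LTI
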