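import Pool.Agent.H87.LTI.TA
import Pool.Agent.H87.LTI.LV
import Pool.Agent.H87.LTI.IQ

/-!
ROW TB (90 lines).  The bounded part.  `F E = lv A (lo (κE) U) E` need not be measurable.  Put `f E = ofReal (γ E^(γ-1)) * F E`; `exists_measurable_le_lintegral_eq` (for the restricted measure) gives a measurable `g0 ≤ f` with the same
integral over `Ioi 0`.  Let `ε = γ0 - γ`, `g E = ofReal (γ0/γ * E^ε) * g0 E` (measurable).  For `a > 0` and `E ∈ Ioc 0 (a/κ)`: `κE ≤ a`, so `lo (κE) U ≤ lo a U` (`lo_mono`; both locally integrable: `iq_loc` of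
`iq_lo` with `p = q = γ + d/2`, or bounded by `U`), `F E ≤ lv A (lo a U) E` (`lv_mono`) and `g E ≤ ofReal (γ0 E^(γ0-1)) * lv A (lo a U) E`; so
`∫_{Ioc 0 (a/κ)} g ≤ riesz γ0 A (lo a U) ≤ K0 * Iq (γ0 + d/2) (lo a U)` (`H`; the integral is finite by `iq_lo`).  `TA_main` with `q = γ + d/2`, `c = K0`:
`∫ E^(-ε) g E ≤ κ^ε K0 Iq q U`, and `E^(-ε) g E = (γ0/γ) g0 E` for `E > 0`.  Multiply by `γ/γ0`.
-/

open MeasureTheory Complex Set Filter Topology
open scoped ENNReal NNReal ContDiff ComplexConjugate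

noncomputable section

namespace Pool.Agent.H87.LTI

open Pool.Agent.H2.LTM

theorem TB_loc {d : ℕ} {q : ℝ} (hq : 1 ≤ q) {U : Sp d → ℝ} (hU : Measurable U)
    (hU0 : ∀ x, 0 ≤ U x) (hI : Iq q U ≠ ⊤) {a : ℝ} (ha : 0 ≤ a) :
    LocallyIntegrable (lo a U) := by
  refine iq_loc (measurable_lo hU a) (lo_nonneg hU0 a) hq ?_
  refine ne_top_of_le_ne_top ?_ (iq_lo hU hU0 (by linarith) le_rfl ha)
  exact ENNReal.mul_ne_top ENNReal.ofReal_ne_top hI

theorem TB_main {d : ℕ} {A : Sp d → Sp d} {γ γ0 : ℝ} (hγ : 0 < γ) (h0 : γ < γ0)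
    (hp : 1 ≤ γ + d / 2) {K0 : ℝ≥0∞} (H : Holds γ0 A K0) {U : Sp d → ℝ} (hU : Measurable U)
    (hU0 : ∀ x, 0 ≤ U x) (hI : Iq (γ + d / 2) U ≠ ⊤) {κ : ℝ} (hκ : 0 < κ) :
    ∫⁻ E in Ioi (0 : ℝ), ENNReal.ofReal (γ * E ^ (γ - 1)) * lv A (lo (κ * E) U) E ≤
      ENNReal.ofReal (γ / γ0 * κ ^ (γ0 - γ)) * K0 * Iq (γ + d / 2) U := by
  have hγ0 : 0 < γ0 := by linarith
  obtain ⟨ε, hε⟩ : ∃ ε, ε = γ0 - γ := ⟨_, rfl⟩
  have hε0 : 0 < ε := by
    rw [hε]
    linarith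
  rw [← hε]
  obtain ⟨g0, hg0m, hg0le, hg0eq⟩ := exists_measurable_le_lintegral_eq
    (μ := volume.restrict (Ioi (0 : ℝ)))
    (fun E : ℝ => ENNReal.ofReal (γ * E ^ (γ - 1)) * lv A (lo (κ * E) U) E)
  have hgm : Measurable (fun E : ℝ => ENNReal.ofReal (γ0 / γ * E ^ ε) * g0 E) :=
    ((measurable_id.pow_const ε).const_mul _).ennreal_ofReal.mul hg0m
  have hclaim : ∀ a : ℝ, 0 < a → ∫⁻ E in Ioc 0 (a / κ), ENNReal.ofReal (γ0 / γ * E ^ ε) * g0 E ≤
      K0 * Iq (γ + d / 2 + ε) (lo a U) := by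
    intro a ha
    have e1 : γ + (d : ℝ) / 2 + ε = γ0 + (d : ℝ) / 2 := by
      rw [hε]
      ring
    rw [e1]
    have hfin : Iq (γ0 + d / 2) (lo a U) ≠ ⊤ := by
      refine ne_top_of_le_ne_top ?_ (iq_lo hU hU0 (p := γ + d / 2) (by linarith) (by linarith)
        ha.le)
      exact ENNReal.mul_ne_top ENNReal.ofReal_ne_top hI
    have h1 := H (lo a U) (measurable_lo hU a) (lo_nonneg hU0 a) hfin
    refine le_trans ?_ h1
    rw [riesz_eq]
    calc ∫⁻ E in Ioc 0 (a / κ), ENNReal.ofReal (γ0 / γ * E ^ ε) * g0 E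
        ≤ ∫⁻ E in Ioc 0 (a / κ), ENNReal.ofReal (γ0 * E ^ (γ0 - 1)) * lv A (lo a U) E := by
          refine setLIntegral_mono' measurableSet_Ioc fun E hE => ?_
          have hE0 : 0 < E := hE.1
          have hEa : κ * E ≤ a := by
            have := hE.2
            rw [le_div_iff₀ hκ] at this
            linarith
          have h2 : lv A (lo (κ * E) U) E ≤ lv A (lo a U) E :=
            lv_mono (TB_loc hp hU hU0 hI (by positivity)) (TB_loc hp hU hU0 hI ha.le)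
              (fun x => lo_mono hU0 hEa x) E
          have h3 : ENNReal.ofReal (γ0 / γ * E ^ ε) * ENNReal.ofReal (γ * E ^ (γ - 1)) =
              ENNReal.ofReal (γ0 * E ^ (γ0 - 1)) := by
            rw [← ENNReal.ofReal_mul (by positivity)]
            congr 1
            have e2 : γ0 - 1 = ε + (γ - 1) := by
              rw [hε]
              ring
            rw [e2, Real.rpow_add hE0]
            field_simp
          calc ENNReal.ofReal (γ0 / γ * E ^ ε) * g0 E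
              ≤ ENNReal.ofReal (γ0 / γ * E ^ ε) *
                  (ENNReal.ofReal (γ * E ^ (γ - 1)) * lv A (lo (κ * E) U) E) :=
                mul_le_mul_right (hg0le E) _
            _ = ENNReal.ofReal (γ0 * E ^ (γ0 - 1)) * lv A (lo (κ * E) U) E := by
                rw [← mul_assoc, h3]
            _ ≤ _ := mul_le_mul_right h2 _
      _ ≤ ∫⁻ E in Ioi (0 : ℝ), ENNReal.ofReal (γ0 * E ^ (γ0 - 1)) * lv A (lo a U) E :=
          lintegral_mono_set Ioc_subset_Ioi_self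
  have hT := TA_main hU hU0 (q := γ + d / 2) (ε := ε) (κ := κ) (by linarith) hε0 hκ _ hgm K0
    hclaim
  have h4 : ∫⁻ E in Ioi (0 : ℝ), ENNReal.ofReal (E ^ (-ε)) *
      (ENNReal.ofReal (γ0 / γ * E ^ ε) * g0 E) = ENNReal.ofReal (γ0 / γ) *
      ∫⁻ E in Ioi (0 : ℝ), g0 E := by
    rw [← lintegral_const_mul _ hg0m]
    refine setLIntegral_congr_fun measurableSet_Ioi fun E hE => ?_
    have hE0 : 0 < E := hE
    show ENNReal.ofReal (E ^ (-ε)) * (ENNReal.ofReal (γ0 / γ * E ^ ε) * g0 E) =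
      ENNReal.ofReal (γ0 / γ) * g0 E
    rw [← mul_assoc, ← ENNReal.ofReal_mul (by positivity)]
    congr 2
    rw [Real.rpow_neg hE0.le]
    have h5 : E ^ ε ≠ 0 := (Real.rpow_pos_of_pos hE0 _).ne'
    field_simp
  rw [h4] at hT
  rw [hg0eq]
  have h6 : ENNReal.ofReal (γ / γ0) * ENNReal.ofReal (γ0 / γ) = 1 := by
    rw [← ENNReal.ofReal_mul (by positivity)]
    have : γ / γ0 * (γ0 / γ) = 1 := by field_simp
    rw [this, ENNReal.ofReal_one]
  calc ∫⁻ E in Ioi (0 : ℝ), g0 E = ENNReal.ofReal (γ / γ0) * (ENNReal.ofReal (γ0 / γ) *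
        ∫⁻ E in Ioi (0 : ℝ), g0 E) := by
        rw [← mul_assoc, h6, one_mul]
    _ ≤ ENNReal.ofReal (γ / γ0) * (ENNReal.ofReal (κ ^ ε) * K0 * Iq (γ + d / 2) U) :=
        mul_le_mul_right hT _
    _ = ENNReal.ofReal (γ / γ0 * κ ^ ε) * K0 * Iq (γ + d / 2) U := by
        rw [ENNReal.ofReal_mul (by positivity)]
        ring

end Pool.Agent.H87.LTI
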