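import Pool.Agent.H87.LTI.LV

/-!
ROW WF (80 lines).  An orthonormal family for `kin 0 + E mass`.
`CNT_fwd` (H2/LTM/CNT.lean) gives `w : Fin n → TF d` with `kin - pot V + E mass < 0` on nonzero combinations; `n = 0` is trivial.  On `Fin n → ℂ` the form
`a(c) = (kin 0 + E mass)(∑ c i • w i)` is Hermitian (`isHF_kin`, `isHF_mass`, `IsHF.comp`) and positive for `c ≠ 0` (`mass_pos`; `∑ c i • w i ≠ 0` as the form is negative there and `0` at `0`); `exists_diag` (H2/LTM/DIA.lean) with `q = q1 = a` gives a basis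
`v j` of `Fin n → ℂ` (`finrank = n`) with `a(∑ c j • v j) = ∑ ‖c j‖²`; `u j = ∑ i, (v j) i • w i` satisfies the first claim and (for `c = Pi.single j 1`) `pot V (u j) > 1`.
-/

open MeasureTheory Complex Set Filter Topology
open scoped ENNReal NNReal ContDiff ComplexConjugate

noncomputable section

namespace Pool.Agent.H87.LTI

open Pool.Agent.H2.LTM

theorem WF_diag {n : ℕ} (a : (Fin n → ℂ) → ℝ) (ha : IsHF a) (pos : ∀ c, c ≠ 0 → 0 < a c) :
    ∃ v : Fin n → (Fin n → ℂ), LinearIndependent ℂ v ∧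
      ∀ c : Fin n → ℂ, a (∑ i, c i • v i) = ∑ i, ‖c i‖ ^ 2 := by
  have key : ∀ N : ℕ, N = n → (∃ (v : Fin N → (Fin n → ℂ)) (e : Fin N → ℝ),
      LinearIndependent ℂ v ∧ ∀ c : Fin N → ℂ,
        a (∑ i, c i • v i) = ∑ i, ‖c i‖ ^ 2 ∧ a (∑ i, c i • v i) = ∑ i, e i * ‖c i‖ ^ 2) →
      ∃ v : Fin n → (Fin n → ℂ), LinearIndependent ℂ v ∧
        ∀ c : Fin n → ℂ, a (∑ i, c i • v i) = ∑ i, ‖c i‖ ^ 2 := by
    rintro N rfl ⟨v, e, h1, h2⟩
    exact ⟨v, h1, fun c => (h2 c).1⟩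
  exact key _ (Module.finrank_fin_fun ℂ) (exists_diag a a ha ha pos)

theorem WF_main {d : ℕ} {V : Sp d → ℝ} (hV : LocallyIntegrable V) {E : ℝ} (hE : 0 < E) {n : ℕ}
    (hn : (n : ℕ∞) ≤ levels (0 : Sp d → Sp d) V E) :
    ∃ u : Fin n → TF d, (∀ c : Fin n → ℂ, kin 0 ((∑ i, c i • u i : TF d) : Sp d → ℂ) +
        E * mass ((∑ i, c i • u i : TF d) : Sp d → ℂ) = ∑ i, ‖c i‖ ^ 2) ∧
      ∀ j, 1 < pot V (u j : Sp d → ℂ) := by
  obtain ⟨w, hw⟩ := CNT_fwd _ n hn
  obtain ⟨Q, hQe⟩ : ∃ Q : TF d → ℝ, Q = fun u : TF d => kin 0 (u : Sp d → ℂ) +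
    E * mass (u : Sp d → ℂ) := ⟨_, rfl⟩
  have hQ : IsHF Q := by
    rw [hQe]
    exact (isHF_kin adm_zero.meas adm_zero.loc).add (isHF_mass.const_mul E)
  let L : (Fin n → ℂ) →ₗ[ℂ] TF d := Fintype.linearCombination ℂ w
  have hL : ∀ c, L c = ∑ i, c i • w i := fun c => Fintype.linearCombination_apply ℂ w c
  have hneg : ∀ c, c ≠ 0 → Q (L c) < pot V ((L c : TF d) : Sp d → ℂ) := by
    intro c hc
    have h1 := hw c hc
    simp only [← hL c] at h1
    rw [hQe]
    simp only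
    linarith
  have hLne : ∀ c, c ≠ 0 → L c ≠ 0 := by
    intro c hc h0
    have h1 := hneg c hc
    rw [h0] at h1
    have h2 : pot V ((0 : TF d) : Sp d → ℂ) = 0 := by
      simp [pot]
    rw [h2, hQ.map_zero] at h1
    exact lt_irrefl _ h1
  have pos : ∀ c, c ≠ 0 → 0 < Q (L c) := by
    intro c hc
    have h1 := kin_nonneg 0 ((L c : TF d) : Sp d → ℂ)
    have h2 := mul_pos hE (mass_pos (L c) (hLne c hc))
    rw [hQe]
    simp only
    linarith
  obtain ⟨v, hv, hd⟩ := WF_diag (fun c => Q (L c)) (hQ.comp L) pos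
  have hsum : ∀ c : Fin n → ℂ, (∑ j, c j • L (v j) : TF d) = L (∑ j, c j • v j) := by
    intro c
    rw [map_sum]
    exact Finset.sum_congr rfl fun j _ => (map_smul L (c j) (v j)).symm
  have h1 : ∀ c : Fin n → ℂ, Q (∑ j, c j • L (v j) : TF d) = ∑ i, ‖c i‖ ^ 2 := by
    intro c
    rw [hsum]
    exact hd c
  refine ⟨fun j => L (v j), fun c => ?_, fun j => ?_⟩
  · have h2 := h1 c
    rw [hQe] at h2
    exact h2
  · have h2 := hneg (v j) (hv.ne_zero j)
    have h3 := h1 (Pi.single j 1)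
    have h4 : (∑ i, (Pi.single j 1 : Fin n → ℂ) i • L (v i) : TF d) = L (v j) := by
      rw [Finset.sum_eq_single j]
      · rw [Pi.single_eq_same, one_smul]
      · intro i _ hi
        rw [Pi.single_eq_of_ne hi, zero_smul]
      · intro hj
        exact absurd (Finset.mem_univ j) hj
    have h5 : ∑ i, ‖(Pi.single j 1 : Fin n → ℂ) i‖ ^ 2 = 1 := by
      rw [Finset.sum_eq_single j]
      · rw [Pi.single_eq_same, norm_one, one_pow]
      · intro i _ hi
        rw [Pi.single_eq_of_ne hi, norm_zero]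
        norm_num
      · intro hj
        exact absurd (Finset.mem_univ j) hj
    rw [h4, h5] at h3
    rw [h3] at h2
    exact h2

end Pool.Agent.H87.LTI
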