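import Pool.Agent.H87.LTI.RV
import Pool.Agent.H87.LTI.WF
import Pool.Agent.H87.LTI.TC

/-!
WK.  The weak type bound without magnetic field: `E^γ N_E(V) ≤ K ∫ V^p`, `p = γ + d/2 > 1`, `0 < γ < 1`.
Let `c` be the constant of `RV_main`, `r = p/(p-1)` the dual exponent (`1/p + 1/r = 1`).  Let `I = Iq p V ≠ ⊤`, `E > 0`.  It is enough (`MEA_exists_nat`, H2/LTM/MEA.lean, `ENNReal.le_of_forall_...`/`le_of_forall_lt`) to show for `n : ℕ` with
`n ≤ levels 0 V E`: `ofReal (E^γ) * n ≤ K I`.  `WF_main` gives the family `u`, orthonormal for `kin 0 + E mass`, with `1 < pot V (u j)`.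
So `n ≤ ∑ pot V (u j) = ∫ V ρ`, `ρ = ∑ ‖u j‖²` (`integral_finset_sum`; `V ‖u j‖²` integrable), and Hölder (`ENNReal.lintegral_mul_le_Lp_mul_Lq`, `Real.HolderConjugate p r`):
`n ≤ I^(1/p) (∫⁻ ρ^r)^(1/r)`, `∫⁻ ρ^r ≤ n/(c E^(γ/(p-1)))`.  Hence `n ≤ I^(1/p) n^(1/r) (c E^(γ/(p-1)))^(-1/r)`, `n^(1/p) ≤ I^(1/p) (c E^(γ/(p-1)))^(-1/r)` and, taking the power `p` (`p/r = p - 1`), `n ≤ I c^(-(p-1)) E^(-γ)`.
`K = ofReal (c^(-(p-1)))`.
-/

open MeasureTheory Complex Set Filter Topology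
open scoped ENNReal NNReal ContDiff ComplexConjugate

noncomputable section

namespace Pool.Agent.H87.LTI

open Pool.Agent.H2.LTM

theorem WK_cont {d : ℕ} (u : TF d) : Continuous (u : Sp d → ℂ) := u.2.1.continuous

theorem WK_alg {N I J b : ℝ≥0∞} {p : ℝ} (hp : 1 < p) (hN0 : N ≠ 0) (hN : N ≠ ⊤)
    (hJ : b * J ≤ N) (hH : N ≤ I ^ (1 / p) * J ^ (1 / (p / (p - 1)))) :
    b ^ (p - 1) * N ≤ I := by
  have hp0 : 0 < p := by linarith
  have hp1 : 0 < p - 1 := by linarith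
  have h1 : N ^ p ≤ I * J ^ (p - 1) := by
    have h2 := ENNReal.rpow_le_rpow hH hp0.le
    rw [ENNReal.mul_rpow_of_nonneg _ _ hp0.le, ← ENNReal.rpow_mul, ← ENNReal.rpow_mul] at h2
    have e1 : 1 / p * p = 1 := by field_simp
    have e2 : 1 / (p / (p - 1)) * p = p - 1 := by field_simp
    rw [e1, e2, ENNReal.rpow_one] at h2
    exact h2
  have h2 : b ^ (p - 1) * N ^ p ≤ I * N ^ (p - 1) := by
    calc b ^ (p - 1) * N ^ p ≤ b ^ (p - 1) * (I * J ^ (p - 1)) := by gcongr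
      _ = I * (b * J) ^ (p - 1) := by
        rw [ENNReal.mul_rpow_of_nonneg _ _ hp1.le]
        ring
      _ ≤ I * N ^ (p - 1) := by
        gcongr
  have h3 : N ^ p = N ^ (p - 1) * N := by
    have h4 := ENNReal.rpow_add (p - 1) 1 hN0 hN
    rw [sub_add_cancel, ENNReal.rpow_one] at h4
    exact h4
  rw [h3] at h2
  have h5 : N ^ (p - 1) * (b ^ (p - 1) * N) ≤ N ^ (p - 1) * I := by
    calc N ^ (p - 1) * (b ^ (p - 1) * N) = b ^ (p - 1) * (N ^ (p - 1) * N) := by ring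
      _ ≤ I * N ^ (p - 1) := h2
      _ = N ^ (p - 1) * I := by ring
  have h6 : N ^ (p - 1) ≠ 0 := by
    intro h
    rcases ENNReal.rpow_eq_zero_iff.1 h with h7 | h7
    · exact hN0 h7.1
    · exact hN h7.1
  have h7 : N ^ (p - 1) ≠ ⊤ := ENNReal.rpow_ne_top_of_nonneg hp1.le hN
  exact (ENNReal.mul_le_mul_iff_right h6 h7).1 h5

theorem WK_pot {d : ℕ} {V : Sp d → ℝ} (h0 : ∀ x, 0 ≤ V x) (u : TF d)
    (h : 1 < pot V (u : Sp d → ℂ)) :
    1 ≤ ∫⁻ x, ENNReal.ofReal (V x) * ENNReal.ofReal (‖(u : Sp d → ℂ) x‖ ^ 2) := by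
  have hi : Integrable (fun x => V x * ‖(u : Sp d → ℂ) x‖ ^ 2) := by
    by_contra hni
    have h1 : pot V (u : Sp d → ℂ) = 0 := integral_undef hni
    rw [h1] at h
    linarith
  have h2 := ofReal_integral_eq_lintegral_ofReal hi
    (Eventually.of_forall fun x => mul_nonneg (h0 x) (by positivity))
  have h3 : (1 : ℝ≥0∞) ≤ ENNReal.ofReal (pot V (u : Sp d → ℂ)) := by
    rw [ENNReal.one_le_ofReal]
    exact h.le
  refine h3.trans ?_
  unfold pot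
  rw [h2]
  refine le_of_eq (lintegral_congr fun x => ?_)
  rw [ENNReal.ofReal_mul (h0 x)]

theorem WK_n {d : ℕ} {γ : ℝ} (hp : 1 < γ + d / 2) {c : ℝ} (hc : 0 < c)
    {E : ℝ} (hE : 0 < E) {V : Sp d → ℝ} (hV : Measurable V) (h0 : ∀ x, 0 ≤ V x)
    {n : ℕ} (hn0 : n ≠ 0) (u : Fin n → TF d)
    (hR : ENNReal.ofReal (c * E ^ (γ / (γ + d / 2 - 1))) *
        ∫⁻ x, ENNReal.ofReal ((∑ i, ‖(u i : Sp d → ℂ) x‖ ^ 2) ^
          ((γ + d / 2) / (γ + d / 2 - 1))) ≤ (n : ℝ≥0∞))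
    (hpot : ∀ j, 1 < pot V (u j : Sp d → ℂ)) :
    ENNReal.ofReal (E ^ γ) * n ≤ ENNReal.ofReal (c ^ (-(γ + d / 2 - 1))) * Iq (γ + d / 2) V := by
  set p : ℝ := γ + d / 2 with hpdef
  have hp0 : 0 < p := by linarith
  have hp1 : 0 < p - 1 := by linarith
  have hcu : ∀ j, Continuous fun x => ‖(u j : Sp d → ℂ) x‖ ^ 2 := fun j =>
    (WK_cont (u j)).norm.pow 2
  have hρm : Measurable fun x => ENNReal.ofReal (∑ i, ‖(u i : Sp d → ℂ) x‖ ^ 2) :=
    ENNReal.measurable_ofReal.comp (continuous_finsetSum _ fun i _ => hcu i).measurable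
  have hVm : Measurable fun x => ENNReal.ofReal (V x) := ENNReal.measurable_ofReal.comp hV
  have h1 : (n : ℝ≥0∞) ≤ ∫⁻ x, ENNReal.ofReal (V x) *
      ENNReal.ofReal (∑ i, ‖(u i : Sp d → ℂ) x‖ ^ 2) := by
    calc (n : ℝ≥0∞) = ∑ _j : Fin n, (1 : ℝ≥0∞) := by simp
      _ ≤ ∑ j : Fin n, ∫⁻ x, ENNReal.ofReal (V x) *
          ENNReal.ofReal (‖(u j : Sp d → ℂ) x‖ ^ 2) :=
        Finset.sum_le_sum fun j _ => WK_pot h0 (u j) (hpot j)
      _ = ∫⁻ x, ∑ j : Fin n, ENNReal.ofReal (V x) *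
          ENNReal.ofReal (‖(u j : Sp d → ℂ) x‖ ^ 2) := by
        rw [lintegral_finsetSum]
        intro j _
        exact hVm.mul (ENNReal.measurable_ofReal.comp (hcu j).measurable)
      _ = _ := by
        refine lintegral_congr fun x => ?_
        rw [← Finset.mul_sum, ← ENNReal.ofReal_sum_of_nonneg]
        intro i _
        positivity
  have hpq : p.HolderConjugate (p / (p - 1)) := Real.HolderConjugate.conjExponent hp
  have h2 := ENNReal.lintegral_mul_le_Lp_mul_Lq volume hpq hVm.aemeasurable hρm.aemeasurable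
  have e1 : ∫⁻ x, ENNReal.ofReal (V x) ^ p = Iq p V := by
    refine lintegral_congr fun x => ?_
    rw [ENNReal.ofReal_rpow_of_nonneg (h0 x) hp0.le]
  have e2 : ∫⁻ x, ENNReal.ofReal (∑ i, ‖(u i : Sp d → ℂ) x‖ ^ 2) ^ (p / (p - 1)) =
      ∫⁻ x, ENNReal.ofReal ((∑ i, ‖(u i : Sp d → ℂ) x‖ ^ 2) ^ (p / (p - 1))) := by
    refine lintegral_congr fun x => ?_
    rw [ENNReal.ofReal_rpow_of_nonneg (Finset.sum_nonneg fun i _ => by positivity)
      (by positivity)]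
  rw [e1, e2] at h2
  have h3 := h1.trans h2
  have hb := WK_alg hp (by exact_mod_cast hn0) (ENNReal.natCast_ne_top n) hR h3
  have hbb : ENNReal.ofReal (c * E ^ (γ / (p - 1))) ^ (p - 1) =
      ENNReal.ofReal (c ^ (p - 1) * E ^ γ) := by
    rw [ENNReal.ofReal_rpow_of_nonneg (by positivity) hp1.le, Real.mul_rpow hc.le (by positivity),
      ← Real.rpow_mul hE.le, div_mul_cancel₀ _ hp1.ne']
  rw [hbb] at hb
  calc ENNReal.ofReal (E ^ γ) * n = ENNReal.ofReal (c ^ (-(p - 1))) *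
        (ENNReal.ofReal (c ^ (p - 1) * E ^ γ) * n) := by
        rw [← mul_assoc, ← ENNReal.ofReal_mul (by positivity), ← mul_assoc,
          ← Real.rpow_add hc, neg_add_cancel, Real.rpow_zero, one_mul]
    _ ≤ _ := mul_le_mul_right hb _

theorem WK_main (d : ℕ) {γ : ℝ} (hγ : 0 < γ) (hγ1 : γ < 1) (hp : 1 < γ + d / 2) :
    ∃ K : ℝ≥0∞, K ≠ ⊤ ∧ Weak γ (0 : Sp d → Sp d) K := by
  obtain ⟨c, hc, hR⟩ := RV_main d hγ hγ1 hp
  refine ⟨ENNReal.ofReal (c ^ (-(γ + d / 2 - 1))), ENNReal.ofReal_ne_top, ?_⟩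
  intro V hV h0 hI E hE
  have hloc : LocallyIntegrable V := iq_loc hV h0 hp.le hI
  have ha : ENNReal.ofReal (E ^ γ) ≠ 0 := by
    rw [Ne, ENNReal.ofReal_eq_zero, not_le]
    positivity
  have ha2 : ENNReal.ofReal (E ^ γ) ≠ ⊤ := ENNReal.ofReal_ne_top
  rw [mul_comm, ← ENNReal.le_div_iff_mul_le (Or.inl ha) (Or.inl ha2)]
  refine le_of_forall_lt fun y hy => ?_
  obtain ⟨n, hn, hna⟩ := MEA_exists_nat hy
  refine hn.trans_le ?_
  rw [ENNReal.le_div_iff_mul_le (Or.inl ha) (Or.inl ha2), mul_comm]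
  rcases Nat.eq_zero_or_pos n with h | h
  · subst h
    simp
  · obtain ⟨u, hu, hpot⟩ := WF_main hloc hE hna
    exact WK_n hp hc hE hV h0 h.ne' u (hR E hE n u hu) hpot

end Pool.Agent.H87.LTI
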